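import Pool.Agent.N915.RR.Two

/-!
Computations with `v`, `y` modulo 2, 8 and 16 (the identities were found with a small program).
-/

set_option autoImplicit false
set_option linter.all false
set_option linter.unusedVariables false

namespace Pool.Agent.N915.RR


theorem y1_2 {A : Type*} [CommRing A] {v V y Y d : A} (h0 : (2 : A) = 0) (hr : V ^ 5 * (1 + 2 * Y) ^ 2 * (1 + Y) = Y)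
    (hd : d ^ 2 = V * (1 + 3 * Y + Y ^ 2)) (hv : v = d - V ^ 3 * (1 + 2 * Y) * (1 + Y))
    (hy : (1 + 2 * Y) ^ 2 * y = Y + V ^ 2 * (1 + 2 * Y) * (1 + Y) * v) :
    y = V^2*Y*d + V^2*d + Y^2 := by
  linear_combination (1) * hy + (2*V^2*Y^2 + 3*V^2*Y + V^2) * hv - (2*Y^2 + 2*Y) * y * h0 + (Y + 1) * hr + (-4*V^5*Y^4 - 12*V^5*Y^3 - 13*V^5*Y^2 - 6*V^5*Y - V^5 + V^2*Y^2*d + V^2*Y*d + Y) * h0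

theorem v1_2 {A : Type*} [CommRing A] {v V y Y d : A} (h0 : (2 : A) = 0) (hr : V ^ 5 * (1 + 2 * Y) ^ 2 * (1 + Y) = Y)
    (hd : d ^ 2 = V * (1 + 3 * Y + Y ^ 2)) (hv : v = d - V ^ 3 * (1 + 2 * Y) * (1 + Y))
    (hy : (1 + 2 * Y) ^ 2 * y = Y + V ^ 2 * (1 + 2 * Y) * (1 + Y) * v) :
    v = V^3*Y + V^3 + d := by
  linear_combination hv + (-V^3*Y^2 - 2*V^3*Y - V^3) * h0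

theorem y2_2 {A : Type*} [CommRing A] {v V y Y d : A} (h0 : (2 : A) = 0) (hr : V ^ 5 * (1 + 2 * Y) ^ 2 * (1 + Y) = Y)
    (hd : d ^ 2 = V * (1 + 3 * Y + Y ^ 2)) (hv : v = d - V ^ 3 * (1 + 2 * Y) * (1 + Y))
    (hy : (1 + 2 * Y) ^ 2 * y = Y + V ^ 2 * (1 + 2 * Y) * (1 + Y) * v) :
    y ^ 2 = Y := by
  rw [show y ^ 2 = y ^ 1 * y by ring, pow_one, y1_2 h0 hr hd hv hy]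
  linear_combination (V^4*Y^2 + 2*V^4*Y + V^4) * hd + (Y^3 + 1) * hr + (-2*V^5*Y^6 - 4*V^5*Y^5 - 2*V^5*Y^4 + V^2*Y^3*d + V^2*Y^2*d + Y^4) * h0

theorem y3_2 {A : Type*} [CommRing A] {v V y Y d : A} (h0 : (2 : A) = 0) (hr : V ^ 5 * (1 + 2 * Y) ^ 2 * (1 + Y) = Y)
    (hd : d ^ 2 = V * (1 + 3 * Y + Y ^ 2)) (hv : v = d - V ^ 3 * (1 + 2 * Y) * (1 + Y))
    (hy : (1 + 2 * Y) ^ 2 * y = Y + V ^ 2 * (1 + 2 * Y) * (1 + Y) * v) :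
    y ^ 3 = V^2*Y^2*d + V^2*Y*d + Y^3 := by
  rw [show y ^ 3 = y ^ 2 * y by ring, y2_2 h0 hr hd hv hy, y1_2 h0 hr hd hv hy]
  linear_combination 0

theorem y4_2 {A : Type*} [CommRing A] {v V y Y d : A} (h0 : (2 : A) = 0) (hr : V ^ 5 * (1 + 2 * Y) ^ 2 * (1 + Y) = Y)
    (hd : d ^ 2 = V * (1 + 3 * Y + Y ^ 2)) (hv : v = d - V ^ 3 * (1 + 2 * Y) * (1 + Y))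
    (hy : (1 + 2 * Y) ^ 2 * y = Y + V ^ 2 * (1 + 2 * Y) * (1 + Y) * v) :
    y ^ 4 = Y^2 := by
  rw [show y ^ 4 = y ^ 3 * y by ring, y3_2 h0 hr hd hv hy, y1_2 h0 hr hd hv hy]
  linear_combination (V^4*Y^3 + 2*V^4*Y^2 + V^4*Y) * hd + (Y^4 + Y) * hr + (-2*V^5*Y^7 - 4*V^5*Y^6 - 2*V^5*Y^5 + V^2*Y^4*d + V^2*Y^3*d + Y^5) * h0

theorem y5_2 {A : Type*} [CommRing A] {v V y Y d : A} (h0 : (2 : A) = 0) (hr : V ^ 5 * (1 + 2 * Y) ^ 2 * (1 + Y) = Y)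
    (hd : d ^ 2 = V * (1 + 3 * Y + Y ^ 2)) (hv : v = d - V ^ 3 * (1 + 2 * Y) * (1 + Y))
    (hy : (1 + 2 * Y) ^ 2 * y = Y + V ^ 2 * (1 + 2 * Y) * (1 + Y) * v) :
    y ^ 5 = V^2*Y^3*d + V^2*Y^2*d + Y^4 := by
  rw [show y ^ 5 = y ^ 4 * y by ring, y4_2 h0 hr hd hv hy, y1_2 h0 hr hd hv hy]
  linear_combination 0

theorem y6_2 {A : Type*} [CommRing A] {v V y Y d : A} (h0 : (2 : A) = 0) (hr : V ^ 5 * (1 + 2 * Y) ^ 2 * (1 + Y) = Y)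
    (hd : d ^ 2 = V * (1 + 3 * Y + Y ^ 2)) (hv : v = d - V ^ 3 * (1 + 2 * Y) * (1 + Y))
    (hy : (1 + 2 * Y) ^ 2 * y = Y + V ^ 2 * (1 + 2 * Y) * (1 + Y) * v) :
    y ^ 6 = Y^3 := by
  rw [show y ^ 6 = y ^ 5 * y by ring, y5_2 h0 hr hd hv hy, y1_2 h0 hr hd hv hy]
  linear_combination (V^4*Y^4 + 2*V^4*Y^3 + V^4*Y^2) * hd + (Y^5 + Y^2) * hr + (-2*V^5*Y^8 - 4*V^5*Y^7 - 2*V^5*Y^6 + V^2*Y^5*d + V^2*Y^4*d + Y^6) * h0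

theorem y7_2 {A : Type*} [CommRing A] {v V y Y d : A} (h0 : (2 : A) = 0) (hr : V ^ 5 * (1 + 2 * Y) ^ 2 * (1 + Y) = Y)
    (hd : d ^ 2 = V * (1 + 3 * Y + Y ^ 2)) (hv : v = d - V ^ 3 * (1 + 2 * Y) * (1 + Y))
    (hy : (1 + 2 * Y) ^ 2 * y = Y + V ^ 2 * (1 + 2 * Y) * (1 + Y) * v) :
    y ^ 7 = V^2*Y^4*d + V^2*Y^3*d + Y^5 := by
  rw [show y ^ 7 = y ^ 6 * y by ring, y6_2 h0 hr hd hv hy, y1_2 h0 hr hd hv hy]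
  linear_combination 0

theorem y8_2 {A : Type*} [CommRing A] {v V y Y d : A} (h0 : (2 : A) = 0) (hr : V ^ 5 * (1 + 2 * Y) ^ 2 * (1 + Y) = Y)
    (hd : d ^ 2 = V * (1 + 3 * Y + Y ^ 2)) (hv : v = d - V ^ 3 * (1 + 2 * Y) * (1 + Y))
    (hy : (1 + 2 * Y) ^ 2 * y = Y + V ^ 2 * (1 + 2 * Y) * (1 + Y) * v) :
    y ^ 8 = Y^4 := by
  rw [show y ^ 8 = y ^ 7 * y by ring, y7_2 h0 hr hd hv hy, y1_2 h0 hr hd hv hy]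
  linear_combination (V^4*Y^5 + 2*V^4*Y^4 + V^4*Y^3) * hd + (Y^6 + Y^3) * hr + (-2*V^5*Y^9 - 4*V^5*Y^8 - 2*V^5*Y^7 + V^2*Y^6*d + V^2*Y^5*d + Y^7) * h0

theorem v2_2 {A : Type*} [CommRing A] {v V y Y d : A} (h0 : (2 : A) = 0) (hr : V ^ 5 * (1 + 2 * Y) ^ 2 * (1 + Y) = Y)
    (hd : d ^ 2 = V * (1 + 3 * Y + Y ^ 2)) (hv : v = d - V ^ 3 * (1 + 2 * Y) * (1 + Y))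
    (hy : (1 + 2 * Y) ^ 2 * y = Y + V ^ 2 * (1 + 2 * Y) * (1 + Y) * v) :
    v ^ 2 = V := by
  rw [show v ^ 2 = v ^ 1 * v by ring, pow_one, v1_2 h0 hr hd hv hy]
  linear_combination (1) * hd + (V*Y + V) * hr + (-2*V^6*Y^4 - 6*V^6*Y^3 - 6*V^6*Y^2 - 2*V^6*Y + V^3*Y*d + V^3*d + V*Y^2 + 2*V*Y) * h0

theorem v3_2 {A : Type*} [CommRing A] {v V y Y d : A} (h0 : (2 : A) = 0) (hr : V ^ 5 * (1 + 2 * Y) ^ 2 * (1 + Y) = Y)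
    (hd : d ^ 2 = V * (1 + 3 * Y + Y ^ 2)) (hv : v = d - V ^ 3 * (1 + 2 * Y) * (1 + Y))
    (hy : (1 + 2 * Y) ^ 2 * y = Y + V ^ 2 * (1 + 2 * Y) * (1 + Y) * v) :
    v ^ 3 = V^4*Y + V^4 + V*d := by
  rw [show v ^ 3 = v ^ 2 * v by ring, v2_2 h0 hr hd hv hy, v1_2 h0 hr hd hv hy]
  linear_combination 0

theorem v4_2 {A : Type*} [CommRing A] {v V y Y d : A} (h0 : (2 : A) = 0) (hr : V ^ 5 * (1 + 2 * Y) ^ 2 * (1 + Y) = Y)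
    (hd : d ^ 2 = V * (1 + 3 * Y + Y ^ 2)) (hv : v = d - V ^ 3 * (1 + 2 * Y) * (1 + Y))
    (hy : (1 + 2 * Y) ^ 2 * y = Y + V ^ 2 * (1 + 2 * Y) * (1 + Y) * v) :
    v ^ 4 = V^2 := by
  rw [show v ^ 4 = v ^ 3 * v by ring, v3_2 h0 hr hd hv hy, v1_2 h0 hr hd hv hy]
  linear_combination (V) * hd + (V^2*Y + V^2) * hr + (-2*V^7*Y^4 - 6*V^7*Y^3 - 6*V^7*Y^2 - 2*V^7*Y + V^4*Y*d + V^4*d + V^2*Y^2 + 2*V^2*Y) * h0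

theorem y1_8 {A : Type*} [CommRing A] {v V y Y d : A} (h0 : (8 : A) = 0) (hr : V ^ 5 * (1 + 2 * Y) ^ 2 * (1 + Y) = Y)
    (hd : d ^ 2 = V * (1 + 3 * Y + Y ^ 2)) (hv : v = d - V ^ 3 * (1 + 2 * Y) * (1 + Y))
    (hy : (1 + 2 * Y) ^ 2 * y = Y + V ^ 2 * (1 + 2 * Y) * (1 + Y) * v) :
    y = 4*V^2*Y^3*d + 2*V^2*Y^2*d - V^2*Y*d + V^2*d + 4*Y^4 + 4*Y^3 - Y^2 := by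
  linear_combination (16*Y^4 - 16*Y^3 + 12*Y^2 - 4*Y + 1) * hy + (32*V^2*Y^6 + 16*V^2*Y^5 - 8*V^2*Y^4 + 12*V^2*Y^3 + 2*V^2*Y^2 - V^2*Y + V^2) * hv - (8*Y^6 + 2*Y^3) * y * h0 + (4*Y^3 + 3*Y - 1) * hr + (-8*V^5*Y^8 - 16*V^5*Y^7 - 10*V^5*Y^6 - 6*V^5*Y^5 - 8*V^5*Y^4 - 5*V^5*Y^3 - V^5*Y^2 + 4*V^2*Y^6*d + 2*V^2*Y^5*d - V^2*Y^4*d + V^2*Y^3*d + 2*Y^5 - 2*Y^4 + Y^3) * h0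

theorem v1_8 {A : Type*} [CommRing A] {v V y Y d : A} (h0 : (8 : A) = 0) (hr : V ^ 5 * (1 + 2 * Y) ^ 2 * (1 + Y) = Y)
    (hd : d ^ 2 = V * (1 + 3 * Y + Y ^ 2)) (hv : v = d - V ^ 3 * (1 + 2 * Y) * (1 + Y))
    (hy : (1 + 2 * Y) ^ 2 * y = Y + V ^ 2 * (1 + 2 * Y) * (1 + Y) * v) :
    v = -2*V^3*Y^2 - 3*V^3*Y - V^3 + d := by
  linear_combination hv + (0) * h0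

theorem y2_8 {A : Type*} [CommRing A] {v V y Y d : A} (h0 : (8 : A) = 0) (hr : V ^ 5 * (1 + 2 * Y) ^ 2 * (1 + Y) = Y)
    (hd : d ^ 2 = V * (1 + 3 * Y + Y ^ 2)) (hv : v = d - V ^ 3 * (1 + 2 * Y) * (1 + Y))
    (hy : (1 + 2 * Y) ^ 2 * y = Y + V ^ 2 * (1 + 2 * Y) * (1 + Y) * v) :
    y ^ 2 = 4*V^2*Y^4*d + 2*V^2*Y^3*d - 2*V^2*Y^2*d + 2*Y^4 + 4*Y^3 + 4*Y^2 + Y := by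
  rw [show y ^ 2 = y ^ 1 * y by ring, pow_one, y1_8 h0 hr hd hv hy]
  linear_combination (16*V^4*Y^6 + 16*V^4*Y^5 - 4*V^4*Y^4 + 4*V^4*Y^3 + 5*V^4*Y^2 - 2*V^4*Y + V^4) * hd + (Y^3 + 4*Y^2 + 4*Y + 1) * hr + (2*V^5*Y^8 + 8*V^5*Y^7 + 7*V^5*Y^6 - 2*V^5*Y^5 - 5*V^5*Y^4 - 5*V^5*Y^3 - 4*V^5*Y^2 - V^5*Y + 4*V^2*Y^7*d + 6*V^2*Y^6*d - V^2*Y^4*d + V^2*Y^3*d + 2*Y^8 + 4*Y^7 + Y^6 - Y^5) * h0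

theorem y3_8 {A : Type*} [CommRing A] {v V y Y d : A} (h0 : (8 : A) = 0) (hr : V ^ 5 * (1 + 2 * Y) ^ 2 * (1 + Y) = Y)
    (hd : d ^ 2 = V * (1 + 3 * Y + Y ^ 2)) (hv : v = d - V ^ 3 * (1 + 2 * Y) * (1 + Y))
    (hy : (1 + 2 * Y) ^ 2 * y = Y + V ^ 2 * (1 + 2 * Y) * (1 + Y) * v) :
    y ^ 3 = 4*V^2*Y^5*d + 4*V^2*Y^4*d + 2*V^2*Y^3*d + 3*V^2*Y^2*d + V^2*Y*d + 4*Y^6 - 3*Y^3 := by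
  rw [show y ^ 3 = y ^ 2 * y by ring, y2_8 h0 hr hd hv hy, y1_8 h0 hr hd hv hy]
  linear_combination (16*V^4*Y^7 + 16*V^4*Y^6 - 8*V^4*Y^5 - 2*V^4*Y^4 + 4*V^4*Y^3 - 2*V^4*Y^2) * hd + (-2*Y^5 - 2*Y^2) * hr + (2*V^5*Y^9 + 9*V^5*Y^8 + 9*V^5*Y^7 + 3*V^5*Y^4 + V^5*Y^3 + 2*V^2*Y^8*d + 4*V^2*Y^7*d + 2*V^2*Y^6*d + V^2*Y^5*d + V^2*Y^4*d + Y^8 + 3*Y^7 + 3*Y^6 + 2*Y^5) * h0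

theorem y4_8 {A : Type*} [CommRing A] {v V y Y d : A} (h0 : (8 : A) = 0) (hr : V ^ 5 * (1 + 2 * Y) ^ 2 * (1 + Y) = Y)
    (hd : d ^ 2 = V * (1 + 3 * Y + Y ^ 2)) (hv : v = d - V ^ 3 * (1 + 2 * Y) * (1 + Y))
    (hy : (1 + 2 * Y) ^ 2 * y = Y + V ^ 2 * (1 + 2 * Y) * (1 + Y) * v) :
    y ^ 4 = 4*V^2*Y^4*d + 4*V^2*Y^3*d + Y^2 := by
  rw [show y ^ 4 = y ^ 3 * y by ring, y3_8 h0 hr hd hv hy, y1_8 h0 hr hd hv hy]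
  linear_combination (16*V^4*Y^8 + 24*V^4*Y^7 + 12*V^4*Y^6 + 16*V^4*Y^5 + 12*V^4*Y^4 + V^4*Y^3 + 2*V^4*Y^2 + V^4*Y) * hd + (4*Y^7 + 4*Y^6 + 4*Y^5 - 3*Y^4 + Y) * hr + (3*V^5*Y^9 + 4*V^5*Y^8 + 4*V^5*Y^7 + 9*V^5*Y^6 + 8*V^5*Y^5 + 2*V^5*Y^4 + 4*V^2*Y^9*d + 5*V^2*Y^8*d + 2*V^2*Y^7*d + V^2*Y^6*d + V^2*Y^5*d - V^2*Y^3*d + 2*Y^10 + 2*Y^9 - Y^7 - Y^6) * h0

theorem y5_8 {A : Type*} [CommRing A] {v V y Y d : A} (h0 : (8 : A) = 0) (hr : V ^ 5 * (1 + 2 * Y) ^ 2 * (1 + Y) = Y)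
    (hd : d ^ 2 = V * (1 + 3 * Y + Y ^ 2)) (hv : v = d - V ^ 3 * (1 + 2 * Y) * (1 + Y))
    (hy : (1 + 2 * Y) ^ 2 * y = Y + V ^ 2 * (1 + 2 * Y) * (1 + Y) * v) :
    y ^ 5 = 4*V^2*Y^6*d + 2*V^2*Y^4*d - V^2*Y^3*d + V^2*Y^2*d + 4*Y^7 + 4*Y^6 + 4*Y^5 + 3*Y^4 := by
  rw [show y ^ 5 = y ^ 4 * y by ring, y4_8 h0 hr hd hv hy, y1_8 h0 hr hd hv hy]
  linear_combination (16*V^4*Y^7 + 24*V^4*Y^6 + 4*V^4*Y^5 + 4*V^4*Y^3) * hd + (4*Y^6 + 4*Y^3) * hr + (5*V^5*Y^8 + 9*V^5*Y^7 + 2*V^5*Y^6 - 3*V^5*Y^5 - V^5*Y^4 + 2*V^2*Y^8*d + 4*V^2*Y^7*d + V^2*Y^6*d) * h0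

theorem y6_8 {A : Type*} [CommRing A] {v V y Y d : A} (h0 : (8 : A) = 0) (hr : V ^ 5 * (1 + 2 * Y) ^ 2 * (1 + Y) = Y)
    (hd : d ^ 2 = V * (1 + 3 * Y + Y ^ 2)) (hv : v = d - V ^ 3 * (1 + 2 * Y) * (1 + Y))
    (hy : (1 + 2 * Y) ^ 2 * y = Y + V ^ 2 * (1 + 2 * Y) * (1 + Y) * v) :
    y ^ 6 = 4*V^2*Y^6*d - 2*V^2*Y^5*d + 2*V^2*Y^4*d + 2*Y^6 + 4*Y^5 + 4*Y^4 + Y^3 := by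
  rw [show y ^ 6 = y ^ 5 * y by ring, y5_8 h0 hr hd hv hy, y1_8 h0 hr hd hv hy]
  linear_combination (16*V^4*Y^9 + 8*V^4*Y^8 + 4*V^4*Y^7 + 4*V^4*Y^6 + 5*V^4*Y^4 - 2*V^4*Y^3 + V^4*Y^2) * hd + (4*Y^8 - 3*Y^5 + 4*Y^4 + 4*Y^3 + Y^2) * hr + (3*V^5*Y^10 + 3*V^5*Y^9 + 4*V^5*Y^8 + 3*V^5*Y^7 - 3*V^5*Y^6 - 5*V^5*Y^5 - 4*V^5*Y^4 - V^5*Y^3 + 4*V^2*Y^10*d + 5*V^2*Y^9*d + 3*V^2*Y^8*d + 3*V^2*Y^7*d + V^2*Y^5*d + 2*Y^11 + 4*Y^10 + 4*Y^9 + 3*Y^8 + Y^7 - Y^6) * h0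

theorem y7_8 {A : Type*} [CommRing A] {v V y Y d : A} (h0 : (8 : A) = 0) (hr : V ^ 5 * (1 + 2 * Y) ^ 2 * (1 + Y) = Y)
    (hd : d ^ 2 = V * (1 + 3 * Y + Y ^ 2)) (hv : v = d - V ^ 3 * (1 + 2 * Y) * (1 + Y))
    (hy : (1 + 2 * Y) ^ 2 * y = Y + V ^ 2 * (1 + 2 * Y) * (1 + Y) * v) :
    y ^ 7 = 2*V^2*Y^5*d + 3*V^2*Y^4*d + V^2*Y^3*d + Y^5 := by
  rw [show y ^ 7 = y ^ 6 * y by ring, y6_8 h0 hr hd hv hy, y1_8 h0 hr hd hv hy]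
  linear_combination (16*V^4*Y^9 + 10*V^4*Y^6 - 4*V^4*Y^5 + 2*V^4*Y^4) * hd + (2*Y^7 + 2*Y^4) * hr + (2*V^5*Y^11 + 5*V^5*Y^10 + 2*V^5*Y^7 - 2*V^5*Y^6 - V^5*Y^5 + 2*V^2*Y^10*d + 2*V^2*Y^9*d + 2*V^2*Y^8*d + 4*V^2*Y^7*d + V^2*Y^6*d + Y^10 + 3*Y^9 + 4*Y^8 + 2*Y^7) * h0

theorem y8_8 {A : Type*} [CommRing A] {v V y Y d : A} (h0 : (8 : A) = 0) (hr : V ^ 5 * (1 + 2 * Y) ^ 2 * (1 + Y) = Y)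
    (hd : d ^ 2 = V * (1 + 3 * Y + Y ^ 2)) (hv : v = d - V ^ 3 * (1 + 2 * Y) * (1 + Y))
    (hy : (1 + 2 * Y) ^ 2 * y = Y + V ^ 2 * (1 + 2 * Y) * (1 + Y) * v) :
    y ^ 8 = Y^4 := by
  rw [show y ^ 8 = y ^ 7 * y by ring, y7_8 h0 hr hd hv hy, y1_8 h0 hr hd hv hy]
  linear_combination (8*V^4*Y^8 + 16*V^4*Y^7 + 8*V^4*Y^6 + V^4*Y^5 + 2*V^4*Y^4 + V^4*Y^3) * hd + (4*Y^8 + 4*Y^7 + Y^6 + Y^3) * hr + (-2*V^5*Y^11 - 5*V^5*Y^10 - 2*V^5*Y^9 + 4*V^5*Y^8 + 4*V^5*Y^7 + V^5*Y^6 + V^2*Y^9*d + 3*V^2*Y^8*d + 2*V^2*Y^7*d + Y^9 + Y^8) * h0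

theorem v2_8 {A : Type*} [CommRing A] {v V y Y d : A} (h0 : (8 : A) = 0) (hr : V ^ 5 * (1 + 2 * Y) ^ 2 * (1 + Y) = Y)
    (hd : d ^ 2 = V * (1 + 3 * Y + Y ^ 2)) (hv : v = d - V ^ 3 * (1 + 2 * Y) * (1 + Y))
    (hy : (1 + 2 * Y) ^ 2 * y = Y + V ^ 2 * (1 + 2 * Y) * (1 + Y) * v) :
    v ^ 2 = 4*V^3*Y^2*d + 2*V^3*Y*d - 2*V^3*d + 2*V*Y^2 + 4*V*Y + V := by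
  rw [show v ^ 2 = v ^ 1 * v by ring, pow_one, v1_8 h0 hr hd hv hy]
  linear_combination (1) * hd + (V*Y + V) * hr + (-V^3*Y^2*d - V^3*Y*d) * h0

theorem v3_8 {A : Type*} [CommRing A] {v V y Y d : A} (h0 : (8 : A) = 0) (hr : V ^ 5 * (1 + 2 * Y) ^ 2 * (1 + Y) = Y)
    (hd : d ^ 2 = V * (1 + 3 * Y + Y ^ 2)) (hv : v = d - V ^ 3 * (1 + 2 * Y) * (1 + Y))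
    (hy : (1 + 2 * Y) ^ 2 * y = Y + V ^ 2 * (1 + 2 * Y) * (1 + Y) * v) :
    v ^ 3 = -3*V^4*Y - 3*V^4 + 4*V*Y^2*d - 2*V*Y*d + V*d := by
  rw [show v ^ 3 = v ^ 2 * v by ring, v2_8 h0 hr hd hv hy, v1_8 h0 hr hd hv hy]
  linear_combination (4*V^3*Y^2 + 2*V^3*Y - 2*V^3) * hd + (2*V*Y*d + 2*V*d) * hr + (-2*V^6*Y^4*d - 5*V^6*Y^3*d - 4*V^6*Y^2*d - V^6*Y*d - V^4*Y^2 - V^4*Y + V*Y*d) * h0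

theorem v4_8 {A : Type*} [CommRing A] {v V y Y d : A} (h0 : (8 : A) = 0) (hr : V ^ 5 * (1 + 2 * Y) ^ 2 * (1 + Y) = Y)
    (hd : d ^ 2 = V * (1 + 3 * Y + Y ^ 2)) (hv : v = d - V ^ 3 * (1 + 2 * Y) * (1 + Y))
    (hy : (1 + 2 * Y) ^ 2 * y = Y + V ^ 2 * (1 + 2 * Y) * (1 + Y) * v) :
    v ^ 4 = 4*V^4*Y*d + 4*V^4*d + 4*V^2*Y^2 + 4*V^2*Y + V^2 := by
  rw [show v ^ 4 = v ^ 3 * v by ring, v3_8 h0 hr hd hv hy, v1_8 h0 hr hd hv hy]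
  linear_combination (4*V*Y^2 - 2*V*Y + V) * hd + (4*V^2*Y^3 - 2*V^2*Y^2 - 3*V^2*Y + 3*V^2) * hr + (-2*V^7*Y^6 - 3*V^7*Y^5 + V^7*Y^4 + 3*V^7*Y^3 + V^7*Y^2 - V^4*Y^4*d - V^4*Y^3*d - V^4*Y*d - V^4*d + V^2*Y^4 + V^2*Y^3 - V^2*Y^2) * h0

theorem y1_16 {A : Type*} [CommRing A] {v V y Y d : A} (h0 : (16 : A) = 0) (hr : V ^ 5 * (1 + 2 * Y) ^ 2 * (1 + Y) = Y)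
    (hd : d ^ 2 = V * (1 + 3 * Y + Y ^ 2)) (hv : v = d - V ^ 3 * (1 + 2 * Y) * (1 + Y))
    (hy : (1 + 2 * Y) ^ 2 * y = Y + V ^ 2 * (1 + 2 * Y) * (1 + Y) * v) :
    y = 8*V^2*Y^4*d - 4*V^2*Y^3*d + 2*V^2*Y^2*d - V^2*Y*d + V^2*d + 4*Y^4 + 4*Y^3 - Y^2 := by
  linear_combination (64*Y^6 + 64*Y^5 - 16*Y^4 + 12*Y^2 - 4*Y + 1) * hy + (128*V^2*Y^8 + 320*V^2*Y^7 + 224*V^2*Y^6 + 16*V^2*Y^5 + 8*V^2*Y^4 + 28*V^2*Y^3 + 2*V^2*Y^2 - V^2*Y + V^2) * hv - (16*Y^8 + 32*Y^7 + 16*Y^6 + 2*Y^4 + 2*Y^3) * y * h0 + (4*Y^3 + 8*Y^2 + 3*Y - 1) * hr + (-16*V^5*Y^10 - 64*V^5*Y^9 - 96*V^5*Y^8 - 64*V^5*Y^7 - 19*V^5*Y^6 - 10*V^5*Y^5 - 12*V^5*Y^4 - 6*V^5*Y^3 - V^5*Y^2 + 8*V^2*Y^8*d + 20*V^2*Y^7*d + 14*V^2*Y^6*d + V^2*Y^5*d + 2*V^2*Y^3*d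 + 4*Y^7 + 4*Y^6 - Y^5 + Y^3) * h0

theorem v1_16 {A : Type*} [CommRing A] {v V y Y d : A} (h0 : (16 : A) = 0) (hr : V ^ 5 * (1 + 2 * Y) ^ 2 * (1 + Y) = Y)
    (hd : d ^ 2 = V * (1 + 3 * Y + Y ^ 2)) (hv : v = d - V ^ 3 * (1 + 2 * Y) * (1 + Y))
    (hy : (1 + 2 * Y) ^ 2 * y = Y + V ^ 2 * (1 + 2 * Y) * (1 + Y) * v) :
    v = -2*V^3*Y^2 - 3*V^3*Y - V^3 + d := by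
  linear_combination hv + (0) * h0

theorem y2_16 {A : Type*} [CommRing A] {v V y Y d : A} (h0 : (16 : A) = 0) (hr : V ^ 5 * (1 + 2 * Y) ^ 2 * (1 + Y) = Y)
    (hd : d ^ 2 = V * (1 + 3 * Y + Y ^ 2)) (hv : v = d - V ^ 3 * (1 + 2 * Y) * (1 + Y))
    (hy : (1 + 2 * Y) ^ 2 * y = Y + V ^ 2 * (1 + 2 * Y) * (1 + Y) * v) :
    y ^ 2 = -4*V^2*Y^4*d - 6*V^2*Y^3*d - 2*V^2*Y^2*d + 2*Y^4 - 4*Y^3 - 4*Y^2 + Y := by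
  rw [show y ^ 2 = y ^ 1 * y by ring, pow_one, y1_16 h0 hr hd hv hy]
  linear_combination (64*V^4*Y^8 - 64*V^4*Y^7 + 48*V^4*Y^6 - 32*V^4*Y^5 + 28*V^4*Y^4 - 12*V^4*Y^3 + 5*V^4*Y^2 - 2*V^4*Y + V^4) * hd + (8*Y^5 + 8*Y^4 + Y^3 - 4*Y^2 - 4*Y + 1) * hr + (4*V^5*Y^10 + 8*V^5*Y^9 - 7*V^5*Y^8 - 3*V^5*Y^7 - 8*V^5*Y^6 + 2*V^5*Y^4 + 3*V^5*Y^3 + V^5*Y^2 + 4*V^2*Y^8*d + 2*V^2*Y^7*d - 2*V^2*Y^6*d + V^2*Y^5*d + V^2*Y^3*d + Y^8 + 2*Y^7 + Y^6) * h0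

theorem y3_16 {A : Type*} [CommRing A] {v V y Y d : A} (h0 : (16 : A) = 0) (hr : V ^ 5 * (1 + 2 * Y) ^ 2 * (1 + Y) = Y)
    (hd : d ^ 2 = V * (1 + 3 * Y + Y ^ 2)) (hv : v = d - V ^ 3 * (1 + 2 * Y) * (1 + Y))
    (hy : (1 + 2 * Y) ^ 2 * y = Y + V ^ 2 * (1 + 2 * Y) * (1 + Y) * v) :
    y ^ 3 = 8*V^2*Y^6*d - 4*V^2*Y^5*d - 4*V^2*Y^4*d + 2*V^2*Y^3*d - 5*V^2*Y^2*d + V^2*Y*d - 4*Y^6 + 8*Y^5 + 8*Y^4 - 3*Y^3 := by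
  rw [show y ^ 3 = y ^ 2 * y by ring, y2_16 h0 hr hd hv hy, y1_16 h0 hr hd hv hy]
  linear_combination (-32*V^4*Y^8 - 32*V^4*Y^7 - 2*V^4*Y^4 - 4*V^4*Y^3 - 2*V^4*Y^2) * hd + (8*Y^7 + 8*Y^6 - 2*Y^5 - 2*Y^2) * hr + (-4*V^5*Y^10 - 14*V^5*Y^9 - 14*V^5*Y^8 - 4*V^5*Y^7 - 5*V^2*Y^7*d - 3*V^2*Y^6*d + V^2*Y^5*d + Y^8 - 2*Y^6 - Y^5) * h0

theorem y4_16 {A : Type*} [CommRing A] {v V y Y d : A} (h0 : (16 : A) = 0) (hr : V ^ 5 * (1 + 2 * Y) ^ 2 * (1 + Y) = Y)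
    (hd : d ^ 2 = V * (1 + 3 * Y + Y ^ 2)) (hv : v = d - V ^ 3 * (1 + 2 * Y) * (1 + Y))
    (hy : (1 + 2 * Y) ^ 2 * y = Y + V ^ 2 * (1 + 2 * Y) * (1 + Y) * v) :
    y ^ 4 = 8*V^2*Y^7*d + 8*V^2*Y^6*d + 8*V^2*Y^5*d + 4*V^2*Y^4*d - 4*V^2*Y^3*d + 8*Y^8 + 8*Y^5 + 8*Y^4 + 8*Y^3 + Y^2 := by
  rw [show y ^ 4 = y ^ 3 * y by ring, y3_16 h0 hr hd hv hy, y1_16 h0 hr hd hv hy]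
  linear_combination (64*V^4*Y^10 - 64*V^4*Y^9 + 16*V^4*Y^7 - 44*V^4*Y^6 + 32*V^4*Y^5 - 20*V^4*Y^4 + 9*V^4*Y^3 - 6*V^4*Y^2 + V^4*Y) * hd + (4*Y^7 + 4*Y^6 + 4*Y^5 + 5*Y^4 + 8*Y^3 + 8*Y^2 + Y) * hr + (4*V^5*Y^12 + 8*V^5*Y^11 - 9*V^5*Y^10 - 6*V^5*Y^9 - 4*V^5*Y^8 - 10*V^5*Y^7 - 4*V^5*Y^6 - 9*V^5*Y^5 - 7*V^5*Y^4 - 4*V^5*Y^3 - V^5*Y^2 + 6*V^2*Y^9*d - V^2*Y^8*d - 3*V^2*Y^7*d - 2*V^2*Y^5*d + V^2*Y^4*d - Y^10 + Y^9 + 4*Y^8 + Y^7 - Y^6) * h0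

theorem y5_16 {A : Type*} [CommRing A] {v V y Y d : A} (h0 : (16 : A) = 0) (hr : V ^ 5 * (1 + 2 * Y) ^ 2 * (1 + Y) = Y)
    (hd : d ^ 2 = V * (1 + 3 * Y + Y ^ 2)) (hv : v = d - V ^ 3 * (1 + 2 * Y) * (1 + Y))
    (hy : (1 + 2 * Y) ^ 2 * y = Y + V ^ 2 * (1 + 2 * Y) * (1 + Y) * v) :
    y ^ 5 = 8*V^2*Y^7*d - 4*V^2*Y^6*d + 2*V^2*Y^4*d + 7*V^2*Y^3*d + V^2*Y^2*d - 4*Y^7 - 4*Y^6 - 4*Y^5 - 5*Y^4 := by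
  rw [show y ^ 5 = y ^ 4 * y by ring, y4_16 h0 hr hd hv hy, y1_16 h0 hr hd hv hy]
  linear_combination (64*V^4*Y^11 + 32*V^4*Y^10 + 48*V^4*Y^9 + 8*V^4*Y^8 - 32*V^4*Y^7 + 24*V^4*Y^6 - 4*V^4*Y^5 + 8*V^4*Y^4 - 4*V^4*Y^3) * hd + (8*Y^9 + 4*Y^6 - 4*Y^3) * hr + (4*V^5*Y^13 + 12*V^5*Y^12 + 9*V^5*Y^11 + 9*V^5*Y^10 + V^5*Y^9 - 6*V^5*Y^8 + V^5*Y^7 + 2*V^5*Y^6 + 3*V^5*Y^5 + V^5*Y^4 + 4*V^2*Y^12*d + 5*V^2*Y^10*d + 7*V^2*Y^9*d + 5*V^2*Y^8*d + 2*V^2*Y^7*d - 2*V^2*Y^6*d + V^2*Y^5*d + 2*Y^12 + 2*Y^11 + 2*Y^9 + 4*Y^8 + 4*Y^7 + 2*Y^6) * h0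

theorem y6_16 {A : Type*} [CommRing A] {v V y Y d : A} (h0 : (16 : A) = 0) (hr : V ^ 5 * (1 + 2 * Y) ^ 2 * (1 + Y) = Y)
    (hd : d ^ 2 = V * (1 + 3 * Y + Y ^ 2)) (hv : v = d - V ^ 3 * (1 + 2 * Y) * (1 + Y))
    (hy : (1 + 2 * Y) ^ 2 * y = Y + V ^ 2 * (1 + 2 * Y) * (1 + Y) * v) :
    y ^ 6 = 4*V^2*Y^6*d - 2*V^2*Y^5*d - 6*V^2*Y^4*d + 2*Y^6 + 4*Y^5 + 4*Y^4 + Y^3 := by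
  rw [show y ^ 6 = y ^ 5 * y by ring, y5_16 h0 hr hd hv hy, y1_16 h0 hr hd hv hy]
  linear_combination (64*V^4*Y^11 - 64*V^4*Y^10 + 32*V^4*Y^9 + 60*V^4*Y^7 - 20*V^4*Y^6 + 8*V^4*Y^5 - 3*V^4*Y^4 + 6*V^4*Y^3 + V^4*Y^2) * hd + (-4*Y^8 - 3*Y^5 + 4*Y^4 + 4*Y^3 + Y^2) * hr + (4*V^5*Y^13 + 8*V^5*Y^12 - 5*V^5*Y^11 + 4*V^5*Y^10 + 7*V^5*Y^9 + 11*V^5*Y^8 + V^5*Y^7 - 2*V^5*Y^6 - 3*V^5*Y^5 - V^5*Y^4 - 3*V^2*Y^9*d - V^2*Y^8*d + 3*V^2*Y^7*d + V^2*Y^6*d - Y^11 - 2*Y^10 - 2*Y^9 - 2*Y^8 - Y^7) * h0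

theorem y7_16 {A : Type*} [CommRing A] {v V y Y d : A} (h0 : (16 : A) = 0) (hr : V ^ 5 * (1 + 2 * Y) ^ 2 * (1 + Y) = Y)
    (hd : d ^ 2 = V * (1 + 3 * Y + Y ^ 2)) (hv : v = d - V ^ 3 * (1 + 2 * Y) * (1 + Y))
    (hy : (1 + 2 * Y) ^ 2 * y = Y + V ^ 2 * (1 + 2 * Y) * (1 + Y) * v) :
    y ^ 7 = 8*V^2*Y^7*d + 8*V^2*Y^6*d + 2*V^2*Y^5*d + 3*V^2*Y^4*d + V^2*Y^3*d + 8*Y^8 - 7*Y^5 := by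
  rw [show y ^ 7 = y ^ 6 * y by ring, y6_16 h0 hr hd hv hy, y1_16 h0 hr hd hv hy]
  linear_combination (32*V^4*Y^10 - 32*V^4*Y^9 - 32*V^4*Y^8 + 16*V^4*Y^7 - 6*V^4*Y^6 + 4*V^4*Y^5 - 6*V^4*Y^4) * hd + (8*Y^9 + 8*Y^8 - 6*Y^7 - 6*Y^4) * hr + (-2*V^5*Y^11 - 11*V^5*Y^10 - 7*V^5*Y^9 + 2*V^5*Y^8 + 2*V^5*Y^7 + 3*V^5*Y^6 + V^5*Y^5 + 2*V^2*Y^10*d + 2*V^2*Y^9*d - V^2*Y^8*d - 2*V^2*Y^7*d + Y^10 + 2*Y^9 + Y^8 + Y^7) * h0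

theorem y8_16 {A : Type*} [CommRing A] {v V y Y d : A} (h0 : (16 : A) = 0) (hr : V ^ 5 * (1 + 2 * Y) ^ 2 * (1 + Y) = Y)
    (hd : d ^ 2 = V * (1 + 3 * Y + Y ^ 2)) (hv : v = d - V ^ 3 * (1 + 2 * Y) * (1 + Y))
    (hy : (1 + 2 * Y) ^ 2 * y = Y + V ^ 2 * (1 + 2 * Y) * (1 + Y) * v) :
    y ^ 8 = 8*V^2*Y^6*d + 8*V^2*Y^5*d + Y^4 := by
  rw [show y ^ 8 = y ^ 7 * y by ring, y7_16 h0 hr hd hv hy, y1_16 h0 hr hd hv hy]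
  linear_combination (64*V^4*Y^11 + 32*V^4*Y^10 + 24*V^4*Y^8 + 8*V^4*Y^6 + V^4*Y^5 + 2*V^4*Y^4 + V^4*Y^3) * hd + (8*Y^9 - 4*Y^8 - 4*Y^7 - 7*Y^6 + Y^3) * hr + (4*V^5*Y^13 + 12*V^5*Y^12 + 7*V^5*Y^11 + 4*V^5*Y^10 + 9*V^5*Y^9 + 7*V^5*Y^8 + 4*V^5*Y^7 + V^5*Y^6 + 4*V^2*Y^12*d + 5*V^2*Y^10*d - 2*V^2*Y^9*d + 3*V^2*Y^8*d - V^2*Y^5*d + 2*Y^12 + 2*Y^11 - 2*Y^9 - 2*Y^8) * h0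

theorem v2_16 {A : Type*} [CommRing A] {v V y Y d : A} (h0 : (16 : A) = 0) (hr : V ^ 5 * (1 + 2 * Y) ^ 2 * (1 + Y) = Y)
    (hd : d ^ 2 = V * (1 + 3 * Y + Y ^ 2)) (hv : v = d - V ^ 3 * (1 + 2 * Y) * (1 + Y))
    (hy : (1 + 2 * Y) ^ 2 * y = Y + V ^ 2 * (1 + 2 * Y) * (1 + Y) * v) :
    v ^ 2 = -4*V^3*Y^2*d - 6*V^3*Y*d - 2*V^3*d + 2*V*Y^2 + 4*V*Y + V := by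
  rw [show v ^ 2 = v ^ 1 * v by ring, pow_one, v1_16 h0 hr hd hv hy]
  linear_combination (1) * hd + (V*Y + V) * hr

theorem v3_16 {A : Type*} [CommRing A] {v V y Y d : A} (h0 : (16 : A) = 0) (hr : V ^ 5 * (1 + 2 * Y) ^ 2 * (1 + Y) = Y)
    (hd : d ^ 2 = V * (1 + 3 * Y + Y ^ 2)) (hv : v = d - V ^ 3 * (1 + 2 * Y) * (1 + Y))
    (hy : (1 + 2 * Y) ^ 2 * y = Y + V ^ 2 * (1 + 2 * Y) * (1 + Y) * v) :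
    v ^ 3 = 8*V^4*Y^4 + 8*V^4*Y^2 - 3*V^4*Y - 3*V^4 + 4*V*Y^2*d + 6*V*Y*d + V*d := by
  rw [show v ^ 3 = v ^ 2 * v by ring, v2_16 h0 hr hd hv hy, v1_16 h0 hr hd hv hy]
  linear_combination (-4*V^3*Y^2 - 6*V^3*Y - 2*V^3) * hd + (2*V*Y*d + 2*V*d) * hr + (-V^4*Y^4 - 2*V^4*Y^3 - 3*V^4*Y^2 - V^4*Y) * h0

theorem v4_16 {A : Type*} [CommRing A] {v V y Y d : A} (h0 : (16 : A) = 0) (hr : V ^ 5 * (1 + 2 * Y) ^ 2 * (1 + Y) = Y)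
    (hd : d ^ 2 = V * (1 + 3 * Y + Y ^ 2)) (hv : v = d - V ^ 3 * (1 + 2 * Y) * (1 + Y))
    (hy : (1 + 2 * Y) ^ 2 * y = Y + V ^ 2 * (1 + 2 * Y) * (1 + Y) * v) :
    v ^ 4 = 8*V^4*Y^3*d + 4*V^4*Y*d - 4*V^4*d + 8*V^2*Y^4 + 4*V^2*Y^2 - 4*V^2*Y + V^2 := by
  rw [show v ^ 4 = v ^ 3 * v by ring, v3_16 h0 hr hd hv hy, v1_16 h0 hr hd hv hy]
  linear_combination (4*V*Y^2 + 6*V*Y + V) * hd + (4*V^2*Y^3 - 2*V^2*Y^2 - 3*V^2*Y + 3*V^2) * hr + (-2*V^7*Y^6 - 3*V^7*Y^5 - V^7*Y^4 - 2*V^4*Y^3*d - V^4*Y^2*d - V^4*Y*d + V^2*Y^3 + V^2*Y^2 + V^2*Y) * h0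

/-- first dissection -/
def X1C {A : Type*} [CommRing A] (v y : A) : A := (4*y^3 - 2*y^2 + 2*y + 1) + v * (4*y^3 + 3*y - 1) + v^2 * (4*y^3 - 2*y^2 + 2*y) + v^3 * (4*y^3 - 2*y^2 - y - 3) + v^4 * (4*y^2 + 2*y - 2)

theorem map_X1C {A B F : Type*} [CommRing A] [CommRing B] [FunLike F A B] [RingHomClass F A B]
    (f : F) (v y : A) : f (X1C v y) = X1C (f v) (f y) := by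
  simp only [X1C, map_add, map_sub, map_neg, map_mul, map_pow, map_one, map_ofNat, map_zero]

/-- second dissection -/
def X2C {A : Type*} [CommRing A] (v y : A) : A := (4*y^4 + 4*y^3 - 2*y^2 - 2*y + 1) + v * (4*y^4 - 2*y^2 + 2*y) + v^2 * (-2*y^2 + 4*y - 2) + v^3 * (4*y^3 - 3*y^2 - 3*y + 4) + v^4 * (4*y^3 - y^2 + 3*y)

theorem map_X2C {A B F : Type*} [CommRing A] [CommRing B] [FunLike F A B] [RingHomClass F A B]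
    (f : F) (v y : A) : f (X2C v y) = X2C (f v) (f y) := by
  simp only [X2C, map_add, map_sub, map_neg, map_mul, map_pow, map_one, map_ofNat, map_zero]

/-- odd part -/
def DeC {A : Type*} [CommRing A] (v y : A) : A := (4*y^3 + 4*y) + v * (4*y^4 - 2*y^3 + 4*y^2 - 2*y + 4) + v^2 * (4*y^3 + 4*y^2 - 2*y - 2) + v^3 * (4*y^3 + 4*y) + v^4 * (4*y^4 + 2*y^3 + 4*y^2 + y + 3)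

theorem map_DeC {A B F : Type*} [CommRing A] [CommRing B] [FunLike F A B] [RingHomClass F A B]
    (f : F) (v y : A) : f (DeC v y) = DeC (f v) (f y) := by
  simp only [DeC, map_add, map_sub, map_neg, map_mul, map_pow, map_one, map_ofNat, map_zero]

/-- the square of the odd part -/
def ZC {A : Type*} [CommRing A] (v y : A) : A := (8*y^6 + 8*y^5 + 4*y^4 + 8*y^3 + 8*y^2 + 4*y) + v * (8*y^8 + 8*y^7 + 4*y^6 + 4*y^5 + 4*y^3 - 4*y^2 + 8*y) + v^2 * (8*y^5 + 4*y^4 + 8*y^2 + 4*y) + v^3 * (4*y^8 - 4*y^7 + 4*y^6 - 4*y^4 + 4*y^3 - 4*y^2) + v^4 * (4*y^8 - 4*y^6 + 4*y^5 + y^4 + 4*y^2 + y)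

theorem map_ZC {A B F : Type*} [CommRing A] [CommRing B] [FunLike F A B] [RingHomClass F A B]
    (f : F) (v y : A) : f (ZC v y) = ZC (f v) (f y) := by
  simp only [ZC, map_add, map_sub, map_neg, map_mul, map_pow, map_one, map_ofNat, map_zero]

/-- even part of the square, divided by 8 -/
def zeC {A : Type*} [CommRing A] (v y : A) : A := (y^4 + y) + v^2 * (y^8 + y^5) + v^3 * (y^6 + y^5 + y^4 + y^2 + y + 1)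

theorem map_zeC {A B F : Type*} [CommRing A] [CommRing B] [FunLike F A B] [RingHomClass F A B]
    (f : F) (v y : A) : f (zeC v y) = zeC (f v) (f y) := by
  simp only [zeC, map_add, map_sub, map_neg, map_mul, map_pow, map_one, map_ofNat, map_zero]

/-- norm -/
def NmC {A : Type*} [CommRing A] (v y : A) : A := (4*y^2 + 2*y + 1) + v * (2*y - 1) + v^2 * (-2) + v^3 * (4*y^2 - 2*y - 2) + v^4 * (4*y - 3)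

theorem map_NmC {A B F : Type*} [CommRing A] [CommRing B] [FunLike F A B] [RingHomClass F A B]
    (f : F) (v y : A) : f (NmC v y) = NmC (f v) (f y) := by
  simp only [NmC, map_add, map_sub, map_neg, map_mul, map_pow, map_one, map_ofNat, map_zero]

theorem normC {A : Type*} [CommRing A] {v V y Y d : A} (h0 : (8 : A) = 0) (hr : V ^ 5 * (1 + 2 * Y) ^ 2 * (1 + Y) = Y)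
    (hd : d ^ 2 = V * (1 + 3 * Y + Y ^ 2)) (hv : v = d - V ^ 3 * (1 + 2 * Y) * (1 + Y))
    (hy : (1 + 2 * Y) ^ 2 * y = Y + V ^ 2 * (1 + 2 * Y) * (1 + Y) * v) :
    DD v * DD (-v - 2 * V ^ 3 * (1 + 2 * Y) * (1 + Y)) = NmC V Y := by
  rw [show -v - 2 * V ^ 3 * (1 + 2 * Y) * (1 + Y) = -d - V ^ 3 * (1 + 2 * Y) * (1 + Y) by rw [hv]; ring, hv]
  unfold DD NmC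
  linear_combination (-256*V^18*Y^12 - 2304*V^18*Y^11 - 9408*V^18*Y^10 - 23040*V^18*Y^9 - 37680*V^18*Y^8 - 43344*V^18*Y^7 - 35956*V^18*Y^6 - 21672*V^18*Y^5 - 9420*V^18*Y^4 - 2880*V^18*Y^3 - 588*V^18*Y^2 - 72*V^18*Y - 4*V^18 + 384*V^15*Y^10 + 2880*V^15*Y^9 + 9600*V^15*Y^8 + 18720*V^15*Y^7 + 23640*V^15*Y^6 + 20196*V^15*Y^5 + 11820*V^15*Y^4 + 4680*V^15*Y^3 + 1200*V^15*Y^2 + 180*V^15*Y + 12*V^15 + 96*V^13*Y^10 + 864*V^13*Y^9 + 3312*V^13*Y^8 + 7200*V^13*Y^7 + 9894*V^13*Y^6 + 9018*V^13*Y^5 + 5538*V^13*Y^4 + 2268*V^13*Y^3 + 594*V^13*Y^2 + 90*V^13*Y + 6*V^13 + 96*V^12*Y^8*d^2 - 320*V^12*Y^8 + 576*V^12*Y^7*d^2 - 1920*V^12*Y^7 + 1488*V^12*Y^6*d^2 - 4960*V^12*Y^6 + 2160*V^12*Y^5*d^2 - 7200*V^12*Y^5 + 1926*V^12*Y^4*d^2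 - 6420*V^12*Y^4 + 1080*V^12*Y^3*d^2 - 3600*V^12*Y^3 + 372*V^12*Y^2*d^2 - 1240*V^12*Y^2 + 72*V^12*Y*d^2 - 240*V^12*Y + 6*V^12*d^2 - 20*V^12 - 96*V^10*Y^8 - 720*V^10*Y^7 - 2184*V^10*Y^6 - 3564*V^10*Y^5 - 3456*V^10*Y^4 - 2052*V^10*Y^3 - 732*V^10*Y^2 - 144*V^10*Y - 12*V^10 - 96*V^9*Y^6*d^2 + 160*V^9*Y^6 - 432*V^9*Y^5*d^2 + 720*V^9*Y^5 - 792*V^9*Y^4*d^2 + 1320*V^9*Y^4 - 756*V^9*Y^3*d^2 + 1260*V^9*Y^3 - 396*V^9*Y^2*d^2 + 660*V^9*Y^2 - 108*V^9*Y*d^2 + 180*V^9*Y - 12*V^9*d^2 + 20*V^9 - 16*V^8*Y^8 - 144*V^8*Y^7 - 516*V^8*Y^6 - 960*V^8*Y^5 - 1024*V^8*Y^4 - 648*V^8*Y^3 - 240*V^8*Y^2 - 48*V^8*Y - 4*V^8 - 16*V^7*Y^6*d^2 + 16*V^7*Y^6 - 96*V^7*Y^5*d^2 + 96*V^7*Y^5 - 212*V^7*Y^4*d^2 + 212*V^7*Y^4 - 228*V^7*Y^3*d^2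 + 228*V^7*Y^3 - 128*V^7*Y^2*d^2 + 128*V^7*Y^2 - 36*V^7*Y*d^2 + 36*V^7*Y - 4*V^7*d^2 + 4*V^7 - 16*V^6*Y^4*d^4 + 16*V^6*Y^4*d^2 - 80*V^6*Y^4 - 48*V^6*Y^3*d^4 + 48*V^6*Y^3*d^2 - 240*V^6*Y^3 - 52*V^6*Y^2*d^4 + 52*V^6*Y^2*d^2 - 260*V^6*Y^2 - 24*V^6*Y*d^4 + 24*V^6*Y*d^2 - 120*V^6*Y - 4*V^6*d^4 + 4*V^6*d^2 - 20*V^6 + 8*V^5*Y^6 + 60*V^5*Y^5 + 164*V^5*Y^4 + 204*V^5*Y^3 + 124*V^5*Y^2 + 36*V^5*Y + 4*V^5 + 8*V^4*Y^4*d^2 + 4*V^4*Y^4 + 36*V^4*Y^3*d^2 + 18*V^4*Y^3 + 48*V^4*Y^2*d^2 + 24*V^4*Y^2 + 24*V^4*Y*d^2 + 12*V^4*Y + 4*V^4*d^2 + 2*V^4 + V^3*Y^6 + 9*V^3*Y^5 + 30*V^3*Y^4 + 45*V^3*Y^3 + 8*V^3*Y^2*d^4 + 4*V^3*Y^2*d^2 + 54*V^3*Y^2 + 12*V^3*Y*d^4 + 6*V^3*Y*d^2 + 45*V^3*Y + 4*V^3*d^4 + 2*V^3*d^2 + 13*V^3 + V^2*Y^4*d^2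 + 4*V^2*Y^4 + 6*V^2*Y^3*d^2 + 24*V^2*Y^3 + 11*V^2*Y^2*d^2 + 44*V^2*Y^2 + 6*V^2*Y*d^2 + 24*V^2*Y + V^2*d^2 + 4*V^2 + V*Y^2*d^4 + 4*V*Y^2*d^2 + 6*V*Y^2 + 3*V*Y*d^4 + 12*V*Y*d^2 + 18*V*Y + V*d^4 + 4*V*d^2 + 6*V + d^6 + 4*d^4 + 6*d^2 - 1) * hd + (4*V^19*Y^9 + V^19*Y^7 - V^19*Y^6 - 3*V^19*Y^5 + 3*V^19*Y^4 + 3*V^19*Y^3 - 3*V^19*Y^2 + 3*V^19*Y + V^19 + 4*V^16*Y^6 + 4*V^16*Y^4 + 4*V^16*Y^2 + 4*V^16 - 3*V^14*Y^7 - 2*V^14*Y^6 - V^14*Y^5 + 3*V^14*Y^3 - 2*V^14*Y^2 + V^14*Y + 4*V^14 + 4*V^13*Y^5 + 4*V^13*Y^4 + 4*V^13*Y + 4*V^13 + 4*V^11*Y^4 + 4*V^11 + 4*V^10*Y^5 + 2*V^10*Y^4 + 4*V^10*Y^2 + 4*V^10*Y + 2*V^10 + 4*V^9*Y^9 - V^9*Y^7 - V^9*Y^6 + 2*V^9*Y^5 - 2*V^9*Y^4 + V^9*Y^3 - 3*V^9*Y^2 + 2*V^9*Y - 2*V^9 + 4*V^8*Y^3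 + 4*V^8*Y^2 + 4*V^8*Y + 4*V^8 - 2*V^7*Y^3 + 2*V^7*Y^2 + 2*V^7*Y - 2*V^7 + 4*V^6*Y^6 + 4*V^6*Y^4 + 4*V^6*Y^3 + 4*V^6*Y^2 + 4*V^6*Y + 4*V^6 + 4*V^5*Y^5 + 2*V^5*Y^4 - 2*V^5*Y^3 + 2*V^5*Y^2 - 2*V^5*Y + 4*V^5 - V^4*Y^7 + 4*V^4*Y^6 - 2*V^4*Y^5 - 3*V^4*Y^3 + 4*V^4*Y^2 - 2*V^4*Y + 4*V^3*Y^5 + 4*V^3*Y^4 + 4*V^3*Y^2 + 4*V^3 + 2*V^2*Y^3 + 4*V^2*Y^2 - 2*V^2*Y + 4*V^2 + V*Y - 3*V + 4*Y + 2) * hr + (32*V^24*Y^16 + 384*V^24*Y^15 + 2144*V^24*Y^14 + 7392*V^24*Y^13 + 17610*V^24*Y^12 + 30740*V^24*Y^11 + 40667*V^24*Y^10 + 41585*V^24*Y^9 + 33218*V^24*Y^8 + 20795*V^24*Y^7 + 10165*V^24*Y^6 + 3840*V^24*Y^5 + 1100*V^24*Y^4 + 229*V^24*Y^3 + 31*V^24*Y^2 + 2*V^24*Y - 64*V^21*Y^14 - 672*V^21*Y^13 - 3248*V^21*Y^12 - 9576*V^21*Y^11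 - 19236*V^21*Y^10 - 27848*V^21*Y^9 - 29957*V^21*Y^8 - 24324*V^21*Y^7 - 14981*V^21*Y^6 - 6966*V^21*Y^5 - 2409*V^21*Y^4 - 603*V^21*Y^3 - 106*V^21*Y^2 - 13*V^21*Y - V^21 - 32*V^19*Y^14 - 384*V^19*Y^13 - 2072*V^19*Y^12 - 6696*V^19*Y^11 - 14524*V^19*Y^10 - 22424*V^19*Y^9 - 25454*V^19*Y^8 - 21608*V^19*Y^7 - 13800*V^19*Y^6 - 6603*V^19*Y^5 - 2331*V^19*Y^4 - 592*V^19*Y^3 - 105*V^19*Y^2 - 13*V^19*Y - V^19 + 96*V^18*Y^12 + 864*V^18*Y^11 + 3528*V^18*Y^10 + 8640*V^18*Y^9 + 14128*V^18*Y^8 + 16248*V^18*Y^7 + 13477*V^18*Y^6 + 8124*V^18*Y^5 + 3530*V^18*Y^4 + 1074*V^18*Y^3 + 214*V^18*Y^2 + 24*V^18*Y + V^18 + 48*V^16*Y^12 + 504*V^16*Y^11 + 2328*V^16*Y^10 + 6300*V^16*Y^9 + 11175*V^16*Y^8 + 13728*V^16*Y^7 + 12002*V^16*Y^6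 + 7540*V^16*Y^5 + 3382*V^16*Y^4 + 1056*V^16*Y^3 + 215*V^16*Y^2 + 25*V^16*Y + V^16 - 88*V^15*Y^10 - 660*V^15*Y^9 - 2202*V^15*Y^8 - 4295*V^15*Y^7 - 5422*V^15*Y^6 - 4632*V^15*Y^5 - 2715*V^15*Y^4 - 1080*V^15*Y^3 - 280*V^15*Y^2 - 43*V^15*Y - 3*V^15 + 10*V^14*Y^12 + 140*V^14*Y^11 + 748*V^14*Y^10 + 2251*V^14*Y^9 + 4351*V^14*Y^8 + 5737*V^14*Y^7 + 5311*V^14*Y^6 + 3489*V^14*Y^5 + 1619*V^14*Y^4 + 518*V^14*Y^3 + 110*V^14*Y^2 + 15*V^14*Y + V^14 - 40*V^13*Y^10 - 360*V^13*Y^9 - 1380*V^13*Y^8 - 3000*V^13*Y^7 - 4124*V^13*Y^6 - 3763*V^13*Y^5 - 2316*V^13*Y^4 - 954*V^13*Y^3 - 254*V^13*Y^2 - 40*V^13*Y - 3*V^13 + 60*V^12*Y^8 + 360*V^12*Y^7 + 931*V^12*Y^6 + 1351*V^12*Y^5 + 1202*V^12*Y^4 + 673*V^12*Y^3 + 233*V^12*Y^2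 + 46*V^12*Y + 4*V^12 - 12*V^11*Y^10 - 128*V^11*Y^9 - 559*V^11*Y^8 - 1359*V^11*Y^7 - 2048*V^11*Y^6 - 2006*V^11*Y^5 - 1302*V^11*Y^4 - 558*V^11*Y^3 - 154*V^11*Y^2 - 25*V^11*Y - 2*V^11 + 18*V^10*Y^8 + 145*V^10*Y^7 + 452*V^10*Y^6 + 742*V^10*Y^5 + 720*V^10*Y^4 + 427*V^10*Y^3 + 150*V^10*Y^2 + 28*V^10*Y + 2*V^10 - V^9*Y^10 - 25*V^9*Y^9 - 123*V^9*Y^8 - 332*V^9*Y^7 - 578*V^9*Y^6 - 710*V^9*Y^5 - 633*V^9*Y^4 - 398*V^9*Y^3 - 163*V^9*Y^2 - 39*V^9*Y - 4*V^9 + 12*V^8*Y^7 + 58*V^8*Y^6 + 115*V^8*Y^5 + 124*V^8*Y^4 + 77*V^8*Y^3 + 26*V^8*Y^2 + 4*V^8*Y - 11*V^7*Y^6 - 64*V^7*Y^5 - 137*V^7*Y^4 - 145*V^7*Y^3 - 83*V^7*Y^2 - 25*V^7*Y - 3*V^7 + V^6*Y^8 + 11*V^6*Y^7 + 44*V^6*Y^6 + 95*V^6*Y^5 + 121*V^6*Y^4 + 103*V^6*Y^3 + 60*V^6*Y^2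 + 21*V^6*Y + 3*V^6 + V^5*Y^6 + 4*V^5*Y^5 + 8*V^5*Y^4 + 8*V^5*Y^3 + 3*V^5*Y^2 + V^5*Y + 2*V^4*Y^7 + 7*V^4*Y^6 + 18*V^4*Y^5 + 27*V^4*Y^4 + 32*V^4*Y^3 + 25*V^4*Y^2 + 10*V^4*Y + 2*V^4 + V^3*Y^6 + 5*V^3*Y^5 + 15*V^3*Y^4 + 23*V^3*Y^3 + 13*V^3*Y^2 + 3*V^3*Y + V^2*Y^4 + 5*V^2*Y^3 + 8*V^2*Y^2 + 5*V^2*Y + V^2 - V*Y) * h0

/-- even part of the numerator -/
def nevC {A : Type*} [CommRing A] (v y : A) : A := (4*y^3 + 2*y^2 - y + 1) + v * (4*y^3 + 4*y^2 + 3*y - 2) + v^2 * (4*y^3 + 2*y^2 - 2*y - 1) + v^3 * (-2*y^2 + y - 3) + v^4 * (-y)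

theorem map_nevC {A B F : Type*} [CommRing A] [CommRing B] [FunLike F A B] [RingHomClass F A B]
    (f : F) (v y : A) : f (nevC v y) = nevC (f v) (f y) := by
  simp only [nevC, map_add, map_sub, map_neg, map_mul, map_pow, map_one, map_ofNat, map_zero]

/-- odd part of the numerator -/
def nodC {A : Type*} [CommRing A] (v y : A) : A := (3) + v * (4*y^2 + 2*y - 1) + v^2 * (-1) + v^3 * (4*y^2 + 2*y + 3) + v^4 * (-2*y - 2)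

theorem map_nodC {A B F : Type*} [CommRing A] [CommRing B] [FunLike F A B] [RingHomClass F A B]
    (f : F) (v y : A) : f (nodC v y) = nodC (f v) (f y) := by
  simp only [nodC, map_add, map_sub, map_neg, map_mul, map_pow, map_one, map_ofNat, map_zero]

theorem numC {A : Type*} [CommRing A] {v V y Y d : A} (h0 : (8 : A) = 0) (hr : V ^ 5 * (1 + 2 * Y) ^ 2 * (1 + Y) = Y)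
    (hd : d ^ 2 = V * (1 + 3 * Y + Y ^ 2)) (hv : v = d - V ^ 3 * (1 + 2 * Y) * (1 + Y))
    (hy : (1 + 2 * Y) ^ 2 * y = Y + V ^ 2 * (1 + 2 * Y) * (1 + Y) * v) :
    NN v * DD (-v - 2 * V ^ 3 * (1 + 2 * Y) * (1 + Y)) = nevC V Y + d * nodC V Y := by
  rw [show -v - 2 * V ^ 3 * (1 + 2 * Y) * (1 + Y) = -d - V ^ 3 * (1 + 2 * Y) * (1 + Y) by rw [hv]; ring, hv]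
  unfold NN DD nevC nodC
  linear_combination (-256*V^18*Y^12 - 2304*V^18*Y^11 - 9408*V^18*Y^10 - 23040*V^18*Y^9 - 37680*V^18*Y^8 - 43344*V^18*Y^7 - 35956*V^18*Y^6 - 21672*V^18*Y^5 - 9420*V^18*Y^4 - 2880*V^18*Y^3 - 588*V^18*Y^2 - 72*V^18*Y - 4*V^18 - 96*V^15*Y^10 - 720*V^15*Y^9 - 2400*V^15*Y^8 - 4680*V^15*Y^7 - 5910*V^15*Y^6 - 5049*V^15*Y^5 - 2955*V^15*Y^4 - 1170*V^15*Y^3 - 300*V^15*Y^2 - 45*V^15*Y - 3*V^15 + 96*V^13*Y^10 + 864*V^13*Y^9 + 3312*V^13*Y^8 + 7200*V^13*Y^7 + 9894*V^13*Y^6 + 9018*V^13*Y^5 + 5538*V^13*Y^4 + 2268*V^13*Y^3 + 594*V^13*Y^2 + 90*V^13*Y + 6*V^13 + 96*V^12*Y^8*d^2 - 240*V^12*Y^8*d + 160*V^12*Y^8 + 576*V^12*Y^7*d^2 - 1440*V^12*Y^7*d + 960*V^12*Y^7 + 1488*V^12*Y^6*d^2 - 3720*V^12*Y^6*d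 + 2480*V^12*Y^6 + 2160*V^12*Y^5*d^2 - 5400*V^12*Y^5*d + 3600*V^12*Y^5 + 1926*V^12*Y^4*d^2 - 4815*V^12*Y^4*d + 3210*V^12*Y^4 + 1080*V^12*Y^3*d^2 - 2700*V^12*Y^3*d + 1800*V^12*Y^3 + 372*V^12*Y^2*d^2 - 930*V^12*Y^2*d + 620*V^12*Y^2 + 72*V^12*Y*d^2 - 180*V^12*Y*d + 120*V^12*Y + 6*V^12*d^2 - 15*V^12*d + 10*V^12 + 24*V^10*Y^8 + 180*V^10*Y^7 + 546*V^10*Y^6 + 891*V^10*Y^5 + 864*V^10*Y^4 + 513*V^10*Y^3 + 183*V^10*Y^2 + 36*V^10*Y + 3*V^10 + 24*V^9*Y^6*d^2 - 80*V^9*Y^6 + 108*V^9*Y^5*d^2 - 360*V^9*Y^5 + 198*V^9*Y^4*d^2 - 660*V^9*Y^4 + 189*V^9*Y^3*d^2 - 630*V^9*Y^3 + 99*V^9*Y^2*d^2 - 330*V^9*Y^2 + 27*V^9*Y*d^2 - 90*V^9*Y + 3*V^9*d^2 - 10*V^9 - 16*V^8*Y^8 - 144*V^8*Y^7 - 516*V^8*Y^6 - 960*V^8*Y^5 - 1024*V^8*Y^4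 - 648*V^8*Y^3 - 240*V^8*Y^2 - 48*V^8*Y - 4*V^8 - 16*V^7*Y^6*d^2 + 60*V^7*Y^6*d - 104*V^7*Y^6 - 96*V^7*Y^5*d^2 + 360*V^7*Y^5*d - 624*V^7*Y^5 - 212*V^7*Y^4*d^2 + 795*V^7*Y^4*d - 1378*V^7*Y^4 - 228*V^7*Y^3*d^2 + 855*V^7*Y^3*d - 1482*V^7*Y^3 - 128*V^7*Y^2*d^2 + 480*V^7*Y^2*d - 832*V^7*Y^2 - 36*V^7*Y*d^2 + 135*V^7*Y*d - 234*V^7*Y - 4*V^7*d^2 + 15*V^7*d - 26*V^7 - 16*V^6*Y^4*d^4 + 60*V^6*Y^4*d^3 - 104*V^6*Y^4*d^2 + 120*V^6*Y^4*d - 80*V^6*Y^4 - 48*V^6*Y^3*d^4 + 180*V^6*Y^3*d^3 - 312*V^6*Y^3*d^2 + 360*V^6*Y^3*d - 240*V^6*Y^3 - 52*V^6*Y^2*d^4 + 195*V^6*Y^2*d^3 - 338*V^6*Y^2*d^2 + 390*V^6*Y^2*d - 260*V^6*Y^2 - 24*V^6*Y*d^4 + 90*V^6*Y*d^3 - 156*V^6*Y*d^2 + 180*V^6*Y*d - 120*V^6*Y - 4*V^6*d^4 + 15*V^6*d^3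 - 26*V^6*d^2 + 30*V^6*d - 20*V^6 - 2*V^5*Y^6 - 15*V^5*Y^5 - 41*V^5*Y^4 - 51*V^5*Y^3 - 31*V^5*Y^2 - 9*V^5*Y - V^5 - 2*V^4*Y^4*d^2 + 14*V^4*Y^4 - 9*V^4*Y^3*d^2 + 63*V^4*Y^3 - 12*V^4*Y^2*d^2 + 84*V^4*Y^2 - 6*V^4*Y*d^2 + 42*V^4*Y - V^4*d^2 + 7*V^4 + V^3*Y^6 + 9*V^3*Y^5 + 30*V^3*Y^4 + 45*V^3*Y^3 - 2*V^3*Y^2*d^4 + 14*V^3*Y^2*d^2 - 20*V^3*Y^2*d + 44*V^3*Y^2 - 3*V^3*Y*d^4 + 21*V^3*Y*d^2 - 30*V^3*Y*d + 30*V^3*Y - V^3*d^4 + 7*V^3*d^2 - 10*V^3*d + 8*V^3 + V^2*Y^4*d^2 - 5*V^2*Y^4*d + 14*V^2*Y^4 + 6*V^2*Y^3*d^2 - 30*V^2*Y^3*d + 84*V^2*Y^3 + 11*V^2*Y^2*d^2 - 55*V^2*Y^2*d + 154*V^2*Y^2 + 6*V^2*Y*d^2 - 30*V^2*Y*d + 84*V^2*Y + V^2*d^2 - 5*V^2*d + 14*V^2 + V*Y^2*d^4 - 5*V*Y^2*d^3 + 14*V*Y^2*d^2 - 25*V*Y^2*d + 31*V*Y^2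 + 3*V*Y*d^4 - 15*V*Y*d^3 + 42*V*Y*d^2 - 75*V*Y*d + 93*V*Y + V*d^4 - 5*V*d^3 + 14*V*d^2 - 25*V*d + 31*V + d^6 - 5*d^5 + 14*d^4 - 25*d^3 + 31*d^2 - 25*d + 14) * hd + (4*V^19*Y^9 + V^19*Y^7 - V^19*Y^6 - 3*V^19*Y^5 + 3*V^19*Y^4 + 3*V^19*Y^3 - 3*V^19*Y^2 + 3*V^19*Y + V^19 + 2*V^16*Y^7 - 3*V^16*Y^6 + 4*V^16*Y^5 - V^16*Y^4 + 2*V^16*Y^3 + 3*V^16*Y^2 + V^16 - 3*V^14*Y^7 - 2*V^14*Y^6 - V^14*Y^5 + 3*V^14*Y^3 - 2*V^14*Y^2 + V^14*Y + 4*V^14 - 3*V^13*Y^5*d + 2*V^13*Y^5 + V^13*Y^4*d + 2*V^13*Y^4 + 2*V^13*Y^3*d + 4*V^13*Y^3 + 2*V^13*Y^2*d + 4*V^13*Y^2 + V^13*Y*d + 2*V^13*Y - 3*V^13*d + 2*V^13 + 4*V^11*Y^7 + 2*V^11*Y^6 - 2*V^11*Y^5 + V^11*Y^4 + 4*V^11*Y^3 + 2*V^11*Y - 3*V^11 + 4*V^10*Y^6 + 2*V^10*Y^5 + 3*V^10*Y^4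 - 2*V^10*Y^2 - 2*V^10*Y + 3*V^10 + 4*V^9*Y^9 - V^9*Y^7 - V^9*Y^6 + 2*V^9*Y^5 - 2*V^9*Y^4 + V^9*Y^3 - 3*V^9*Y^2 + 2*V^9*Y - 2*V^9 + 2*V^8*Y^5*d + 4*V^8*Y^5 + 2*V^8*Y^4*d + 4*V^8*Y^4 + 3*V^8*Y^3*d - 2*V^8*Y^3 + V^8*Y^2*d + 2*V^8*Y^2 - V^8*Y*d - 2*V^8*Y + V^8*d + 2*V^8 + 4*V^7*Y^5*d + 4*V^7*Y^5 + 3*V^7*Y^3*d - 3*V^7*Y^3 + V^7*Y^2*d - V^7*Y^2 - 3*V^7*Y*d + 3*V^7*Y + 3*V^7*d - 3*V^7 + 2*V^6*Y^7 - 3*V^6*Y^6 - 3*V^6*Y^4 + V^6*Y^3 + V^6*Y^2 + 3*V^6*Y + 3*V^6 + 2*V^5*Y^5 - V^5*Y^4 + V^5*Y^3 + 3*V^5*Y^2 - 3*V^5*Y - 2*V^5 - V^4*Y^7 + 4*V^4*Y^6 - 2*V^4*Y^5 + 4*V^4*Y^3*d - V^4*Y^3 + 2*V^4*Y^2*d + V^4*Y^2 + 2*V^4*Y + 2*V^4*d + V^4 - 3*V^3*Y^5*d + 2*V^3*Y^5 - 3*V^3*Y^4*d + 2*V^3*Y^4 - 2*V^3*Y^3*d + 4*V^3*Y^3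 + V^3*Y^2*d + 2*V^3*Y^2 + 2*V^3*Y*d + 4*V^3*Y - V^3*d - 2*V^3 + V^2*Y^3*d + V^2*Y^3 - 2*V^2*Y^2*d + 2*V^2*Y^2 + 3*V^2*Y*d - 3*V^2*Y - 2*V^2*d + 4*V^2 + 4*V*Y^2 - 3*V*Y*d - 2*V*Y - 3*V*d + V + 4*Y^2 + 2*Y - 1) * hr + (32*V^24*Y^16 + 384*V^24*Y^15 + 2144*V^24*Y^14 + 7392*V^24*Y^13 + 17610*V^24*Y^12 + 30740*V^24*Y^11 + 40667*V^24*Y^10 + 41585*V^24*Y^9 + 33218*V^24*Y^8 + 20795*V^24*Y^7 + 10165*V^24*Y^6 + 3840*V^24*Y^5 + 1100*V^24*Y^4 + 229*V^24*Y^3 + 31*V^24*Y^2 + 2*V^24*Y + 16*V^21*Y^14 + 168*V^21*Y^13 + 812*V^21*Y^12 + 2394*V^21*Y^11 + 4808*V^21*Y^10 + 6961*V^21*Y^9 + 7488*V^21*Y^8 + 6078*V^21*Y^7 + 3742*V^21*Y^6 + 1737*V^21*Y^5 + 597*V^21*Y^4 + 147*V^21*Y^3 + 24*V^21*Y^2 + 2*V^21*Y - 32*V^19*Y^14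 - 384*V^19*Y^13 - 2072*V^19*Y^12 - 6696*V^19*Y^11 - 14524*V^19*Y^10 - 22424*V^19*Y^9 - 25454*V^19*Y^8 - 21608*V^19*Y^7 - 13800*V^19*Y^6 - 6603*V^19*Y^5 - 2331*V^19*Y^4 - 592*V^19*Y^3 - 105*V^19*Y^2 - 13*V^19*Y - V^19 + 40*V^18*Y^12*d + 16*V^18*Y^12 + 360*V^18*Y^11*d + 144*V^18*Y^11 + 1470*V^18*Y^10*d + 588*V^18*Y^10 + 3600*V^18*Y^9*d + 1440*V^18*Y^9 + 5889*V^18*Y^8*d + 2354*V^18*Y^8 + 6775*V^18*Y^7*d + 2706*V^18*Y^7 + 5618*V^18*Y^6*d + 2242*V^18*Y^6 + 3383*V^18*Y^5*d + 1347*V^18*Y^5 + 1468*V^18*Y^4*d + 581*V^18*Y^4 + 449*V^18*Y^3*d + 174*V^18*Y^3 + 94*V^18*Y^2*d + 33*V^18*Y^2 + 13*V^18*Y*d + 3*V^18*Y + V^18*d - 12*V^16*Y^12 - 126*V^16*Y^11 - 584*V^16*Y^10 - 1580*V^16*Y^9 - 2797*V^16*Y^8 - 3433*V^16*Y^7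 - 3003*V^16*Y^6 - 1890*V^16*Y^5 - 849*V^16*Y^4 - 265*V^16*Y^3 - 53*V^16*Y^2 - 5*V^16*Y + 12*V^15*Y^10 + 88*V^15*Y^9 + 295*V^15*Y^8 + 579*V^15*Y^7 + 734*V^15*Y^6 + 630*V^15*Y^5 + 372*V^15*Y^4 + 148*V^15*Y^3 + 36*V^15*Y^2 + 4*V^15*Y + 10*V^14*Y^12 + 140*V^14*Y^11 + 748*V^14*Y^10 + 2251*V^14*Y^9 + 4351*V^14*Y^8 + 5737*V^14*Y^7 + 5311*V^14*Y^6 + 3489*V^14*Y^5 + 1619*V^14*Y^4 + 518*V^14*Y^3 + 110*V^14*Y^2 + 15*V^14*Y + V^14 - 30*V^13*Y^10*d + 20*V^13*Y^10 - 270*V^13*Y^9*d + 180*V^13*Y^9 - 1036*V^13*Y^8*d + 688*V^13*Y^8 - 2253*V^13*Y^7*d + 1494*V^13*Y^7 - 3097*V^13*Y^6*d + 2056*V^13*Y^6 - 2823*V^13*Y^5*d + 1877*V^13*Y^5 - 1733*V^13*Y^4*d + 1154*V^13*Y^4 - 709*V^13*Y^3*d + 473*V^13*Y^3 - 186*V^13*Y^2*d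 + 123*V^13*Y^2 - 29*V^13*Y*d + 18*V^13*Y - 2*V^13*d + V^13 - 12*V^12*Y^8*d + 8*V^12*Y^8 - 64*V^12*Y^7*d + 56*V^12*Y^7 - 159*V^12*Y^6*d + 154*V^12*Y^6 - 229*V^12*Y^5*d + 228*V^12*Y^5 - 202*V^12*Y^4*d + 202*V^12*Y^4 - 112*V^12*Y^3*d + 112*V^12*Y^3 - 40*V^12*Y^2*d + 40*V^12*Y^2 - 9*V^12*Y*d + 9*V^12*Y - V^12*d + V^12 + 2*V^11*Y^10 + 31*V^11*Y^9 + 141*V^11*Y^8 + 342*V^11*Y^7 + 513*V^11*Y^6 + 500*V^11*Y^5 + 321*V^11*Y^4 + 132*V^11*Y^3 + 32*V^11*Y^2 + 3*V^11*Y - 11*V^10*Y^8 - 76*V^10*Y^7 - 228*V^10*Y^6 - 373*V^10*Y^5 - 362*V^10*Y^4 - 212*V^10*Y^3 - 73*V^10*Y^2 - 13*V^10*Y - V^10 - V^9*Y^10 - 25*V^9*Y^9 - 123*V^9*Y^8 - 332*V^9*Y^7 + 8*V^9*Y^6*d - 554*V^9*Y^6 + 40*V^9*Y^5*d - 598*V^9*Y^5 + 78*V^9*Y^4*d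 - 427*V^9*Y^4 + 76*V^9*Y^3*d - 204*V^9*Y^3 + 39*V^9*Y^2*d - 63*V^9*Y^2 + 10*V^9*Y*d - 12*V^9*Y + V^9*d - V^9 + 9*V^8*Y^8*d - 14*V^8*Y^8 + 72*V^8*Y^7*d - 120*V^8*Y^7 + 248*V^8*Y^6*d - 424*V^8*Y^6 + 454*V^8*Y^5*d - 786*V^8*Y^5 + 480*V^8*Y^4*d - 839*V^8*Y^4 + 302*V^8*Y^3*d - 531*V^8*Y^3 + 112*V^8*Y^2*d - 196*V^8*Y^2 + 23*V^8*Y*d - 38*V^8*Y + 2*V^8*d - 3*V^8 + 15*V^7*Y^6*d - 10*V^7*Y^6 + 90*V^7*Y^5*d - 62*V^7*Y^5 + 199*V^7*Y^4*d - 134*V^7*Y^4 + 213*V^7*Y^3*d - 143*V^7*Y^3 + 120*V^7*Y^2*d - 82*V^7*Y^2 + 35*V^7*Y*d - 25*V^7*Y + 4*V^7*d - 3*V^7 - 3*V^6*Y^7 - 11*V^6*Y^6 - 26*V^6*Y^5 + 4*V^6*Y^4*d - 30*V^6*Y^4 + 12*V^6*Y^3*d - 17*V^6*Y^3 + 13*V^6*Y^2*d - 4*V^6*Y^2 + 6*V^6*Y*d + V^6*d + 2*V^5*Y^6 + 11*V^5*Y^5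 + 31*V^5*Y^4 + 41*V^5*Y^3 + 26*V^5*Y^2 + 8*V^5*Y + V^5 + 2*V^4*Y^7 + 7*V^4*Y^6 + 18*V^4*Y^5 - 2*V^4*Y^4*d + 26*V^4*Y^4 - 11*V^4*Y^3*d + 26*V^4*Y^3 - 15*V^4*Y^2*d + 18*V^4*Y^2 - 7*V^4*Y*d + 7*V^4*Y - V^4*d + V^4 - V^3*Y^6*d + 2*V^3*Y^6 - 6*V^3*Y^5*d + 16*V^3*Y^5 - 19*V^3*Y^4*d + 53*V^3*Y^4 - 28*V^3*Y^3*d + 79*V^3*Y^3 - 19*V^3*Y^2*d + 53*V^3*Y^2 - 6*V^3*Y*d + 15*V^3*Y - V^3*d + 2*V^3 - 3*V^2*Y^4*d + 4*V^2*Y^4 - 19*V^2*Y^3*d + 23*V^2*Y^3 - 34*V^2*Y^2*d + 42*V^2*Y^2 - 19*V^2*Y*d + 24*V^2*Y - 3*V^2*d + 4*V^2 - 4*V*Y^2*d + V*Y^2 - 10*V*Y*d + 5*V*Y - 3*V*d + 2*V - d) * h0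

theorem quoC {A : Type*} [CommRing A] {V Y : A} (h0 : (8 : A) = 0)
    (hr : V ^ 5 * (1 + 2 * Y) ^ 2 * (1 + Y) = Y) : nevC V Y = NmC V Y * X1C V Y := by
  unfold nevC NmC X1C
  linear_combination (4*V^3*Y + 2*V^3 + 2*V^2*Y + 3*V^2 + 4*V*Y^2 + 4*V*Y - 2*V + 4*Y^2 + 4*Y - 3) * hr + (-2*V^8*Y^4 - 7*V^8*Y^3 - 4*V^8*Y^2 - V^8 - 5*V^7*Y^4 - V^7*Y^3 - 2*V^7*Y^2 - V^7*Y - 2*V^7 - 4*V^6*Y^5 - 6*V^6*Y^4 - 2*V^6*Y^3 - V^6*Y^2 + V^6*Y - V^6 - 4*V^5*Y^5 - 6*V^5*Y^4 - 4*V^5*Y^3 - 2*V^5*Y^2 + 4*V^5*Y - V^5 - 2*V^4*Y^5 - 4*V^4*Y^4 + 2*V^4*Y^3 - V^4*Y^2 + 2*V^4*Y - 4*V^3*Y^5 + V^3*Y^4 + 2*V^3*Y^3 + V^3*Y^2 + 3*V^3*Y - 2*V^2*Y^5 - V^2*Y^4 + V^2*Y^3 - V^2*Y^2 + V^2*Y - 2*V*Y^5 - 2*V*Y^4 - 2*Y^5 - Y) * h0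

/-- odd part -/
def oaC {A : Type*} [CommRing A] (v y : A) : A := (4*y^3 + 2*y^2 - 3*y - 1) + v * (4*y^3 - 2*y^2 - y - 3) + v^2 * (4*y^3 + 4*y^2 + 2*y + 2) + v^3 * (4*y^3 - 2*y + 2) + v^4 * (4*y^2 - 2*y + 2)

theorem map_oaC {A B F : Type*} [CommRing A] [CommRing B] [FunLike F A B] [RingHomClass F A B]
    (f : F) (v y : A) : f (oaC v y) = oaC (f v) (f y) := by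
  simp only [oaC, map_add, map_sub, map_neg, map_mul, map_pow, map_one, map_ofNat, map_zero]

theorem s2C {A : Type*} [CommRing A] {v V y Y d : A} (h0 : (8 : A) = 0) (hr : V ^ 5 * (1 + 2 * Y) ^ 2 * (1 + Y) = Y)
    (hd : d ^ 2 = V * (1 + 3 * Y + Y ^ 2)) (hv : v = d - V ^ 3 * (1 + 2 * Y) * (1 + Y))
    (hy : (1 + 2 * Y) ^ 2 * y = Y + V ^ 2 * (1 + 2 * Y) * (1 + Y) * v) :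
    X1C v y = X2C V Y + d * oaC V Y := by
  unfold X1C
  rw [y3_8 h0 hr hd hv hy, y2_8 h0 hr hd hv hy, y1_8 h0 hr hd hv hy, v4_8 h0 hr hd hv hy, v3_8 h0 hr hd hv hy, v2_8 h0 hr hd hv hy, v1_8 h0 hr hd hv hy]
  unfold X2C oaC
  linear_combination (64*V^6*Y^5 + 128*V^6*Y^4 + 48*V^6*Y^3 - 24*V^6*Y^2 + 8*V^6 + 64*V^5*Y^7 + 64*V^5*Y^6 + 32*V^5*Y^5 + 88*V^5*Y^4 + 24*V^5*Y^3 - 28*V^5*Y^2 - 4*V^5 + 64*V^3*Y^7 + 64*V^3*Y^4 - 8*V^3*Y^3 + 7*V^3*Y - V^3 + 16*V^2*Y^5 + 16*V^2*Y^4 + 20*V^2*Y^3 + 18*V^2*Y^2 + V^2*Y + 3*V^2) * hd + (4*V*Y^3*d + 4*V*Y^3 - 2*V*Y^2*d - 3*V*Y*d + 3*V*d + 4*V + 4*Y^3*d + 4*Y^2*d - 3*Y*d - 3*d) * hr + (8*V^7*Y^7 + 40*V^7*Y^6 + 62*V^7*Y^5 + 31*V^7*Y^4 - 3*V^7*Y^3 - 2*V^7*Y^2 + 3*V^7*Y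 + V^7 + 8*V^6*Y^9 + 32*V^6*Y^8 + 36*V^6*Y^7 - 8*V^6*Y^6*d + 29*V^6*Y^6 - 12*V^6*Y^5*d + 36*V^6*Y^5 - 2*V^6*Y^4*d + 14*V^6*Y^4 - 3*V^6*Y^3*d - 10*V^6*Y^3 - 8*V^6*Y^2*d - 8*V^6*Y^2 - 3*V^6*Y*d - 4*V^6*Y - V^6 - 4*V^5*Y^7*d - 12*V^5*Y^6*d - 19*V^5*Y^5*d - 19*V^5*Y^4*d - 8*V^5*Y^3*d + V^5*Y^2*d + V^5*Y*d + 8*V^4*Y^9 + 24*V^4*Y^8 + 2*V^4*Y^7 + 8*V^4*Y^6*d + 2*V^4*Y^6 + 24*V^4*Y^5*d + 26*V^4*Y^5 + 28*V^4*Y^4*d + 17*V^4*Y^4 + 18*V^4*Y^3*d + 11*V^4*Y^3 + 8*V^4*Y^2*d + 6*V^4*Y^2 + 2*V^4*Y*d + 2*V^4*Y - V^4*d + V^4 + 8*V^3*Y^8*d - 4*V^3*Y^8 + 8*V^3*Y^7*d - 4*V^3*Y^7 + 8*V^3*Y^6*d + 3*V^3*Y^6 + 4*V^3*Y^5*d + 6*V^3*Y^5 + 3*V^3*Y^4*d + 11*V^3*Y^4 + 11*V^3*Y^3*d + 10*V^3*Y^3 + 6*V^3*Y^2*d + 4*V^3*Y^2 + 2*V^3*Y*d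 + 2*V^3*Y + 8*V^2*Y^6 + 2*V^2*Y^5*d + 20*V^2*Y^5 + V^2*Y^4*d + 21*V^2*Y^4 + V^2*Y^3*d + 12*V^2*Y^3 + 2*V^2*Y^2*d + 3*V^2*Y^2 - V^2*Y + 8*V*Y^8*d + 4*V*Y^8 - 4*V*Y^7*d + 8*V*Y^7 - 2*V*Y^6*d + 3*V*Y^6 - 10*V*Y^5*d - V*Y^5 + 2*V*Y^4*d - 8*V*Y^4 - 3*V*Y^3*d - 7*V*Y^3 - 2*V*Y^2*d - 2*V*Y^2 + V*Y*d + 2*Y^6*d + 2*Y^6 + 2*Y^4*d - 2*Y^3 - Y^2*d - Y^2) * h0

/-- even part -/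
def ecC {A : Type*} [CommRing A] (v y : A) : A := (4*y^4 + 4*y^3 - 2*y^2 - 2*y + 1) + v * (4*y^4 + 4*y^3 - 2*y - 2) + v^2 * (2*y^4 + 4*y^3 - 3*y^2 + 3*y) + v^3 * (4*y^4 - 2*y + 2) + v^4 * (2*y^4 + 4*y^3 + 2*y^2 + y + 1)

theorem map_ecC {A B F : Type*} [CommRing A] [CommRing B] [FunLike F A B] [RingHomClass F A B]
    (f : F) (v y : A) : f (ecC v y) = ecC (f v) (f y) := by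
  simp only [ecC, map_add, map_sub, map_neg, map_mul, map_pow, map_one, map_ofNat, map_zero]

theorem s3C {A : Type*} [CommRing A] {v V y Y d : A} (h0 : (8 : A) = 0) (hr : V ^ 5 * (1 + 2 * Y) ^ 2 * (1 + Y) = Y)
    (hd : d ^ 2 = V * (1 + 3 * Y + Y ^ 2)) (hv : v = d - V ^ 3 * (1 + 2 * Y) * (1 + Y))
    (hy : (1 + 2 * Y) ^ 2 * y = Y + V ^ 2 * (1 + 2 * Y) * (1 + Y) * v) :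
    X2C v y = ecC V Y + d * DeC V Y := by
  unfold X2C
  rw [y4_8 h0 hr hd hv hy, y3_8 h0 hr hd hv hy, y2_8 h0 hr hd hv hy, y1_8 h0 hr hd hv hy, v4_8 h0 hr hd hv hy, v3_8 h0 hr hd hv hy, v2_8 h0 hr hd hv hy, v1_8 h0 hr hd hv hy]
  unfold ecC DeC
  linear_combination (64*V^6*Y^6 + 112*V^6*Y^5 + 120*V^6*Y^4 + 152*V^6*Y^3 + 84*V^6*Y^2 + 16*V^6*Y + 12*V^6 - 32*V^5*Y^6 + 32*V^5*Y^5 + 88*V^5*Y^4 - 16*V^5*Y^3 - 16*V^5*Y^2 + 16*V^5*Y - 8*V^5 + 64*V^3*Y^7 - 16*V^3*Y^6 - 32*V^3*Y^5 + 72*V^3*Y^4 - 6*V^3*Y^3 - 14*V^3*Y^2 + 13*V^3*Y - 3*V^3 + 8*V^2*Y^4 + 20*V^2*Y^3 + 8*V^2*Y^2 - 2*V^2*Y + 2*V^2) * hd + (4*V^2*Y^3 + 4*V^2 + 4*V*Y^4*d + 2*V*Y^3*d + 4*V*Y^2*d - V*Y*d + V*d + 4*Y^3*d + 4*Y^2*d - 2*Y*d - 2*d) *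 hr + (8*V^7*Y^8 + 38*V^7*Y^7 + 63*V^7*Y^6 + 74*V^7*Y^5 + 80*V^7*Y^4 + 50*V^7*Y^3 + 14*V^7*Y^2 + 4*V^7*Y + V^7 - 4*V^6*Y^8 - 2*V^6*Y^7*d - 8*V^6*Y^7 - 11*V^6*Y^6*d + 19*V^6*Y^6 - 14*V^6*Y^5*d + 35*V^6*Y^5 - 3*V^6*Y^4*d + 3*V^6*Y^4 - 3*V^6*Y^3*d - 6*V^6*Y^3 - 8*V^6*Y^2*d + 3*V^6*Y^2 - 2*V^6*Y*d - V^6*Y + V^6*d - V^6 - 4*V^5*Y^6*d - 14*V^5*Y^5*d - 16*V^5*Y^4*d - 5*V^5*Y^3*d + 2*V^5*Y^2*d + V^5*Y*d + 8*V^4*Y^9 + 22*V^4*Y^8 + 16*V^4*Y^7*d - 8*V^4*Y^7 + 22*V^4*Y^6*d - 11*V^4*Y^6 + 22*V^4*Y^5*d + 29*V^4*Y^5 + 23*V^4*Y^4*d + 25*V^4*Y^4 + 7*V^4*Y^3*d + 12*V^4*Y^3 + 7*V^4*Y^2 + V^4*Y*d - 2*V^4 + 4*V^3*Y^6*d + 6*V^3*Y^5*d + 4*V^3*Y^5 + V^3*Y^4*d + 10*V^3*Y^4 + 8*V^3*Y^3 + 2*V^3*Y^2*d + 2*V^3*Y^2 + V^3*Y*d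 + V^3*Y + V^3*d + 8*V^2*Y^8 + 8*V^2*Y^7 + 7*V^2*Y^6 + 2*V^2*Y^5*d + 3*V^2*Y^5 + 3*V^2*Y^4*d - 4*V^2*Y^4 + V^2*Y^3*d - 5*V^2*Y^3 + V^2*Y^2*d - V^2*Y^2 + V^2*Y*d + 8*V*Y^8*d - 4*V*Y^7*d - 7*V*Y^6*d + 3*V*Y^6 - 13*V*Y^5*d + 8*V*Y^5 + 2*V*Y^4*d + 2*V*Y^4 - 3*V*Y^3*d - 6*V*Y^3 + V*Y^2*d - 3*V*Y^2 - V*Y*d - V*Y + 2*Y^6 + Y^4*d - 2*Y^4 - 4*Y^3 - Y^2*d - Y*d) * h0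

theorem sqC {A : Type*} [CommRing A] {V Y : A} (h0 : (16 : A) = 0)
    (hr : V ^ 5 * (1 + 2 * Y) ^ 2 * (1 + Y) = Y) :
    V * (1 + 3 * Y + Y ^ 2) * DeC V Y ^ 2 = ZC V Y := by
  unfold DeC ZC
  linear_combination (4*V^4*Y^7 + 4*V^4*Y^5 + 4*V^4*Y^4 - 7*V^4*Y^3 + 8*V^4*Y^2 + 4*V^4*Y - 7*V^4 + 8*V^3*Y^5 + 8*V^3*Y^4 + 8*V^3*Y^2 + 8*V^3*Y + 8*V^2*Y^4 + 4*V^2*Y^3 + 8*V^2*Y + 4*V^2 + 8*V*Y^7 + 8*V*Y^6 + 4*V*Y^5 + 4*V*Y^4 + 4*V*Y^2 - 4*V*Y + 8*V + 8*Y^5 + 8*Y^4 + 4*Y^3 + 8*Y^2 + 8*Y + 4) * hr + (2*V^9*Y^9 + 4*V^9*Y^8 + 6*V^9*Y^7 + 8*V^9*Y^6 + 11*V^9*Y^5 + 5*V^9*Y^4 + 4*V^9*Y^3 + 5*V^9*Y^2 + 4*V^9*Y + V^9 + 2*V^8*Y^9 + 5*V^8*Y^8 + 3*V^8*Y^7 + 8*V^8*Y^6 + 7*V^8*Y^5 + 6*V^8*Y^4 + 2*V^8*Y^2 + V^8*Y + 2*V^7*Y^9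 + 10*V^7*Y^8 + 14*V^7*Y^7 + 8*V^7*Y^6 + 7*V^7*Y^5 + 2*V^7*Y^4 - 2*V^7*Y^3 - 7*V^7*Y^2 - 5*V^7*Y - V^7 + 12*V^6*Y^7 + 12*V^6*Y^6 + 17*V^6*Y^5 + 9*V^6*Y^4 + 5*V^6*Y^3 - 3*V^6*Y^2 + V^6*Y + V^6 + 4*V^5*Y^9 + 11*V^5*Y^8 + 11*V^5*Y^7 + 23*V^5*Y^6 + 7*V^5*Y^5 + 7*V^5*Y^4 - 2*V^5*Y^3 + 6*V^5*Y^2 + 3*V^5*Y + 2*V^4*Y^9 + 9*V^4*Y^8 + 11*V^4*Y^7 + 8*V^4*Y^6 + 14*V^4*Y^5 + 9*V^4*Y^4 + 11*V^4*Y^3 + V^4*Y^2 - 4*V^4*Y - V^4 + V^3*Y^10 + 2*V^3*Y^9 + 2*V^3*Y^8 + 12*V^3*Y^7 + 9*V^3*Y^6 + 13*V^3*Y^5 + 3*V^3*Y^4 + V^3*Y^3 - 3*V^3*Y^2 + V^3*Y + V^3 + 2*V^2*Y^9 + 5*V^2*Y^8 + 3*V^2*Y^7 + 9*V^2*Y^6 + 2*V^2*Y^5 + 9*V^2*Y^4 + 3*V^2*Y^3 + 5*V^2*Y^2 + 2*V^2*Y + V*Y^8 + 3*V*Y^7 + 3*V*Y^6 + 6*V*Y^5 + 3*V*Y^4 + 3*V*Y^3 + V*Y^2)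 * h0

/-- odd part -/
def odC {A : Type*} [CommRing A] (v y : A) : A := (8*y^5 + 8*y^4 + 8*y^3 - 4*y^2 + 4*y) + v * (8*y^4 + 4*y^3 + 8*y^2 - 4*y) + v^2 * (8*y^3 + 8*y^2 + 4*y + 4) + v^3 * (8*y^2 - 4*y + 4) + v^4 * (8*y^7 + 8*y^6 + 8*y^5 - 4*y^4 + 6*y^2 - 5*y + 1)

theorem map_odC {A B F : Type*} [CommRing A] [CommRing B] [FunLike F A B] [RingHomClass F A B]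
    (f : F) (v y : A) : f (odC v y) = odC (f v) (f y) := by
  simp only [odC, map_add, map_sub, map_neg, map_mul, map_pow, map_one, map_ofNat, map_zero]

theorem s5C {A : Type*} [CommRing A] {v V y Y d : A} (h0 : (16 : A) = 0) (hr : V ^ 5 * (1 + 2 * Y) ^ 2 * (1 + Y) = Y)
    (hd : d ^ 2 = V * (1 + 3 * Y + Y ^ 2)) (hv : v = d - V ^ 3 * (1 + 2 * Y) * (1 + Y))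
    (hy : (1 + 2 * Y) ^ 2 * y = Y + V ^ 2 * (1 + 2 * Y) * (1 + Y) * v) :
    ZC v y = 8 * zeC V Y + d * odC V Y := by
  unfold ZC
  rw [y8_16 h0 hr hd hv hy, y7_16 h0 hr hd hv hy, y6_16 h0 hr hd hv hy, y5_16 h0 hr hd hv hy, y4_16 h0 hr hd hv hy, y3_16 h0 hr hd hv hy, y2_16 h0 hr hd hv hy, y1_16 h0 hr hd hv hy, v4_16 h0 hr hd hv hy, v3_16 h0 hr hd hv hy, v2_16 h0 hr hd hv hy, v1_16 h0 hr hd hv hy]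
  unfold zeC odC
  linear_combination (320*V^6*Y^10 + 64*V^6*Y^9 + 544*V^6*Y^8 + 96*V^6*Y^7 + 128*V^6*Y^6 - 96*V^6*Y^5 - 136*V^6*Y^4 + 16*V^6*Y^3 + 4*V^6*Y^2 + 8*V^6*Y - 4*V^6 - 384*V^5*Y^9 - 576*V^5*Y^8 - 320*V^5*Y^7 - 320*V^5*Y^6 - 160*V^5*Y^5 + 80*V^5*Y^4 + 64*V^5*Y^3 + 8*V^5*Y^2 - 16*V^5*Y - 8*V^5 - 256*V^3*Y^9 - 320*V^3*Y^8 - 96*V^3*Y^7 - 384*V^3*Y^6 - 168*V^3*Y^5 + 164*V^3*Y^4 - 12*V^3*Y^3 + 12*V^3*Y^2 + 4*V^3*Y + 96*V^2*Y^7 + 160*V^2*Y^6 + 56*V^2*Y^5 + 72*V^2*Y^4 + 36*V^2*Y^3 + 8*V^2*Y^2 - 4*V^2*Y + 8*V^2) * hd + (8*V^2*Y^5 - 4*V^2*Y^3 + 8*V^2*Y^2 - 4*V^2 - 4*V*Y^4*d - 4*V*Y^3*d + 8*V*Y^3 + 4*V*Y^2*d + 4*V*Y*d + 8*V + 8*Y^5*d - 4*Y^3*d + 4*Y*d + 8*d) * hr + (20*V^7*Y^12 + 64*V^7*Y^11 + 66*V^7*Y^10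 + 112*V^7*Y^9 + 58*V^7*Y^8 + 20*V^7*Y^7 - 20*V^7*Y^6 - 31*V^7*Y^5 - 8*V^7*Y^4 + V^7*Y^3 + 3*V^7*Y^2 + V^7*Y - 32*V^6*Y^11*d - 24*V^6*Y^11 + 8*V^6*Y^10*d - 108*V^6*Y^10 - 48*V^6*Y^9*d - 152*V^6*Y^9 - 6*V^6*Y^8*d - 116*V^6*Y^8 + 16*V^6*Y^7*d - 90*V^6*Y^7 - 26*V^6*Y^6*d - 47*V^6*Y^6 + 42*V^6*Y^5*d + 5*V^6*Y^5 - 6*V^6*Y^4*d + 15*V^6*Y^4 - 7*V^6*Y^3*d + 2*V^6*Y^3 - 7*V^6*Y^2 - V^6*Y*d - 5*V^6*Y - V^6 - 12*V^5*Y^9*d - 40*V^5*Y^8*d - 47*V^5*Y^7*d - 31*V^5*Y^6*d - 20*V^5*Y^5*d - 12*V^5*Y^4*d - 7*V^5*Y^3*d - 6*V^5*Y^2*d - 4*V^5*Y*d - V^5*d - 32*V^4*Y^12 + 24*V^4*Y^11*d - 16*V^4*Y^11 - 4*V^4*Y^10*d - 104*V^4*Y^10 + 24*V^4*Y^9*d - 48*V^4*Y^9 - 12*V^4*Y^8*d - 48*V^4*Y^8 + 2*V^4*Y^7*d - 77*V^4*Y^7 - 10*V^4*Y^6*d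 - 40*V^4*Y^6 - 11*V^4*Y^5*d - 5*V^4*Y^5 + 6*V^4*Y^4*d + 17*V^4*Y^4 - 2*V^4*Y^3*d + 2*V^4*Y^3 + 5*V^4*Y^2*d - V^4*Y*d + V^4*Y - 8*V^3*Y^10*d - 8*V^3*Y^10 + 8*V^3*Y^9*d - 4*V^3*Y^9 + 40*V^3*Y^8*d + 30*V^3*Y^8 + 26*V^3*Y^7*d + 48*V^3*Y^7 + 10*V^3*Y^6*d + 23*V^3*Y^6 - 6*V^3*Y^5*d + 4*V^3*Y^5 - 5*V^3*Y^4*d - V^3*Y^4 + 6*V^3*Y^3*d + V^3*Y + 4*V^2*Y^12 - 8*V^2*Y^11 - 10*V^2*Y^10 - 18*V^2*Y^9 - 8*V^2*Y^8 + 6*V^2*Y^7*d - 5*V^2*Y^7 + 6*V^2*Y^6*d - 6*V^2*Y^6 - V^2*Y^5*d + V^2*Y^5 - 3*V^2*Y^4*d - 3*V^2*Y^4 - V^2*Y^3*d + 5*V^2*Y^3 - 3*V^2*Y^2*d - 2*V^2*Y^2 - 16*V*Y^10*d + 4*V*Y^10 - 24*V*Y^9*d + 4*V*Y^9 - 6*V*Y^8*d - 10*V*Y^8 + 8*V*Y^7*d - 10*V*Y^7 + 19*V*Y^6*d + V*Y^6 + V*Y^5*d + 8*V*Y^5 - 6*V*Y^4*d + 2*V*Y^4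 + 2*V*Y^3*d - 6*V*Y^3 - V*Y^2*d + V*Y + 4*Y^8*d + 2*Y^8 - Y^7*d - 2*Y^7 - Y^6*d - 3*Y^6 - 2*Y^5*d + 6*Y^5 + 3*Y^4*d + 7*Y^4 + 2*Y^3*d + Y^2*d - 2*Y^2) * h0

/-- odd part -/
def oeC {A : Type*} [CommRing A] (v y : A) : A := v * (y^2 + 1) + v^2 * (y + 1) + v^3 * (y^3 + y^2)

theorem map_oeC {A B F : Type*} [CommRing A] [CommRing B] [FunLike F A B] [RingHomClass F A B]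
    (f : F) (v y : A) : f (oeC v y) = oeC (f v) (f y) := by
  simp only [oeC, map_add, map_sub, map_neg, map_mul, map_pow, map_one, map_ofNat, map_zero]

theorem s6C {A : Type*} [CommRing A] {v V y Y d : A} (h0 : (2 : A) = 0) (hr : V ^ 5 * (1 + 2 * Y) ^ 2 * (1 + Y) = Y)
    (hd : d ^ 2 = V * (1 + 3 * Y + Y ^ 2)) (hv : v = d - V ^ 3 * (1 + 2 * Y) * (1 + Y))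
    (hy : (1 + 2 * Y) ^ 2 * y = Y + V ^ 2 * (1 + 2 * Y) * (1 + Y) * v) :
    zeC v y = d * oeC V Y := by
  unfold zeC
  rw [y8_2 h0 hr hd hv hy, y6_2 h0 hr hd hv hy, y5_2 h0 hr hd hv hy, y4_2 h0 hr hd hv hy, y2_2 h0 hr hd hv hy, y1_2 h0 hr hd hv hy, v3_2 h0 hr hd hv hy, v2_2 h0 hr hd hv hy]
  unfold oeC
  linear_combination (V^3*Y^3 + V^3*Y^2 + V^3*Y + V^3) * hd + (V*Y^3*d + V*Y^2*d + V*Y*d + V*d) * hr + (-2*V^6*Y^6*d - 6*V^6*Y^5*d - 8*V^6*Y^4*d - 8*V^6*Y^3*d - 6*V^6*Y^2*d - 2*V^6*Y*d + V^4*Y^5 + 3*V^4*Y^4 + 4*V^4*Y^3 + 4*V^4*Y^2 + 3*V^4*Y + V^4 + V*Y^4*d + V*Y^4 + V*Y^3*d + V*Y^2*d + V*Y*d + Y^2) * h0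

/-- first dissection -/
def X1D {A : Type*} [CommRing A] (v y : A) : A := (4*y^3 - 2*y^2 + 2*y + 1) + v * (2*y + 2) + v^2 * (4*y^3 + 4*y^2 + y + 1) + v^3 * (4*y^3 + 2*y^2 + 2) + v^4 * (4*y^3 + 2*y^2 - y + 1)

theorem map_X1D {A B F : Type*} [CommRing A] [CommRing B] [FunLike F A B] [RingHomClass F A B]
    (f : F) (v y : A) : f (X1D v y) = X1D (f v) (f y) := by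
  simp only [X1D, map_add, map_sub, map_neg, map_mul, map_pow, map_one, map_ofNat, map_zero]

/-- second dissection -/
def X2D {A : Type*} [CommRing A] (v y : A) : A := (4*y^4 + 4*y^3 - 2*y^2 - 2*y + 1) + v * (4*y^3 + y^2 - 2*y + 1) + v^2 * (4*y^3 - 3*y^2 + 2*y + 1) + v^3 * (-2*y^2 - 2*y) + v^4 * (4*y^4 + 4*y^3 - 2*y^2 + 2)

theorem map_X2D {A B F : Type*} [CommRing A] [CommRing B] [FunLike F A B] [RingHomClass F A B]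
    (f : F) (v y : A) : f (X2D v y) = X2D (f v) (f y) := by
  simp only [X2D, map_add, map_sub, map_neg, map_mul, map_pow, map_one, map_ofNat, map_zero]

/-- odd part -/
def DeD {A : Type*} [CommRing A] (v y : A) : A := (4*y^4 - 2*y^3 + 4*y^2 + 3*y + 1) + v * (4*y^3 + 4*y) + v^2 * (4*y^3 + 4*y^2 - 2*y - 2) + v^3 * (4*y^4 - 2*y^3 + 4*y^2 + 2*y) + v^4 * (4*y^3 + 4*y)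

theorem map_DeD {A B F : Type*} [CommRing A] [CommRing B] [FunLike F A B] [RingHomClass F A B]
    (f : F) (v y : A) : f (DeD v y) = DeD (f v) (f y) := by
  simp only [DeD, map_add, map_sub, map_neg, map_mul, map_pow, map_one, map_ofNat, map_zero]

/-- the square of the odd part -/
def ZD {A : Type*} [CommRing A] (v y : A) : A := (8*y^6 + 8*y^5 + 4*y^4 + 8*y^3 + 8*y^2 + 4*y) + v * (4*y^8 + 4*y^7 + 8*y^5 - 7*y^4 + 5*y^3 - 4*y^2 - 7*y + 1) + v^2 * (4*y^8 + 8*y^7 - 4*y^6 + 4*y^5 - 4*y^3 + 8*y) + v^3 * (8*y^5 + 4*y^4 - 4*y^3 + 8*y^2 + 4*y - 4) + v^4 * (8*y^8 + 4*y^6 + 8*y^5 + 4*y^4 + 4*y^3 + 4*y)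

theorem map_ZD {A B F : Type*} [CommRing A] [CommRing B] [FunLike F A B] [RingHomClass F A B]
    (f : F) (v y : A) : f (ZD v y) = ZD (f v) (f y) := by
  simp only [ZD, map_add, map_sub, map_neg, map_mul, map_pow, map_one, map_ofNat, map_zero]

/-- even part of the square, divided by 8 -/
def zeD {A : Type*} [CommRing A] (v y : A) : A := (y^4 + y) + v^2 * (y^6 + y^3) + v^3 * (y^8 + y^7 + y^5 + y^3 + y + 1)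

theorem map_zeD {A B F : Type*} [CommRing A] [CommRing B] [FunLike F A B] [RingHomClass F A B]
    (f : F) (v y : A) : f (zeD v y) = zeD (f v) (f y) := by
  simp only [zeD, map_add, map_sub, map_neg, map_mul, map_pow, map_one, map_ofNat, map_zero]

/-- norm -/
def NmD {A : Type*} [CommRing A] (v y : A) : A := (4*y + 1) + v * (2*y + 4) + v^2 * (-2) + v^3 * (4*y^2 - 2*y + 3) + v^4 * (2*y + 3)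

theorem map_NmD {A B F : Type*} [CommRing A] [CommRing B] [FunLike F A B] [RingHomClass F A B]
    (f : F) (v y : A) : f (NmD v y) = NmD (f v) (f y) := by
  simp only [NmD, map_add, map_sub, map_neg, map_mul, map_pow, map_one, map_ofNat, map_zero]

theorem normD {A : Type*} [CommRing A] {v V y Y d : A} (h0 : (8 : A) = 0) (hr : V ^ 5 * (1 + 2 * Y) ^ 2 * (1 + Y) = Y)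
    (hd : d ^ 2 = V * (1 + 3 * Y + Y ^ 2)) (hv : v = d - V ^ 3 * (1 + 2 * Y) * (1 + Y))
    (hy : (1 + 2 * Y) ^ 2 * y = Y + V ^ 2 * (1 + 2 * Y) * (1 + Y) * v) :
    NN v * NN (-v - 2 * V ^ 3 * (1 + 2 * Y) * (1 + Y)) = NmD V Y := by
  rw [show -v - 2 * V ^ 3 * (1 + 2 * Y) * (1 + Y) = -d - V ^ 3 * (1 + 2 * Y) * (1 + Y) by rw [hv]; ring, hv]
  unfold NN NmD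
  linear_combination (-256*V^18*Y^12 - 2304*V^18*Y^11 - 9408*V^18*Y^10 - 23040*V^18*Y^9 - 37680*V^18*Y^8 - 43344*V^18*Y^7 - 35956*V^18*Y^6 - 21672*V^18*Y^5 - 9420*V^18*Y^4 - 2880*V^18*Y^3 - 588*V^18*Y^2 - 72*V^18*Y - 4*V^18 - 576*V^15*Y^10 - 4320*V^15*Y^9 - 14400*V^15*Y^8 - 28080*V^15*Y^7 - 35460*V^15*Y^6 - 30294*V^15*Y^5 - 17730*V^15*Y^4 - 7020*V^15*Y^3 - 1800*V^15*Y^2 - 270*V^15*Y - 18*V^15 + 96*V^13*Y^10 + 864*V^13*Y^9 + 3312*V^13*Y^8 + 7200*V^13*Y^7 + 9894*V^13*Y^6 + 9018*V^13*Y^5 + 5538*V^13*Y^4 + 2268*V^13*Y^3 + 594*V^13*Y^2 + 90*V^13*Y + 6*V^13 + 96*V^12*Y^8*d^2 - 560*V^12*Y^8 + 576*V^12*Y^7*d^2 - 3360*V^12*Y^7 + 1488*V^12*Y^6*d^2 - 8680*V^12*Y^6 + 2160*V^12*Y^5*d^2 - 12600*V^12*Y^5 + 1926*V^12*Y^4*d^2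 - 11235*V^12*Y^4 + 1080*V^12*Y^3*d^2 - 6300*V^12*Y^3 + 372*V^12*Y^2*d^2 - 2170*V^12*Y^2 + 72*V^12*Y*d^2 - 420*V^12*Y + 6*V^12*d^2 - 35*V^12 + 144*V^10*Y^8 + 1080*V^10*Y^7 + 3276*V^10*Y^6 + 5346*V^10*Y^5 + 5184*V^10*Y^4 + 3078*V^10*Y^3 + 1098*V^10*Y^2 + 216*V^10*Y + 18*V^10 + 144*V^9*Y^6*d^2 - 320*V^9*Y^6 + 648*V^9*Y^5*d^2 - 1440*V^9*Y^5 + 1188*V^9*Y^4*d^2 - 2640*V^9*Y^4 + 1134*V^9*Y^3*d^2 - 2520*V^9*Y^3 + 594*V^9*Y^2*d^2 - 1320*V^9*Y^2 + 162*V^9*Y*d^2 - 360*V^9*Y + 18*V^9*d^2 - 40*V^9 - 16*V^8*Y^8 - 144*V^8*Y^7 - 516*V^8*Y^6 - 960*V^8*Y^5 - 1024*V^8*Y^4 - 648*V^8*Y^3 - 240*V^8*Y^2 - 48*V^8*Y - 4*V^8 - 16*V^7*Y^6*d^2 + 76*V^7*Y^6 - 96*V^7*Y^5*d^2 + 456*V^7*Y^5 - 212*V^7*Y^4*d^2 + 1007*V^7*Y^4 -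 228*V^7*Y^3*d^2 + 1083*V^7*Y^3 - 128*V^7*Y^2*d^2 + 608*V^7*Y^2 - 36*V^7*Y*d^2 + 171*V^7*Y - 4*V^7*d^2 + 19*V^7 - 16*V^6*Y^4*d^4 + 76*V^6*Y^4*d^2 - 80*V^6*Y^4 - 48*V^6*Y^3*d^4 + 228*V^6*Y^3*d^2 - 240*V^6*Y^3 - 52*V^6*Y^2*d^4 + 247*V^6*Y^2*d^2 - 260*V^6*Y^2 - 24*V^6*Y*d^4 + 114*V^6*Y*d^2 - 120*V^6*Y - 4*V^6*d^4 + 19*V^6*d^2 - 20*V^6 - 12*V^5*Y^6 - 90*V^5*Y^5 - 246*V^5*Y^4 - 306*V^5*Y^3 - 186*V^5*Y^2 - 54*V^5*Y - 6*V^5 - 12*V^4*Y^4*d^2 + 24*V^4*Y^4 - 54*V^4*Y^3*d^2 + 108*V^4*Y^3 - 72*V^4*Y^2*d^2 + 144*V^4*Y^2 - 36*V^4*Y*d^2 + 72*V^4*Y - 6*V^4*d^2 + 12*V^4 + V^3*Y^6 + 9*V^3*Y^5 + 30*V^3*Y^4 + 45*V^3*Y^3 - 12*V^3*Y^2*d^4 + 24*V^3*Y^2*d^2 + 34*V^3*Y^2 - 18*V^3*Y*d^4 + 36*V^3*Y*d^2 + 15*V^3*Y - 6*V^3*d^4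 + 12*V^3*d^2 + 3*V^3 + V^2*Y^4*d^2 - V^2*Y^4 + 6*V^2*Y^3*d^2 - 6*V^2*Y^3 + 11*V^2*Y^2*d^2 - 11*V^2*Y^2 + 6*V^2*Y*d^2 - 6*V^2*Y + V^2*d^2 - V^2 + V*Y^2*d^4 - V*Y^2*d^2 + 6*V*Y^2 + 3*V*Y*d^4 - 3*V*Y*d^2 + 18*V*Y + V*d^4 - V*d^2 + 6*V + d^6 - d^4 + 6*d^2 + 4) * hd + (4*V^19*Y^9 + V^19*Y^7 - V^19*Y^6 - 3*V^19*Y^5 + 3*V^19*Y^4 + 3*V^19*Y^3 - 3*V^19*Y^2 + 3*V^19*Y + V^19 + 4*V^16*Y^7 - 2*V^16*Y^6 + 2*V^16*Y^4 + 4*V^16*Y^3 + 2*V^16*Y^2 - 2*V^16 - 3*V^14*Y^7 - 2*V^14*Y^6 - V^14*Y^5 + 3*V^14*Y^3 - 2*V^14*Y^2 + V^14*Y + 4*V^14 + V^13*Y^5 - 3*V^13*Y^4 + 2*V^13*Y^3 + 2*V^13*Y^2 - 3*V^13*Y + V^13 + 4*V^11*Y^6 + 4*V^11*Y^5 - 2*V^11*Y^4 + 4*V^11*Y - 2*V^11 + 4*V^10*Y^4 + 4*V^10 + 4*V^9*Y^9 - V^9*Y^7 - V^9*Y^6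 + 2*V^9*Y^5 - 2*V^9*Y^4 + V^9*Y^3 - 3*V^9*Y^2 + 2*V^9*Y - 2*V^9 + 2*V^8*Y^5 + 2*V^8*Y^4 - V^8*Y^3 - 3*V^8*Y^2 + 3*V^8*Y - 3*V^8 - 2*V^7*Y^3 + 2*V^7*Y^2 + 2*V^7*Y - 2*V^7 + 4*V^6*Y^7 - 2*V^6*Y^6 - 2*V^6*Y^4 - 2*V^6*Y^3 - 2*V^6*Y^2 + 2*V^6*Y + 2*V^6 + 4*V^5*Y^4 + 4*V^5*Y^3 + 4*V^5*Y^2 + 4*V^5*Y - V^4*Y^7 + 4*V^4*Y^6 - 2*V^4*Y^5 + V^4*Y^3 - 2*V^4*Y^2 - 2*V^4*Y + 2*V^4 + V^3*Y^5 + V^3*Y^4 - 2*V^3*Y^3 - 3*V^3*Y^2 + 2*V^3*Y + 3*V^3 + 2*V^2*Y^3 + 4*V^2*Y^2 - 2*V^2*Y + 4*V^2 + 4*V*Y - 2*V + 4) * hr + (32*V^24*Y^16 + 384*V^24*Y^15 + 2144*V^24*Y^14 + 7392*V^24*Y^13 + 17610*V^24*Y^12 + 30740*V^24*Y^11 + 40667*V^24*Y^10 + 41585*V^24*Y^9 + 33218*V^24*Y^8 + 20795*V^24*Y^7 + 10165*V^24*Y^6 + 3840*V^24*Y^5 + 1100*V^24*Y^4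 + 229*V^24*Y^3 + 31*V^24*Y^2 + 2*V^24*Y + 96*V^21*Y^14 + 1008*V^21*Y^13 + 4872*V^21*Y^12 + 14364*V^21*Y^11 + 28852*V^21*Y^10 + 41766*V^21*Y^9 + 44929*V^21*Y^8 + 36479*V^21*Y^7 + 22461*V^21*Y^6 + 10436*V^21*Y^5 + 3602*V^21*Y^4 + 897*V^21*Y^3 + 154*V^21*Y^2 + 17*V^21*Y + V^21 - 32*V^19*Y^14 - 384*V^19*Y^13 - 2072*V^19*Y^12 - 6696*V^19*Y^11 - 14524*V^19*Y^10 - 22424*V^19*Y^9 - 25454*V^19*Y^8 - 21608*V^19*Y^7 - 13800*V^19*Y^6 - 6603*V^19*Y^5 - 2331*V^19*Y^4 - 592*V^19*Y^3 - 105*V^19*Y^2 - 13*V^19*Y - V^19 + 136*V^18*Y^12 + 1224*V^18*Y^11 + 4998*V^18*Y^10 + 12240*V^18*Y^9 + 20017*V^18*Y^8 + 23027*V^18*Y^7 + 19103*V^18*Y^6 + 11512*V^18*Y^5 + 5003*V^18*Y^4 + 1531*V^18*Y^3 + 313*V^18*Y^2 + 38*V^18*Y +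 2*V^18 - 72*V^16*Y^12 - 756*V^16*Y^11 - 3492*V^16*Y^10 - 9452*V^16*Y^9 - 16768*V^16*Y^8 - 20600*V^16*Y^7 - 18010*V^16*Y^6 - 11312*V^16*Y^5 - 5075*V^16*Y^4 - 1589*V^16*Y^3 - 329*V^16*Y^2 - 40*V^16*Y - 2*V^16 + 112*V^15*Y^10 + 840*V^15*Y^9 + 2800*V^15*Y^8 + 5458*V^15*Y^7 + 6891*V^15*Y^6 + 5888*V^15*Y^5 + 3447*V^15*Y^4 + 1363*V^15*Y^3 + 346*V^15*Y^2 + 50*V^15*Y + 3*V^15 + 10*V^14*Y^12 + 140*V^14*Y^11 + 748*V^14*Y^10 + 2251*V^14*Y^9 + 4351*V^14*Y^8 + 5737*V^14*Y^7 + 5311*V^14*Y^6 + 3489*V^14*Y^5 + 1619*V^14*Y^4 + 518*V^14*Y^3 + 110*V^14*Y^2 + 15*V^14*Y + V^14 - 70*V^13*Y^10 - 630*V^13*Y^9 - 2416*V^13*Y^8 - 5253*V^13*Y^7 - 7217*V^13*Y^6 - 6575*V^13*Y^5 - 4036*V^13*Y^4 - 1653*V^13*Y^3 - 432*V^13*Y^2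 - 64*V^13*Y - 4*V^13 + 60*V^12*Y^8 + 360*V^12*Y^7 + 931*V^12*Y^6 + 1351*V^12*Y^5 + 1202*V^12*Y^4 + 673*V^12*Y^3 + 233*V^12*Y^2 + 46*V^12*Y + 4*V^12 + 16*V^11*Y^10 + 186*V^11*Y^9 + 832*V^11*Y^8 + 2034*V^11*Y^7 + 3066*V^11*Y^6 + 3001*V^11*Y^5 + 1942*V^11*Y^4 + 822*V^11*Y^3 + 218*V^11*Y^2 + 32*V^11*Y + 2*V^11 - 40*V^10*Y^8 - 302*V^10*Y^7 - 916*V^10*Y^6 - 1493*V^10*Y^5 - 1449*V^10*Y^4 - 862*V^10*Y^3 - 308*V^10*Y^2 - 60*V^10*Y - 5*V^10 - V^9*Y^10 - 25*V^9*Y^9 - 123*V^9*Y^8 - 332*V^9*Y^7 - 530*V^9*Y^6 - 486*V^9*Y^5 - 217*V^9*Y^4 - 2*V^9*Y^3 + 42*V^9*Y^2 + 16*V^9*Y + 2*V^9 + 9*V^8*Y^8 + 84*V^8*Y^7 + 306*V^8*Y^6 + 573*V^8*Y^5 + 611*V^8*Y^4 + 383*V^8*Y^3 + 139*V^8*Y^2 + 26*V^8*Y + 2*V^8 - 11*V^7*Y^6 - 64*V^7*Y^5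 - 137*V^7*Y^4 - 145*V^7*Y^3 - 83*V^7*Y^2 - 25*V^7*Y - 3*V^7 - V^6*Y^8 - 16*V^6*Y^7 - 66*V^6*Y^6 - 142*V^6*Y^5 - 165*V^6*Y^4 - 100*V^6*Y^3 - 25*V^6*Y^2 + V^6*Y + V^6 + 3*V^5*Y^6 + 23*V^5*Y^5 + 62*V^5*Y^4 + 75*V^5*Y^3 + 43*V^5*Y^2 + 11*V^5*Y + V^5 + 2*V^4*Y^7 + 7*V^4*Y^6 + 18*V^4*Y^5 + 25*V^4*Y^4 + 20*V^4*Y^3 + 10*V^4*Y^2 + 3*V^4*Y - V^3*Y^5 - 4*V^3*Y^4 - 6*V^3*Y^3 - 3*V^3*Y^2 + V^3*Y + V^2*Y^4 + 5*V^2*Y^3 + 8*V^2*Y^2 + 5*V^2*Y + V^2 + V*Y^2 + V*Y) * h0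

/-- even part of the numerator -/
def nevD {A : Type*} [CommRing A] (v y : A) : A := (4*y^3 + 2*y^2 - y + 1) + v * (4*y^3 + 4*y^2 + 3*y - 2) + v^2 * (4*y^3 + 2*y^2 - 2*y - 1) + v^3 * (-2*y^2 + y - 3) + v^4 * (-y)

theorem map_nevD {A B F : Type*} [CommRing A] [CommRing B] [FunLike F A B] [RingHomClass F A B]
    (f : F) (v y : A) : f (nevD v y) = nevD (f v) (f y) := by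
  simp only [nevD, map_add, map_sub, map_neg, map_mul, map_pow, map_one, map_ofNat, map_zero]

/-- odd part of the numerator -/
def nodD {A : Type*} [CommRing A] (v y : A) : A := (-3) + v * (4*y^2 - 2*y + 1) + v^2 * (1) + v^3 * (4*y^2 - 2*y - 3) + v^4 * (2*y + 2)

theorem map_nodD {A B F : Type*} [CommRing A] [CommRing B] [FunLike F A B] [RingHomClass F A B]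
    (f : F) (v y : A) : f (nodD v y) = nodD (f v) (f y) := by
  simp only [nodD, map_add, map_sub, map_neg, map_mul, map_pow, map_one, map_ofNat, map_zero]

theorem numD {A : Type*} [CommRing A] {v V y Y d : A} (h0 : (8 : A) = 0) (hr : V ^ 5 * (1 + 2 * Y) ^ 2 * (1 + Y) = Y)
    (hd : d ^ 2 = V * (1 + 3 * Y + Y ^ 2)) (hv : v = d - V ^ 3 * (1 + 2 * Y) * (1 + Y))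
    (hy : (1 + 2 * Y) ^ 2 * y = Y + V ^ 2 * (1 + 2 * Y) * (1 + Y) * v) :
    DD v * NN (-v - 2 * V ^ 3 * (1 + 2 * Y) * (1 + Y)) = nevD V Y + d * nodD V Y := by
  rw [show -v - 2 * V ^ 3 * (1 + 2 * Y) * (1 + Y) = -d - V ^ 3 * (1 + 2 * Y) * (1 + Y) by rw [hv]; ring, hv]
  unfold NN DD nevD nodD
  linear_combination (-256*V^18*Y^12 - 2304*V^18*Y^11 - 9408*V^18*Y^10 - 23040*V^18*Y^9 - 37680*V^18*Y^8 - 43344*V^18*Y^7 - 35956*V^18*Y^6 - 21672*V^18*Y^5 - 9420*V^18*Y^4 - 2880*V^18*Y^3 - 588*V^18*Y^2 - 72*V^18*Y - 4*V^18 - 96*V^15*Y^10 - 720*V^15*Y^9 - 2400*V^15*Y^8 - 4680*V^15*Y^7 - 5910*V^15*Y^6 - 5049*V^15*Y^5 - 2955*V^15*Y^4 - 1170*V^15*Y^3 - 300*V^15*Y^2 - 45*V^15*Y - 3*V^15 + 96*V^13*Y^10 + 864*V^13*Y^9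 + 3312*V^13*Y^8 + 7200*V^13*Y^7 + 9894*V^13*Y^6 + 9018*V^13*Y^5 + 5538*V^13*Y^4 + 2268*V^13*Y^3 + 594*V^13*Y^2 + 90*V^13*Y + 6*V^13 + 96*V^12*Y^8*d^2 + 240*V^12*Y^8*d + 160*V^12*Y^8 + 576*V^12*Y^7*d^2 + 1440*V^12*Y^7*d + 960*V^12*Y^7 + 1488*V^12*Y^6*d^2 + 3720*V^12*Y^6*d + 2480*V^12*Y^6 + 2160*V^12*Y^5*d^2 + 5400*V^12*Y^5*d + 3600*V^12*Y^5 + 1926*V^12*Y^4*d^2 + 4815*V^12*Y^4*d + 3210*V^12*Y^4 + 1080*V^12*Y^3*d^2 + 2700*V^12*Y^3*d + 1800*V^12*Y^3 + 372*V^12*Y^2*d^2 + 930*V^12*Y^2*d + 620*V^12*Y^2 + 72*V^12*Y*d^2 + 180*V^12*Y*d + 120*V^12*Y + 6*V^12*d^2 + 15*V^12*d + 10*V^12 + 24*V^10*Y^8 + 180*V^10*Y^7 + 546*V^10*Y^6 + 891*V^10*Y^5 + 864*V^10*Y^4 + 513*V^10*Y^3 + 183*V^10*Y^2 + 36*V^10*Y + 3*V^10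 + 24*V^9*Y^6*d^2 - 80*V^9*Y^6 + 108*V^9*Y^5*d^2 - 360*V^9*Y^5 + 198*V^9*Y^4*d^2 - 660*V^9*Y^4 + 189*V^9*Y^3*d^2 - 630*V^9*Y^3 + 99*V^9*Y^2*d^2 - 330*V^9*Y^2 + 27*V^9*Y*d^2 - 90*V^9*Y + 3*V^9*d^2 - 10*V^9 - 16*V^8*Y^8 - 144*V^8*Y^7 - 516*V^8*Y^6 - 960*V^8*Y^5 - 1024*V^8*Y^4 - 648*V^8*Y^3 - 240*V^8*Y^2 - 48*V^8*Y - 4*V^8 - 16*V^7*Y^6*d^2 - 60*V^7*Y^6*d - 104*V^7*Y^6 - 96*V^7*Y^5*d^2 - 360*V^7*Y^5*d - 624*V^7*Y^5 - 212*V^7*Y^4*d^2 - 795*V^7*Y^4*d - 1378*V^7*Y^4 - 228*V^7*Y^3*d^2 - 855*V^7*Y^3*d - 1482*V^7*Y^3 - 128*V^7*Y^2*d^2 - 480*V^7*Y^2*d - 832*V^7*Y^2 - 36*V^7*Y*d^2 - 135*V^7*Y*d - 234*V^7*Y - 4*V^7*d^2 - 15*V^7*d - 26*V^7 - 16*V^6*Y^4*d^4 - 60*V^6*Y^4*d^3 - 104*V^6*Y^4*d^2 - 120*V^6*Y^4*d -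 80*V^6*Y^4 - 48*V^6*Y^3*d^4 - 180*V^6*Y^3*d^3 - 312*V^6*Y^3*d^2 - 360*V^6*Y^3*d - 240*V^6*Y^3 - 52*V^6*Y^2*d^4 - 195*V^6*Y^2*d^3 - 338*V^6*Y^2*d^2 - 390*V^6*Y^2*d - 260*V^6*Y^2 - 24*V^6*Y*d^4 - 90*V^6*Y*d^3 - 156*V^6*Y*d^2 - 180*V^6*Y*d - 120*V^6*Y - 4*V^6*d^4 - 15*V^6*d^3 - 26*V^6*d^2 - 30*V^6*d - 20*V^6 - 2*V^5*Y^6 - 15*V^5*Y^5 - 41*V^5*Y^4 - 51*V^5*Y^3 - 31*V^5*Y^2 - 9*V^5*Y - V^5 - 2*V^4*Y^4*d^2 + 14*V^4*Y^4 - 9*V^4*Y^3*d^2 + 63*V^4*Y^3 - 12*V^4*Y^2*d^2 + 84*V^4*Y^2 - 6*V^4*Y*d^2 + 42*V^4*Y - V^4*d^2 + 7*V^4 + V^3*Y^6 + 9*V^3*Y^5 + 30*V^3*Y^4 + 45*V^3*Y^3 - 2*V^3*Y^2*d^4 + 14*V^3*Y^2*d^2 + 20*V^3*Y^2*d + 44*V^3*Y^2 - 3*V^3*Y*d^4 + 21*V^3*Y*d^2 + 30*V^3*Y*d + 30*V^3*Y - V^3*d^4 + 7*V^3*d^2 +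 10*V^3*d + 8*V^3 + V^2*Y^4*d^2 + 5*V^2*Y^4*d + 14*V^2*Y^4 + 6*V^2*Y^3*d^2 + 30*V^2*Y^3*d + 84*V^2*Y^3 + 11*V^2*Y^2*d^2 + 55*V^2*Y^2*d + 154*V^2*Y^2 + 6*V^2*Y*d^2 + 30*V^2*Y*d + 84*V^2*Y + V^2*d^2 + 5*V^2*d + 14*V^2 + V*Y^2*d^4 + 5*V*Y^2*d^3 + 14*V*Y^2*d^2 + 25*V*Y^2*d + 31*V*Y^2 + 3*V*Y*d^4 + 15*V*Y*d^3 + 42*V*Y*d^2 + 75*V*Y*d + 93*V*Y + V*d^4 + 5*V*d^3 + 14*V*d^2 + 25*V*d + 31*V + d^6 + 5*d^5 + 14*d^4 + 25*d^3 + 31*d^2 + 25*d + 14) * hd + (4*V^19*Y^9 + V^19*Y^7 - V^19*Y^6 - 3*V^19*Y^5 + 3*V^19*Y^4 + 3*V^19*Y^3 - 3*V^19*Y^2 + 3*V^19*Y + V^19 + 2*V^16*Y^7 - 3*V^16*Y^6 + 4*V^16*Y^5 - V^16*Y^4 + 2*V^16*Y^3 + 3*V^16*Y^2 + V^16 - 3*V^14*Y^7 - 2*V^14*Y^6 - V^14*Y^5 + 3*V^14*Y^3 - 2*V^14*Y^2 + V^14*Y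 + 4*V^14 + 3*V^13*Y^5*d + 2*V^13*Y^5 - V^13*Y^4*d + 2*V^13*Y^4 - 2*V^13*Y^3*d + 4*V^13*Y^3 - 2*V^13*Y^2*d + 4*V^13*Y^2 - V^13*Y*d + 2*V^13*Y + 3*V^13*d + 2*V^13 + 4*V^11*Y^7 + 2*V^11*Y^6 - 2*V^11*Y^5 + V^11*Y^4 + 4*V^11*Y^3 + 2*V^11*Y - 3*V^11 + 4*V^10*Y^6 + 2*V^10*Y^5 + 3*V^10*Y^4 - 2*V^10*Y^2 - 2*V^10*Y + 3*V^10 + 4*V^9*Y^9 - V^9*Y^7 - V^9*Y^6 + 2*V^9*Y^5 - 2*V^9*Y^4 + V^9*Y^3 - 3*V^9*Y^2 + 2*V^9*Y - 2*V^9 - 2*V^8*Y^5*d + 4*V^8*Y^5 - 2*V^8*Y^4*d + 4*V^8*Y^4 - 3*V^8*Y^3*d - 2*V^8*Y^3 - V^8*Y^2*d + 2*V^8*Y^2 + V^8*Y*d - 2*V^8*Y - V^8*d + 2*V^8 + 4*V^7*Y^5*d + 4*V^7*Y^5 - 3*V^7*Y^3*d - 3*V^7*Y^3 - V^7*Y^2*d - V^7*Y^2 + 3*V^7*Y*d + 3*V^7*Y - 3*V^7*d - 3*V^7 + 2*V^6*Y^7 - 3*V^6*Y^6 - 3*V^6*Y^4 + V^6*Y^3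 + V^6*Y^2 + 3*V^6*Y + 3*V^6 + 2*V^5*Y^5 - V^5*Y^4 + V^5*Y^3 + 3*V^5*Y^2 - 3*V^5*Y - 2*V^5 - V^4*Y^7 + 4*V^4*Y^6 - 2*V^4*Y^5 + 4*V^4*Y^3*d - V^4*Y^3 - 2*V^4*Y^2*d + V^4*Y^2 + 2*V^4*Y - 2*V^4*d + V^4 + 3*V^3*Y^5*d + 2*V^3*Y^5 + 3*V^3*Y^4*d + 2*V^3*Y^4 + 2*V^3*Y^3*d + 4*V^3*Y^3 - V^3*Y^2*d + 2*V^3*Y^2 - 2*V^3*Y*d + 4*V^3*Y + V^3*d - 2*V^3 - V^2*Y^3*d + V^2*Y^3 + 2*V^2*Y^2*d + 2*V^2*Y^2 - 3*V^2*Y*d - 3*V^2*Y + 2*V^2*d + 4*V^2 + 4*V*Y^2 + 3*V*Y*d - 2*V*Y + 3*V*d + V + 4*Y^2 + 2*Y - 1) * hr + (32*V^24*Y^16 + 384*V^24*Y^15 + 2144*V^24*Y^14 + 7392*V^24*Y^13 + 17610*V^24*Y^12 + 30740*V^24*Y^11 + 40667*V^24*Y^10 + 41585*V^24*Y^9 + 33218*V^24*Y^8 + 20795*V^24*Y^7 + 10165*V^24*Y^6 + 3840*V^24*Y^5 + 1100*V^24*Y^4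 + 229*V^24*Y^3 + 31*V^24*Y^2 + 2*V^24*Y + 16*V^21*Y^14 + 168*V^21*Y^13 + 812*V^21*Y^12 + 2394*V^21*Y^11 + 4808*V^21*Y^10 + 6961*V^21*Y^9 + 7488*V^21*Y^8 + 6078*V^21*Y^7 + 3742*V^21*Y^6 + 1737*V^21*Y^5 + 597*V^21*Y^4 + 147*V^21*Y^3 + 24*V^21*Y^2 + 2*V^21*Y - 32*V^19*Y^14 - 384*V^19*Y^13 - 2072*V^19*Y^12 - 6696*V^19*Y^11 - 14524*V^19*Y^10 - 22424*V^19*Y^9 - 25454*V^19*Y^8 - 21608*V^19*Y^7 - 13800*V^19*Y^6 - 6603*V^19*Y^5 - 2331*V^19*Y^4 - 592*V^19*Y^3 - 105*V^19*Y^2 - 13*V^19*Y - V^19 - 40*V^18*Y^12*d + 16*V^18*Y^12 - 360*V^18*Y^11*d + 144*V^18*Y^11 - 1470*V^18*Y^10*d + 588*V^18*Y^10 - 3600*V^18*Y^9*d + 1440*V^18*Y^9 - 5889*V^18*Y^8*d + 2354*V^18*Y^8 - 6775*V^18*Y^7*d + 2706*V^18*Y^7 - 5618*V^18*Y^6*d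 + 2242*V^18*Y^6 - 3383*V^18*Y^5*d + 1347*V^18*Y^5 - 1468*V^18*Y^4*d + 581*V^18*Y^4 - 449*V^18*Y^3*d + 174*V^18*Y^3 - 94*V^18*Y^2*d + 33*V^18*Y^2 - 13*V^18*Y*d + 3*V^18*Y - V^18*d - 12*V^16*Y^12 - 126*V^16*Y^11 - 584*V^16*Y^10 - 1580*V^16*Y^9 - 2797*V^16*Y^8 - 3433*V^16*Y^7 - 3003*V^16*Y^6 - 1890*V^16*Y^5 - 849*V^16*Y^4 - 265*V^16*Y^3 - 53*V^16*Y^2 - 5*V^16*Y + 12*V^15*Y^10 + 88*V^15*Y^9 + 295*V^15*Y^8 + 579*V^15*Y^7 + 734*V^15*Y^6 + 630*V^15*Y^5 + 372*V^15*Y^4 + 148*V^15*Y^3 + 36*V^15*Y^2 + 4*V^15*Y + 10*V^14*Y^12 + 140*V^14*Y^11 + 748*V^14*Y^10 + 2251*V^14*Y^9 + 4351*V^14*Y^8 + 5737*V^14*Y^7 + 5311*V^14*Y^6 + 3489*V^14*Y^5 + 1619*V^14*Y^4 + 518*V^14*Y^3 + 110*V^14*Y^2 + 15*V^14*Y + V^14 + 30*V^13*Y^10*d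 + 20*V^13*Y^10 + 270*V^13*Y^9*d + 180*V^13*Y^9 + 1036*V^13*Y^8*d + 688*V^13*Y^8 + 2253*V^13*Y^7*d + 1494*V^13*Y^7 + 3097*V^13*Y^6*d + 2056*V^13*Y^6 + 2823*V^13*Y^5*d + 1877*V^13*Y^5 + 1733*V^13*Y^4*d + 1154*V^13*Y^4 + 709*V^13*Y^3*d + 473*V^13*Y^3 + 186*V^13*Y^2*d + 123*V^13*Y^2 + 29*V^13*Y*d + 18*V^13*Y + 2*V^13*d + V^13 + 8*V^12*Y^8*d + 8*V^12*Y^8 + 56*V^12*Y^7*d + 56*V^12*Y^7 + 154*V^12*Y^6*d + 154*V^12*Y^6 + 228*V^12*Y^5*d + 228*V^12*Y^5 + 202*V^12*Y^4*d + 202*V^12*Y^4 + 112*V^12*Y^3*d + 112*V^12*Y^3 + 40*V^12*Y^2*d + 40*V^12*Y^2 + 9*V^12*Y*d + 9*V^12*Y + V^12*d + V^12 + 2*V^11*Y^10 + 31*V^11*Y^9 + 141*V^11*Y^8 + 342*V^11*Y^7 + 513*V^11*Y^6 + 500*V^11*Y^5 + 321*V^11*Y^4 + 132*V^11*Y^3 + 32*V^11*Y^2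 + 3*V^11*Y - 11*V^10*Y^8 - 76*V^10*Y^7 - 228*V^10*Y^6 - 373*V^10*Y^5 - 362*V^10*Y^4 - 212*V^10*Y^3 - 73*V^10*Y^2 - 13*V^10*Y - V^10 - V^9*Y^10 - 25*V^9*Y^9 - 123*V^9*Y^8 - 332*V^9*Y^7 - 12*V^9*Y^6*d - 554*V^9*Y^6 - 48*V^9*Y^5*d - 598*V^9*Y^5 - 83*V^9*Y^4*d - 427*V^9*Y^4 - 77*V^9*Y^3*d - 204*V^9*Y^3 - 39*V^9*Y^2*d - 63*V^9*Y^2 - 10*V^9*Y*d - 12*V^9*Y - V^9*d - V^9 - 9*V^8*Y^8*d - 14*V^8*Y^8 - 72*V^8*Y^7*d - 120*V^8*Y^7 - 248*V^8*Y^6*d - 424*V^8*Y^6 - 454*V^8*Y^5*d - 786*V^8*Y^5 - 480*V^8*Y^4*d - 839*V^8*Y^4 - 302*V^8*Y^3*d - 531*V^8*Y^3 - 112*V^8*Y^2*d - 196*V^8*Y^2 - 23*V^8*Y*d - 38*V^8*Y - 2*V^8*d - 3*V^8 - 14*V^7*Y^6*d - 10*V^7*Y^6 - 90*V^7*Y^5*d - 62*V^7*Y^5 - 199*V^7*Y^4*d - 134*V^7*Y^4 - 213*V^7*Y^3*d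 - 143*V^7*Y^3 - 120*V^7*Y^2*d - 82*V^7*Y^2 - 35*V^7*Y*d - 25*V^7*Y - 4*V^7*d - 3*V^7 - 3*V^6*Y^7 - 11*V^6*Y^6 - 26*V^6*Y^5 - 4*V^6*Y^4*d - 30*V^6*Y^4 - 12*V^6*Y^3*d - 17*V^6*Y^3 - 13*V^6*Y^2*d - 4*V^6*Y^2 - 6*V^6*Y*d - V^6*d + 2*V^5*Y^6 + 11*V^5*Y^5 + 31*V^5*Y^4 + 41*V^5*Y^3 + 26*V^5*Y^2 + 8*V^5*Y + V^5 + 2*V^4*Y^7 + 7*V^4*Y^6 + 18*V^4*Y^5 + 3*V^4*Y^4*d + 26*V^4*Y^4 + 11*V^4*Y^3*d + 26*V^4*Y^3 + 15*V^4*Y^2*d + 18*V^4*Y^2 + 7*V^4*Y*d + 7*V^4*Y + V^4*d + V^4 + V^3*Y^6*d + 2*V^3*Y^6 + 6*V^3*Y^5*d + 16*V^3*Y^5 + 19*V^3*Y^4*d + 53*V^3*Y^4 + 28*V^3*Y^3*d + 79*V^3*Y^3 + 18*V^3*Y^2*d + 53*V^3*Y^2 + 6*V^3*Y*d + 15*V^3*Y + V^3*d + 2*V^3 + 3*V^2*Y^4*d + 4*V^2*Y^4 + 19*V^2*Y^3*d + 23*V^2*Y^3 + 34*V^2*Y^2*d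 + 42*V^2*Y^2 + 19*V^2*Y*d + 24*V^2*Y + 3*V^2*d + 4*V^2 + 3*V*Y^2*d + V*Y^2 + 10*V*Y*d + 5*V*Y + 3*V*d + 2*V + d) * h0

theorem quoD {A : Type*} [CommRing A] {V Y : A} (h0 : (8 : A) = 0)
    (hr : V ^ 5 * (1 + 2 * Y) ^ 2 * (1 + Y) = Y) : nevD V Y = NmD V Y * X1D V Y := by
  unfold nevD NmD X1D
  linear_combination (4*V^3*Y^2 - 3*V^3 - 2*V^2*Y - V^2 + V + 4*Y - 1) * hr + (-2*V^8*Y^5 - 5*V^8*Y^4 - 3*V^8*Y^3 + 2*V^8*Y^2 + 2*V^8*Y - 2*V^7*Y^5 + V^7*Y - V^7 - 2*V^6*Y^5 - V^6*Y^4 - 3*V^6*Y^3 - 4*V^6*Y^2 - V^6*Y - V^6 - 2*V^5*Y^5 - 4*V^5*Y^4 - 6*V^5*Y^3 - 4*V^5*Y^2 - V^5*Y - V^5 - 4*V^4*Y^4 - 5*V^4*Y^3 - 2*V^4*Y - 2*V^4 - 2*V^3*Y^5 - V^3*Y^4 - 7*V^3*Y^3 - 2*V^3*Y^2 - 2*V^3*Y - V^3 - 2*V^2*Y^4 - V^2*Y^3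 - 2*V^2*Y^2 - 2*V^2*Y - V^2 - V*Y^4 - V*Y^3 - 2*V*Y - V - 2*Y^4 + Y^3 - Y) * h0

/-- odd part -/
def oaD {A : Type*} [CommRing A] (v y : A) : A := (4*y^2 - 2*y + 2) + v * (4*y^3 - 2*y + 2) + v^2 * (4*y^3 + 4*y^2 + 2*y + 2) + v^3 * (2*y^2 + y - 1) + v^4 * (2*y^2 - 3*y + 3)

theorem map_oaD {A B F : Type*} [CommRing A] [CommRing B] [FunLike F A B] [RingHomClass F A B]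
    (f : F) (v y : A) : f (oaD v y) = oaD (f v) (f y) := by
  simp only [oaD, map_add, map_sub, map_neg, map_mul, map_pow, map_one, map_ofNat, map_zero]

theorem s2D {A : Type*} [CommRing A] {v V y Y d : A} (h0 : (8 : A) = 0) (hr : V ^ 5 * (1 + 2 * Y) ^ 2 * (1 + Y) = Y)
    (hd : d ^ 2 = V * (1 + 3 * Y + Y ^ 2)) (hv : v = d - V ^ 3 * (1 + 2 * Y) * (1 + Y))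
    (hy : (1 + 2 * Y) ^ 2 * y = Y + V ^ 2 * (1 + 2 * Y) * (1 + Y) * v) :
    X1D v y = X2D V Y + d * oaD V Y := by
  unfold X1D
  rw [y3_8 h0 hr hd hv hy, y2_8 h0 hr hd hv hy, y1_8 h0 hr hd hv hy, v4_8 h0 hr hd hv hy, v3_8 h0 hr hd hv hy, v2_8 h0 hr hd hv hy, v1_8 h0 hr hd hv hy]
  unfold X2D oaD
  linear_combination (64*V^6*Y^6 + 160*V^6*Y^5 + 128*V^6*Y^4 + 56*V^6*Y^3 + 44*V^6*Y^2 + 16*V^6*Y - 4*V^6 + 64*V^5*Y^7 + 160*V^5*Y^6 + 112*V^5*Y^5 - 16*V^5*Y^3 - 2*V^5*Y^2 - 4*V^5*Y - 2*V^5 + 64*V^3*Y^7 + 64*V^3*Y^6 + 16*V^3*Y^5 + 32*V^3*Y^4 + 12*V^3*Y^3 + 4*V^3*Y + 8*V^2*Y^3 + 4*V^2*Y^2 - 2*V^2*Y + 2*V^2) * hd + (4*V^2*Y^3 + 4*V^2 + 4*V*Y^3*d - 2*V*Y^3 + 4*V*Y*d - 2*V - 2*Y*d - 2*d) * hr + (8*V^7*Y^8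 + 44*V^7*Y^7 + 82*V^7*Y^6 + 71*V^7*Y^5 + 40*V^7*Y^4 + 23*V^7*Y^3 + 7*V^7*Y^2 - 2*V^7*Y - V^7 + 8*V^6*Y^9 + 44*V^6*Y^8 + 82*V^6*Y^7 - 8*V^6*Y^6*d + 63*V^6*Y^6 - 19*V^6*Y^5*d + 14*V^6*Y^5 - 18*V^6*Y^4*d - 5*V^6*Y^4 - 12*V^6*Y^3*d - 2*V^6*Y^3 - 7*V^6*Y^2*d - 2*V^6*Y*d - 2*V^5*Y^5*d - 3*V^5*Y^4*d + V^5*Y^3*d + 3*V^5*Y^2*d + V^5*Y*d + 8*V^4*Y^9 + 32*V^4*Y^8 + 16*V^4*Y^7*d + 28*V^4*Y^7 + 28*V^4*Y^6*d + 12*V^4*Y^6 + 18*V^4*Y^5*d + 14*V^4*Y^5 + 6*V^4*Y^4*d + 8*V^4*Y^4 + 7*V^4*Y^3*d + 8*V^4*Y^2*d - 2*V^4*Y^2 + 2*V^4*Y*d - V^4*Y - V^4 + 8*V^3*Y^8*d + 8*V^3*Y^7*d + 18*V^3*Y^6*d - 2*V^3*Y^6 + 30*V^3*Y^5*d - 4*V^3*Y^5 + 22*V^3*Y^4*d + 10*V^3*Y^3*d + 2*V^3*Y^3 + 8*V^2*Y^8 + 8*V^2*Y^7 + 2*V^2*Y^6 + 2*V^2*Y^5*d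 - 4*V^2*Y^5 + V^2*Y^4*d + V^2*Y^4 + V^2*Y^3*d + 4*V^2*Y^3 + 2*V^2*Y^2*d + 3*V^2*Y^2 + V^2*Y + 8*V*Y^8*d + 4*V*Y^8 - 4*V*Y^7*d + 8*V*Y^7 + 4*V*Y^6*d + 5*V*Y^6 - 3*V*Y^5*d + 8*V*Y^5 + 6*V*Y^4*d + 9*V*Y^4 - 2*V*Y^3*d + 9*V*Y^3 + 2*V*Y^2*d + 4*V*Y^2 + V*Y + 2*Y^6 + Y^4*d + Y^3*d - 2*Y^3 - Y^2*d - Y^2) * h0

/-- even part -/
def ecD {A : Type*} [CommRing A] (v y : A) : A := (4*y^4 + 4*y^3 - 2*y^2 - 2*y + 1) + v * (2*y^4 - 2*y^3 - 3*y + 1) + v^2 * (4*y^4 + 4*y^3 + 4*y^2 - 2*y + 2) + v^3 * (2*y^4 - 2*y^3 + 3*y^2 + 4*y - 3) + v^4 * (4*y^4 + 4*y^2 - 2*y - 2)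

theorem map_ecD {A B F : Type*} [CommRing A] [CommRing B] [FunLike F A B] [RingHomClass F A B]
    (f : F) (v y : A) : f (ecD v y) = ecD (f v) (f y) := by
  simp only [ecD, map_add, map_sub, map_neg, map_mul, map_pow, map_one, map_ofNat, map_zero]

theorem s3D {A : Type*} [CommRing A] {v V y Y d : A} (h0 : (8 : A) = 0) (hr : V ^ 5 * (1 + 2 * Y) ^ 2 * (1 + Y) = Y)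
    (hd : d ^ 2 = V * (1 + 3 * Y + Y ^ 2)) (hv : v = d - V ^ 3 * (1 + 2 * Y) * (1 + Y))
    (hy : (1 + 2 * Y) ^ 2 * y = Y + V ^ 2 * (1 + 2 * Y) * (1 + Y) * v) :
    X2D v y = ecD V Y + d * DeD V Y := by
  unfold X2D
  rw [y4_8 h0 hr hd hv hy, y3_8 h0 hr hd hv hy, y2_8 h0 hr hd hv hy, y1_8 h0 hr hd hv hy, v4_8 h0 hr hd hv hy, v3_8 h0 hr hd hv hy, v2_8 h0 hr hd hv hy, v1_8 h0 hr hd hv hy]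
  unfold ecD DeD
  linear_combination (64*V^6*Y^6 + 160*V^6*Y^5 + 176*V^6*Y^4 + 144*V^6*Y^3 + 80*V^6*Y^2 + 16*V^6*Y + 64*V^5*Y^7 + 48*V^5*Y^6 + 16*V^5*Y^5 + 100*V^5*Y^4 + 32*V^5*Y^3 - 32*V^5*Y^2 - 4*V^5 - 32*V^3*Y^6 - 32*V^3*Y^5 + 16*V^3*Y^4 - 4*V^3*Y^3 - 12*V^3*Y^2 + 6*V^3*Y - 2*V^3 + 16*V^2*Y^5 + 20*V^2*Y^4 + 2*V^2*Y^3 + 6*V^2*Y^2 + 6*V^2*Y - 2*V^2) * hd + (4*V*Y^5 + 4*V*Y^3*d + 4*V*Y^3 + 4*V*Y^2 + 2*V*Y*d - 2*V*d + 4*V + 2*Y^3*d - 2*Y^2*d - 2*Y*d + 2*d) * hr + (8*V^7*Y^8 + 44*V^7*Y^7 + 90*V^7*Y^6 + 104*V^7*Y^5 + 86*V^7*Y^4 + 50*V^7*Y^3 + 16*V^7*Y^2 + 2*V^7*Y + 8*V^6*Y^9 + 28*V^6*Y^8 + 24*V^6*Y^7 - 2*V^6*Y^6*d + 20*V^6*Y^6 - V^6*Y^5*d + 37*V^6*Y^5 + 4*V^6*Y^4*d + 14*V^6*Y^4 + 3*V^6*Y^3*d - 13*V^6*Y^3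 - 9*V^6*Y^2 + V^6*Y*d - 4*V^6*Y + V^6*d - V^6 - 4*V^5*Y^7*d - 12*V^5*Y^6*d - 11*V^5*Y^5*d - 3*V^5*Y^4*d - 2*V^5*Y^3*d - 3*V^5*Y^2*d - V^5*Y*d - 4*V^4*Y^8 + 16*V^4*Y^7*d - 16*V^4*Y^7 + 28*V^4*Y^6*d - 14*V^4*Y^6 + 22*V^4*Y^5*d + 6*V^4*Y^5 + 9*V^4*Y^4*d + 9*V^4*Y^4 + 4*V^4*Y^3 + V^4*Y^2*d + 3*V^4*Y^2 + V^4*Y + V^4*d + 8*V^3*Y^8*d - 4*V^3*Y^8 + 8*V^3*Y^7*d - 4*V^3*Y^7 + 6*V^3*Y^6*d + 8*V^3*Y^6 - V^3*Y^5*d + 16*V^3*Y^5 - V^3*Y^4*d + 9*V^3*Y^4 + 12*V^3*Y^3*d + 3*V^3*Y^3 + 7*V^3*Y^2*d + V^3*Y^2 + 2*V^3*Y*d - V^3*Y + 8*V^2*Y^8 + 8*V^2*Y^7 + 2*V^2*Y^5*d - 12*V^2*Y^5 + 3*V^2*Y^4*d - 13*V^2*Y^4 + V^2*Y^3*d - 6*V^2*Y^3 + V^2*Y^2*d - V^2*Y^2 + V^2*Y*d + V^2*Y + 4*V*Y^8 + 8*V*Y^7 - 6*V*Y^6*d + 3*V*Y^6 - 5*V*Y^5*d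 - 3*V*Y^5 - 11*V*Y^4 - 2*V*Y^3*d - 9*V*Y^3 - 3*V*Y^2 - V*Y*d + V*Y + 2*Y^6*d + 2*Y^6 - Y^4*d - 2*Y^4 - 2*Y^3*d - 4*Y^3) * h0

theorem sqD {A : Type*} [CommRing A] {V Y : A} (h0 : (16 : A) = 0)
    (hr : V ^ 5 * (1 + 2 * Y) ^ 2 * (1 + Y) = Y) :
    V * (1 + 3 * Y + Y ^ 2) * DeD V Y ^ 2 = ZD V Y := by
  unfold DeD ZD
  linear_combination (4*V^2*Y^7 + 8*V^2*Y^6 + 4*V^2*Y^5 + 4*V^2*Y^4 + 8*V^2*Y^3 + 4*V^2*Y^2 + 8*V*Y^5 + 8*V*Y^4 + 8*V*Y^2 + 8*V*Y + 8*Y^5 + 8*Y^4 + 4*Y^3 + 8*Y^2 + 8*Y + 4) * hr + (V^9*Y^8 + 3*V^9*Y^7 + 3*V^9*Y^6 + 6*V^9*Y^5 + 3*V^9*Y^4 + 3*V^9*Y^3 + V^9*Y^2 + 2*V^8*Y^9 + 5*V^8*Y^8 + 3*V^8*Y^7 + 11*V^8*Y^6 + 6*V^8*Y^5 + 7*V^8*Y^4 + 5*V^8*Y^3 + V^8*Y^2 - 2*V^7*Y^9 - 4*V^7*Y^8 + 8*V^7*Y^7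 + 6*V^7*Y^6 + 2*V^7*Y^5 + 2*V^7*Y^4 - 3*V^7*Y^3 - 4*V^7*Y^2 - V^7*Y + 2*V^6*Y^9 + 7*V^6*Y^8 + 5*V^6*Y^7 + 3*V^6*Y^6 + 15*V^6*Y^5 + 2*V^6*Y^4 - 5*V^6*Y^3 - 4*V^6*Y^2 - V^6*Y + 4*V^5*Y^9 + 9*V^5*Y^8 + 5*V^5*Y^7 + 22*V^5*Y^6 + 7*V^5*Y^5 + 2*V^5*Y^4 + V^5*Y^3 + 2*V^4*Y^10 + 4*V^4*Y^9 + 2*V^4*Y^8 + 20*V^4*Y^7 + 16*V^4*Y^6 + 12*V^4*Y^5 + 12*V^4*Y^4 + 3*V^4*Y^3 - 2*V^4*Y^2 - V^4*Y + 2*V^3*Y^9 + 8*V^3*Y^8 + 8*V^3*Y^7 + 7*V^3*Y^6 + 16*V^3*Y^5 + 9*V^3*Y^4 - 4*V^3*Y^2 - 2*V^3*Y + 2*V^2*Y^9 + 5*V^2*Y^8 + 3*V^2*Y^7 + 12*V^2*Y^6 + 8*V^2*Y^5 + 10*V^2*Y^4 + 8*V^2*Y^3 + 3*V^2*Y^2 + V*Y^10 + 2*V*Y^9 + 6*V*Y^7 + 5*V*Y^6 + 4*V*Y^5 + 6*V*Y^4 + 5*V*Y^3 + 3*V*Y^2 + V*Y) * h0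

/-- odd part -/
def odD {A : Type*} [CommRing A] (v y : A) : A := (8*y^7 + 8*y^6 + 8*y^5 - 4*y^4 + 8*y^3 + 6*y^2 + 3*y + 1) + v * (8*y^2 + 4*y - 4) + v^2 * (8*y^3 + 8*y^2 + 4*y + 4) + v^3 * (8*y^4 + 4*y^3 + 8*y^2 + 4*y + 8) + v^4 * (8*y^5 + 8*y^4 - 4*y^2 + 4)

theorem map_odD {A B F : Type*} [CommRing A] [CommRing B] [FunLike F A B] [RingHomClass F A B]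
    (f : F) (v y : A) : f (odD v y) = odD (f v) (f y) := by
  simp only [odD, map_add, map_sub, map_neg, map_mul, map_pow, map_one, map_ofNat, map_zero]

theorem s5D {A : Type*} [CommRing A] {v V y Y d : A} (h0 : (16 : A) = 0) (hr : V ^ 5 * (1 + 2 * Y) ^ 2 * (1 + Y) = Y)
    (hd : d ^ 2 = V * (1 + 3 * Y + Y ^ 2)) (hv : v = d - V ^ 3 * (1 + 2 * Y) * (1 + Y))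
    (hy : (1 + 2 * Y) ^ 2 * y = Y + V ^ 2 * (1 + 2 * Y) * (1 + Y) * v) :
    ZD v y = 8 * zeD V Y + d * odD V Y := by
  unfold ZD
  rw [y8_16 h0 hr hd hv hy, y7_16 h0 hr hd hv hy, y6_16 h0 hr hd hv hy, y5_16 h0 hr hd hv hy, y4_16 h0 hr hd hv hy, y3_16 h0 hr hd hv hy, y2_16 h0 hr hd hv hy, y1_16 h0 hr hd hv hy, v4_16 h0 hr hd hv hy, v3_16 h0 hr hd hv hy, v2_16 h0 hr hd hv hy, v1_16 h0 hr hd hv hy]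
  unfold zeD odD
  linear_combination (768*V^6*Y^10 + 896*V^6*Y^9 + 960*V^6*Y^8 + 256*V^6*Y^7 + 96*V^6*Y^6 - 224*V^6*Y^5 + 32*V^6*Y^4 - 112*V^6*Y^3 + 16*V^6*Y^2 + 16*V^6*Y - 16*V^6 - 384*V^5*Y^9 - 704*V^5*Y^8 - 672*V^5*Y^7 - 1040*V^5*Y^6 - 944*V^5*Y^5 - 408*V^5*Y^4 - 184*V^5*Y^3 - 40*V^5*Y^2 - 24*V^5*Y - 16*V^5 + 384*V^3*Y^9 + 448*V^3*Y^8 + 96*V^3*Y^7 + 448*V^3*Y^6 + 208*V^3*Y^5 - 64*V^3*Y^4 + 56*V^3*Y^3 - 12*V^3*Y^2 + 16*V^3*Y + 4*V^3 + 40*V^2*Y^7 + 16*V^2*Y^6 - 36*V^2*Y^5 - 60*V^2*Y^4 + 150*V^2*Y^3 - 23*V^2*Y^2 + 12*V^2*Y - 7*V^2) * hd + (8*V*Y^5 + 8*V*Y^4 + 4*V*Y^2*d + 8*V*Y^2 + 8*V*Y*d + 8*V*Y + 4*V*d + 8*Y^7*d + 8*Y^6*d - 4*Y^5*d + 4*Y^4*d + 4*Y^3*d - 5*Y^2*d + 6*Y*d + 7*d) * hr + (48*V^7*Y^12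 + 200*V^7*Y^11 + 276*V^7*Y^10 + 252*V^7*Y^9 + 114*V^7*Y^8 + 20*V^7*Y^7 - 34*V^7*Y^6 - 15*V^7*Y^5 - 18*V^7*Y^4 - 3*V^7*Y^3 + 3*V^7*Y^2 - 2*V^7*Y - V^7 + 48*V^6*Y^11*d - 24*V^6*Y^11 - 16*V^6*Y^10*d - 116*V^6*Y^10 + 72*V^6*Y^9*d - 198*V^6*Y^9 - 10*V^6*Y^8*d - 237*V^6*Y^8 - 4*V^6*Y^7*d - 302*V^6*Y^7 + 31*V^6*Y^6*d - 274*V^6*Y^6 - 39*V^6*Y^5*d - 152*V^6*Y^5 + 5*V^6*Y^4*d - 69*V^6*Y^4 - 8*V^6*Y^3*d - 27*V^6*Y^3 - 5*V^6*Y^2*d - 11*V^6*Y^2 - V^6*Y*d - 5*V^6*Y - V^6*d - V^6 - 2*V^5*Y^10*d - 11*V^5*Y^9*d - 15*V^5*Y^8*d - 3*V^5*Y^7*d + 11*V^5*Y^6*d - 7*V^5*Y^5*d - 22*V^5*Y^4*d - 10*V^5*Y^3*d - 5*V^5*Y^2*d - 2*V^5*Y*d + 16*V^4*Y^12 + 64*V^4*Y^11*d + 8*V^4*Y^11 + 40*V^4*Y^10*d + 108*V^4*Y^10 + 48*V^4*Y^9*d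 + 76*V^4*Y^9 + 24*V^4*Y^8*d + 62*V^4*Y^8 + 42*V^4*Y^7*d + 110*V^4*Y^7 + 35*V^4*Y^6*d + 52*V^4*Y^6 + 10*V^4*Y^5*d + 30*V^4*Y^5 - 12*V^4*Y^4*d - 16*V^4*Y^4 - 7*V^4*Y^3*d + 7*V^4*Y^3 + V^4*Y^2*d + 5*V^4*Y^2 - V^4*Y*d + V^4*Y + V^4 - 16*V^3*Y^10*d + 3*V^3*Y^10 - 8*V^3*Y^9*d + 11*V^3*Y^9 + 28*V^3*Y^8*d + 22*V^3*Y^8 + 58*V^3*Y^7*d + 24*V^3*Y^7 + 91*V^3*Y^6*d + 19*V^3*Y^6 + 55*V^3*Y^5*d + 27*V^3*Y^5 + 3*V^3*Y^4*d + 42*V^3*Y^4 + 6*V^3*Y^3*d + 8*V^3*Y^3 + V^3*Y^2*d + V^3*Y*d - V^3*Y - V^3 + 16*V^2*Y^12 - 16*V^2*Y^11 - 12*V^2*Y^10 + 8*V^2*Y^9 + 32*V^2*Y^8 + 6*V^2*Y^7*d + 40*V^2*Y^7 + 6*V^2*Y^6*d + V^2*Y^6 - V^2*Y^5*d - 3*V^2*Y^5 - 3*V^2*Y^4*d - 6*V^2*Y^4 - V^2*Y^3*d + 2*V^2*Y^3 - 3*V^2*Y^2*d + 8*V*Y^10*d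 + 8*V*Y^10 + 4*V*Y^9*d + 14*V*Y^9 - 14*V*Y^8*d - V*Y^8 - 16*V*Y^7*d - 18*V*Y^7 - 15*V*Y^6*d - 34*V*Y^6 + 2*V*Y^5*d - 10*V*Y^5 + 2*V*Y^4*d + 7*V*Y^4 - 8*V*Y^3*d + V*Y^3 - V*Y*d - Y^8*d + 2*Y^8 - 2*Y^7*d - 2*Y^7 - 4*Y^6*d - 3*Y^6 - 5*Y^5*d + 6*Y^5 - 5*Y^4*d + 7*Y^4 - 6*Y^3*d + Y^2*d - 2*Y^2) * h0

/-- odd part -/
def oeD {A : Type*} [CommRing A] (v y : A) : A := v * (y^3 + y^2 + y + 1) + v^2 * (y + 1) + v^3 * (y^2 + y)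

theorem map_oeD {A B F : Type*} [CommRing A] [CommRing B] [FunLike F A B] [RingHomClass F A B]
    (f : F) (v y : A) : f (oeD v y) = oeD (f v) (f y) := by
  simp only [oeD, map_add, map_sub, map_neg, map_mul, map_pow, map_one, map_ofNat, map_zero]

theorem s6D {A : Type*} [CommRing A] {v V y Y d : A} (h0 : (2 : A) = 0) (hr : V ^ 5 * (1 + 2 * Y) ^ 2 * (1 + Y) = Y)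
    (hd : d ^ 2 = V * (1 + 3 * Y + Y ^ 2)) (hv : v = d - V ^ 3 * (1 + 2 * Y) * (1 + Y))
    (hy : (1 + 2 * Y) ^ 2 * y = Y + V ^ 2 * (1 + 2 * Y) * (1 + Y) * v) :
    zeD v y = d * oeD V Y := by
  unfold zeD
  rw [y8_2 h0 hr hd hv hy, y7_2 h0 hr hd hv hy, y6_2 h0 hr hd hv hy, y5_2 h0 hr hd hv hy, y4_2 h0 hr hd hv hy, y3_2 h0 hr hd hv hy, y1_2 h0 hr hd hv hy, v3_2 h0 hr hd hv hy, v2_2 h0 hr hd hv hy]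
  unfold oeD
  linear_combination (V^3*Y^4 + 2*V^3*Y^3 + 2*V^3*Y^2 + 2*V^3*Y + V^3) * hd + (V*Y^4*d + V*d) * hr + (-2*V^6*Y^7*d - 4*V^6*Y^6*d - 2*V^6*Y^5*d + V^6*Y^4*d - 2*V^6*Y^2*d - V^6*Y*d + V^4*Y^6 + 4*V^4*Y^5 + 6*V^4*Y^4 + 6*V^4*Y^3 + 5*V^4*Y^2 + 3*V^4*Y + V^4 + V*Y^5*d + V*Y^4*d + V*Y^3 + Y^2) * h0


end Pool.Agent.N915.RR
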