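import Pool.Agent.V11172.PdC

/-!
Jacobi's triple product with signs:
`∑_j (-1)^j X^(k j (j-1)/2 + a j) = ∏ (1 - X^(k (i+1) - a)) (1 - X^(k i + a)) (1 - X^(k (i+1)))`.
-/

set_option autoImplicit false

namespace Pool.Agent.N915.RR

open Finset Pool.Agent.Y246.Z700 Pool.Agent.Helper308.QS Pool.Agent.V11172.Pd

section field

variable {F : Type*} [Field F]

open Pool.Agent.H464R3.J

theorem prod_dn_s {x : F} (hx : x ≠ 0) (k a n : ℕ) (ha : a ≤ k) :
    (∏ j ∈ range n, (1 - (x ^ a * (x ^ (k * n))⁻¹) * (x ^ k) ^ j)) *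
      x ^ (∑ i ∈ range n, (k * (i + 1) - a)) =
      (-1) ^ n * ∏ i ∈ range n, (1 - x ^ (k * (i + 1) - a)) := by
  have e0 : (-1 : F) ^ n * ∏ i ∈ range n, (1 - x ^ (k * (i + 1) - a)) =
      ∏ i ∈ range n, (-1 * (1 - x ^ (k * (i + 1) - a))) := by
    rw [prod_mul_distrib, prod_const, card_range]
  rw [e0, ← Finset.prod_range_reflect, ← Finset.prod_pow_eq_pow_sum, ← prod_mul_distrib]
  refine prod_congr rfl fun i hi => ?_
  rw [mem_range] at hi
  obtain ⟨r, rfl⟩ := Nat.exists_eq_add_of_lt hi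
  have e1 : i + r + 1 - 1 - i = r := by omega
  rw [e1]
  have h : a ≤ k * (i + 1) := ha.trans (Nat.le_mul_of_pos_right _ (by omega))
  obtain ⟨t, ht⟩ := Nat.exists_eq_add_of_le h
  have e : k * (i + 1) - a = t := by omega
  rw [e]
  have e2 : x ^ (k * (i + r + 1)) = x ^ a * x ^ t * (x ^ k) ^ r := by
    rw [← pow_mul, ← pow_add, ← pow_add]
    congr 1
    rw [show k * (i + r + 1) = k * (i + 1) + k * r by ring, ht]
  rw [e2]
  have h1 : x ^ a ≠ 0 := pow_ne_zero _ hx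
  have h2 : x ^ t ≠ 0 := pow_ne_zero _ hx
  have h3 : (x ^ k) ^ r ≠ 0 := pow_ne_zero _ (pow_ne_zero _ hx)
  field_simp
  ring

theorem prod_up_s {x : F} (hx : x ≠ 0) (k a n : ℕ) :
    (∏ j ∈ range n, (1 - (x ^ a * (x ^ (k * n))⁻¹) * (x ^ k) ^ (n + j))) =
      ∏ i ∈ range n, (1 - x ^ (k * i + a)) := by
  refine prod_congr rfl fun j _ => ?_
  have h2 : x ^ (k * n) ≠ 0 := pow_ne_zero _ hx
  rw [← pow_mul, show k * (n + j) = k * n + k * j by ring, pow_add, pow_add x (k * j) a]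
  field_simp

/-- finite triple product -/
theorem fin_jtp_s {x : F} (hx : x ≠ 0) (k a n : ℕ) (ha : a ≤ k) (hg : Gen (x ^ k) (2 * n))
    (e : ℤ → ℤ) (he : ∀ j, 2 * e j = k * j * (j - 1) + 2 * a * j) (he0 : ∀ j, 0 ≤ e j) :
    (∏ i ∈ range n, (1 - x ^ (k * (i + 1) - a))) * (∏ i ∈ range n, (1 - x ^ (k * i + a))) =
      ∑ b ∈ range (2 * n + 1), f (x ^ k) (2 * n) / (f (x ^ k) b * f (x ^ k) (2 * n - b)) *
        ((-1) ^ (b + n) * x ^ ((e ((b : ℤ) - n)).toNat)) := by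
  have h := qbinom (q := x ^ k) (x ^ a * (x ^ (k * n))⁻¹) (2 * n) hg
  rw [show 2 * n = n + n by ring, Finset.prod_range_add, ← show 2 * n = n + n by ring] at h
  rw [prod_up_s hx] at h
  have hs : ((-1 : F)) ^ n * (-1) ^ n = 1 := by rw [← mul_pow]; simp
  have hd := prod_dn_s hx k a n ha
  have e0 : (∏ i ∈ range n, (1 - x ^ (k * (i + 1) - a))) * (∏ i ∈ range n, (1 - x ^ (k * i + a))) =
      (-1) ^ n * x ^ (∑ i ∈ range n, (k * (i + 1) - a)) *
      ((∏ j ∈ range n, (1 - (x ^ a * (x ^ (k * n))⁻¹) * (x ^ k) ^ j)) *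
        (∏ i ∈ range n, (1 - x ^ (k * i + a)))) := by
    linear_combination -((-1) ^ n * ∏ i ∈ range n, (1 - x ^ (k * i + a))) * hd -
      (∏ i ∈ range n, (1 - x ^ (k * (i + 1) - a))) * (∏ i ∈ range n, (1 - x ^ (k * i + a))) * hs
  rw [e0, h, Finset.mul_sum]
  refine Finset.sum_congr rfl fun b hb => ?_
  have hA : b ≤ 2 * n := Nat.lt_succ_iff.1 (Finset.mem_range.1 hb)
  set S := ∑ i ∈ range n, (k * (i + 1) - a) with hS
  have e1 : S + k * b.choose 2 + a * b = (e ((b : ℤ) - n)).toNat + k * n * b := by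
    have h1 := sum_exp k a n ha
    rw [← hS] at h1
    have h2 := choose_two' b
    have h3 := he ((b : ℤ) - n)
    have h4 : ((e ((b : ℤ) - n)).toNat : ℤ) = e ((b : ℤ) - n) := Int.toNat_of_nonneg (he0 _)
    have h1' : 2 * (S : ℤ) + 2 * a * n = k * n * (n + 1) := by exact_mod_cast h1
    have h5 : 2 * ((S : ℤ) + k * b.choose 2 + a * b) =
        2 * (((e ((b : ℤ) - n)).toNat : ℤ) + k * n * b) := by
      rw [h4]
      linear_combination h1' + (k : ℤ) * h2 - h3
    have h6 : ((S + k * b.choose 2 + a * b : ℕ) : ℤ) =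
        (((e ((b : ℤ) - n)).toNat + k * n * b : ℕ) : ℤ) := by
      push_cast
      linarith
    exact_mod_cast h6
  have e2 : x ^ S * ((x ^ k) ^ (b.choose 2) * (x ^ a * (x ^ (k * n))⁻¹) ^ b) =
      x ^ ((e ((b : ℤ) - n)).toNat) := by
    have h2 : x ^ (k * n * b) ≠ 0 := pow_ne_zero _ hx
    rw [mul_pow (x ^ a), inv_pow, ← pow_mul x (k * n) b,
      ← pow_mul, ← pow_mul x a]
    calc x ^ S * (x ^ (k * b.choose 2) * (x ^ (a * b) * (x ^ (k * n * b))⁻¹))
        = (x ^ S * x ^ (k * b.choose 2) * x ^ (a * b)) *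
          (x ^ (k * n * b))⁻¹ := by ring
      _ = x ^ ((e ((b : ℤ) - n)).toNat) := by
          rw [← pow_add, ← pow_add, e1, pow_add, mul_assoc, mul_inv_cancel₀ h2, mul_one]
  rw [← e2, pow_add]
  ring

end field

open Polynomial

/-- polynomial form -/
theorem poly_jtp_s (k a n : ℕ) (hk : k ≠ 0) (ha : a ≤ k)
    (e : ℤ → ℤ) (he : ∀ j, 2 * e j = k * j * (j - 1) + 2 * a * j) (he0 : ∀ j, 0 ≤ e j) :
    (∏ i ∈ range n, (1 - (X : ℤ[X]) ^ (k * (i + 1) - a))) *
      (∏ i ∈ range n, (1 - (X : ℤ[X]) ^ (k * i + a))) * expand ℤ k (PP (2 * n)) =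
      ∑ b ∈ range (2 * n + 1), ((-1) ^ (b + n) * X ^ ((e ((b : ℤ) - n)).toNat)) *
        expand ℤ k ((∏ j ∈ Ico b (2 * n), (1 - X ^ (j + 1))) *
          ∏ j ∈ Ico (2 * n - b) (2 * n), (1 - X ^ (j + 1))) := by
  let F := FractionRing ℤ[X]
  have hinj : Function.Injective (algebraMap ℤ[X] F) := IsFractionRing.injective ℤ[X] F
  set x : F := algebraMap ℤ[X] F X with hx
  have hx0 : x ≠ 0 := by
    rw [hx, Ne, map_eq_zero_iff _ hinj]
    exact X_ne_zero
  have hg : ∀ N, Pool.Agent.H464R3.J.Gen (x ^ k) N := fun N => Gen_X k hk N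
  have hf : ∀ N, Pool.Agent.H464R3.J.f (x ^ k) N = algebraMap ℤ[X] F (expand ℤ k (PP N)) := by
    intro N
    unfold Pool.Agent.H464R3.J.f PP
    rw [map_prod, map_prod]
    refine Finset.prod_congr rfl fun j _ => ?_
    rw [map_sub, map_one, map_pow, expand_X, map_sub, map_one, map_pow, map_pow]
  have hPne : ∀ N, algebraMap ℤ[X] F (expand ℤ k (PP N)) ≠ 0 := fun N => by
    rw [← hf]
    exact (hg N).f_ne le_rfl
  apply hinj
  have h := fin_jtp_s hx0 k a n ha (hg _) e he he0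
  rw [map_mul, map_mul, map_prod, map_prod, map_sum]
  have c1 : ∏ i ∈ range n, algebraMap ℤ[X] F (1 - (X : ℤ[X]) ^ (k * (i + 1) - a)) =
      ∏ i ∈ range n, (1 - x ^ (k * (i + 1) - a)) := by
    refine Finset.prod_congr rfl fun j _ => ?_
    rw [map_sub, map_one, map_pow]
  have c2 : ∏ i ∈ range n, algebraMap ℤ[X] F (1 - (X : ℤ[X]) ^ (k * i + a)) =
      ∏ i ∈ range n, (1 - x ^ (k * i + a)) := by
    refine Finset.prod_congr rfl fun j _ => ?_
    rw [map_sub, map_one, map_pow]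
  rw [c1, c2, h, Finset.sum_mul]
  refine Finset.sum_congr rfl fun b hb => ?_
  have hA : b ≤ 2 * n := Nat.lt_succ_iff.1 (Finset.mem_range.1 hb)
  have e1 : PP (2 * n) = PP b * ∏ j ∈ Ico b (2 * n), (1 - X ^ (j + 1)) := by
    unfold PP
    rw [Finset.prod_range_mul_prod_Ico _ hA]
  have e2 : PP (2 * n) = PP (2 * n - b) * ∏ j ∈ Ico (2 * n - b) (2 * n), (1 - X ^ (j + 1)) := by
    unfold PP
    rw [Finset.prod_range_mul_prod_Ico _ (by omega)]
  rw [hf, hf, hf, map_mul (expand ℤ k), map_mul (algebraMap ℤ[X] F), map_mul (algebraMap ℤ[X] F),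
    map_mul (algebraMap ℤ[X] F), map_pow, map_pow, map_neg, map_one, ← hx]
  exact jtp_aux _ _ _ _ _ _ (hPne b) (hPne (2 * n - b))
    (by rw [← map_mul, ← map_mul, ← e1]) (by rw [← map_mul, ← map_mul, ← e2])

/-- the triple product modulo a power of the variable -/
theorem jtp_dvd_s (k a n : ℕ) (hk : k ≠ 0) (ha : a ≤ k)
    (e : ℤ → ℤ) (he : ∀ j, 2 * e j = k * j * (j - 1) + 2 * a * j) (he0 : ∀ j, 0 ≤ e j) :
    (X ^ (k * n) : ℤ[X]) ∣ (∏ i ∈ range n, (1 - (X : ℤ[X]) ^ (k * (i + 1) - a))) *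
      (∏ i ∈ range n, (1 - (X : ℤ[X]) ^ (k * i + a))) * expand ℤ k (PP (2 * n)) -
      ∑ b ∈ range (2 * n + 1), (-1) ^ (b + n) * X ^ ((e ((b : ℤ) - n)).toNat) := by
  rw [poly_jtp_s k a n hk ha e he he0, ← Finset.sum_sub_distrib]
  refine Finset.dvd_sum fun b hb => ?_
  have hA : b ≤ 2 * n := Nat.lt_succ_iff.1 (Finset.mem_range.1 hb)
  set U : ℤ[X] := ∏ j ∈ Ico b (2 * n), (1 - X ^ (j + 1)) with hU
  set V : ℤ[X] := ∏ j ∈ Ico (2 * n - b) (2 * n), (1 - X ^ (j + 1)) with hV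
  have h1 : (X ^ (min b (2 * n - b) + 1) : ℤ[X]) ∣ U - 1 :=
    dvd_prod_sub_one _ _ fun j hj => by
      have := (Finset.mem_Ico.1 hj).1
      omega
  have h2 : (X ^ (min b (2 * n - b) + 1) : ℤ[X]) ∣ V - 1 :=
    dvd_prod_sub_one _ _ fun j hj => by
      have := (Finset.mem_Ico.1 hj).1
      omega
  have h3 : (X ^ (min b (2 * n - b) + 1) : ℤ[X]) ∣ U * V - 1 := by
    have e : U * V - 1 = (U - 1) * V + (V - 1) := by ring
    rw [e]
    exact dvd_add (h1.mul_right _) h2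
  have h3' : (X ^ (k * (min b (2 * n - b) + 1)) : ℤ[X]) ∣ expand ℤ k (U * V) - 1 := by
    have h := map_dvd (expand ℤ k) h3
    rwa [map_pow, expand_X, ← pow_mul, map_sub, map_one] at h
  have h4 : (X ^ (k * n) : ℤ[X]) ∣ X ^ ((e ((b : ℤ) - n)).toNat) *
      X ^ (k * (min b (2 * n - b) + 1)) := by
    rw [← pow_add]
    refine pow_dvd_pow _ ?_
    have h5 := he ((b : ℤ) - n)
    have h6 : ((e ((b : ℤ) - n)).toNat : ℤ) = e ((b : ℤ) - n) := Int.toNat_of_nonneg (he0 _)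
    have hk' : (1 : ℤ) ≤ k := by exact_mod_cast Nat.one_le_iff_ne_zero.2 hk
    have ha' : (a : ℤ) ≤ k := by exact_mod_cast ha
    have ha0 : (0 : ℤ) ≤ a := by positivity
    zify
    rw [h6]
    rcases le_total b (2 * n - b) with hl | hl
    · rw [min_eq_left (by zify at hl; rw [Nat.cast_sub hA] at hl ⊢; push_cast at hl ⊢; linarith)]
      obtain ⟨m, hm⟩ : ∃ m : ℕ, b + m = n := ⟨n - b, by omega⟩
      have e1 : (b : ℤ) - n = -m := by rw [← hm]; push_cast; ring
      rw [e1] at h5 ⊢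
      have e2 : (n : ℤ) = b + m := by rw [← hm]; push_cast; ring
      rw [e2]
      have h7 : (0 : ℤ) ≤ k * ((m - 1) * (m - 2)) := by
        have : (0 : ℤ) ≤ ((m : ℤ) - 1) * (m - 2) := by
          rcases Nat.lt_or_ge m 2 with h | h
          · interval_cases m <;> norm_num
          · have : (2 : ℤ) ≤ m := by exact_mod_cast h
            nlinarith
        positivity
      have h8 : (0 : ℤ) ≤ (k - a) * m := mul_nonneg (by linarith) (by positivity)
      nlinarith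
    · rw [min_eq_right (by zify at hl; rw [Nat.cast_sub hA] at hl ⊢; push_cast at hl ⊢; linarith),
        Nat.cast_sub hA]
      obtain ⟨m, hm⟩ : ∃ m : ℕ, b = n + m := ⟨b - n, by omega⟩
      have e1 : (b : ℤ) - n = m := by rw [hm]; push_cast; ring
      rw [e1] at h5 ⊢
      have e2 : (b : ℤ) = n + m := by rw [hm]; push_cast; ring
      rw [e2]
      push_cast
      have h7 : (0 : ℤ) ≤ k * ((m - 1) * (m - 2)) := by
        have : (0 : ℤ) ≤ ((m : ℤ) - 1) * (m - 2) := by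
          rcases Nat.lt_or_ge m 2 with h | h
          · interval_cases m <;> norm_num
          · have : (2 : ℤ) ≤ m := by exact_mod_cast h
            nlinarith
        positivity
      have h8 : (0 : ℤ) ≤ a * m := by positivity
      nlinarith
  have h5 : (X ^ (k * n) : ℤ[X]) ∣ X ^ ((e ((b : ℤ) - n)).toNat) *
      (expand ℤ k (U * V) - 1) := h4.trans (mul_dvd_mul_left _ h3')
  have h6 := h5.mul_left ((-1 : ℤ[X]) ^ (b + n))
  rwa [← mul_assoc, mul_sub, mul_one] at h6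

open PowerSeries Pool.Agent.V11172.Ds in
theorem jtp_series_s (k a : ℕ) (hk : k ≠ 0) (ha : a ≤ k)
    (e : ℤ → ℤ) (he : ∀ j, 2 * e j = k * j * (j - 1) + 2 * a * j) (he0 : ∀ j, 0 ≤ e j) (hG : Gr e)
    {N n : ℕ} (h : N < n) :
    pr N (th sg e) = pr N (pm k (k - a) n * pm k a n * pm k k (2 * n)) := by
  have h1 := coe_dvd (jtp_dvd_s k a n hk ha e he he0)
  rw [Polynomial.coe_pow, Polynomial.coe_X, Polynomial.coe_sub] at h1
  have h2 : N + 1 ≤ k * n := by
    calc N + 1 ≤ n := h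
      _ ≤ k * n := Nat.le_mul_of_pos_left _ (Nat.pos_of_ne_zero hk)
  have h3 := pr_eq.2 ((pow_dvd_pow _ h2).trans h1)
  have c1 : (((∏ i ∈ range n, (1 - (Polynomial.X : Polynomial ℤ) ^ (k * (i + 1) - a))) *
      (∏ i ∈ range n, (1 - (Polynomial.X : Polynomial ℤ) ^ (k * i + a))) *
      Polynomial.expand ℤ k (PP (2 * n)) : Polynomial ℤ) : PowerSeries ℤ) =
      pm k (k - a) n * pm k a n * pm k k (2 * n) := by
    rw [Polynomial.coe_mul, Polynomial.coe_mul, coe_expand k hk, ← pm_expand k hk]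
    congr 1
    congr 1
    · rw [← Polynomial.coeToPowerSeries.ringHom_apply, map_prod, pm]
      refine Finset.prod_congr rfl fun j _ => ?_
      have : k * (j + 1) - a = k * j + (k - a) := by
        rw [mul_add, mul_one, Nat.add_sub_assoc ha]
      rw [this, map_sub, map_one, map_pow]
      simp
    · rw [← Polynomial.coeToPowerSeries.ringHom_apply, map_prod, pm]
      refine Finset.prod_congr rfl fun j _ => ?_
      rw [map_sub, map_one, map_pow]
      simp
  rw [c1] at h3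
  rw [h3, pr_eq']
  intro m hm
  rw [coeff_th hG m (B := n) (by omega), Polynomial.coeff_coe, Polynomial.finsetSum_coeff]
  refine (Finset.sum_nbij' (fun b : ℕ => (b : ℤ) - n) (fun i => (i + n).toNat) ?_ ?_ ?_ ?_ ?_).symm
  · intro b hb
    rw [mem_range] at hb
    rw [mem_Icc]
    omega
  · intro i hi
    rw [mem_Icc] at hi
    rw [mem_range]
    omega
  · intro b _
    omega
  · intro i hi
    rw [mem_Icc] at hi
    omega
  · intro b _
    have hc : ((-1 : ℤ[X]) ^ (b + n)) = Polynomial.C ((-1) ^ (b + n)) := by simp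
    rw [hc, Polynomial.coeff_C_mul, Polynomial.coeff_X_pow]
    have h0 := he0 ((b : ℤ) - n)
    have hsg : ((-1 : ℤ)) ^ (b + n) = sg ((b : ℤ) - n) := by
      unfold sg
      by_cases hp : Even (b + n)
      · rw [if_pos, hp.neg_one_pow]
        rw [Int.even_sub, Int.even_coe_nat, Int.even_coe_nat]
        exact Nat.even_add.1 hp
      · rw [if_neg, Nat.not_even_iff_odd.1 hp |>.neg_one_pow]
        rw [Int.even_sub, Int.even_coe_nat, Int.even_coe_nat]
        intro h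
        exact hp (Nat.even_add.2 h)
    by_cases hh : e ((b : ℤ) - n) = m
    · rw [if_pos hh, if_pos, mul_one, hsg]
      rw [hh]; simp
    · rw [if_neg hh, if_neg, mul_zero]
      intro h'
      apply hh
      omega

end Pool.Agent.N915.RR
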