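import Pool.Agent.N915.RR.Rel

/-!
The congruences modulo 3.
-/

set_option autoImplicit false

namespace Pool.Agent.N915.RR

open Finset PowerSeries Pool.Agent.Helper308.QS

/-- the derivation `q d/dq` -/
noncomputable def Th (A : Type*) [CommRing A] : Derivation A A⟦X⟧ A⟦X⟧ :=
  (X : A⟦X⟧) • PowerSeries.derivative A

theorem coeff_Th {A : Type*} [CommRing A] (f : A⟦X⟧) (n : ℕ) :
    coeff n (Th A f) = n * coeff n f := by
  rw [Th, Derivation.smul_apply, smul_eq_mul]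
  cases n with
  | zero => simp
  | succ n =>
    rw [coeff_succ_X_mul, coeff_derivative]
    push_cast
    ring

theorem Th_expand {A : Type*} [CommRing A] (f : A⟦X⟧) :
    Th A (expand 2 two_ne_zero f) = 2 * expand 2 two_ne_zero (Th A f) := by
  ext n
  rw [coeff_Th, two_mul, map_add, coeff_expand, coeff_expand]
  split_ifs with h
  · obtain ⟨m, rfl⟩ := h
    rw [coeff_Th, Nat.mul_div_cancel_left _ two_pos]
    push_cast
    ring
  · simp

theorem der_ofNat {R A : Type*} [CommRing R] [CommRing A] [Algebra R A] (θ : Derivation R A A)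
    (n : ℕ) [n.AtLeastTwo] : θ (no_index (OfNat.ofNat n : A)) = 0 := by
  have : (OfNat.ofNat n : A) = ((n : ℕ) : A) := (Nat.cast_ofNat (R := A) (n := n)).symm
  rw [this]
  exact θ.map_natCast n

theorem der2 {R A : Type*} [CommRing R] [CommRing A] [Algebra R A] (θ : Derivation R A A)
    (F D N s s2 N1 D1 N2 D2 : A) (hF : F * D = N) (hN : θ N = N1 * s) (hD : θ D = D1 * s)
    (hN1 : θ N1 = N2 * s) (hD1 : θ D1 = D2 * s) (hs : θ s = s2) :
    D ^ 3 * θ (θ F) = D ^ 2 * (N2 * s ^ 2 + N1 * s2) - 2 * D1 * s ^ 2 * (D * N1 - N * D1) -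
      D * N * (D2 * s ^ 2 + D1 * s2) := by
  have h1 := congrArg θ hF
  rw [Derivation.leibniz, hD, hN, smul_eq_mul, smul_eq_mul] at h1
  have h2 : D * θ F = (N1 - F * D1) * s := by linear_combination h1
  have h3 := congrArg θ h2
  rw [Derivation.leibniz, Derivation.leibniz, map_sub, Derivation.leibniz, hD, hN1, hD1, hs] at h3
  simp only [smul_eq_mul] at h3
  linear_combination D ^ 2 * h3 - 2 * D * D1 * s * h2 +
    (2 * D1 ^ 2 * s ^ 2 - D * (D2 * s ^ 2 + D1 * s2)) * hF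

theorem der1 {R A : Type*} [CommRing R] [CommRing A] [Algebra R A] (θ : Derivation R A A)
    (F D N s N1 D1 : A) (hF : F * D = N) (hN : θ N = N1 * s) (hD : θ D = D1 * s) :
    D ^ 2 * θ F = (D * N1 - N * D1) * s := by
  have h1 := congrArg θ hF
  rw [Derivation.leibniz, hD, hN, smul_eq_mul, smul_eq_mul] at h1
  linear_combination D * h1 - D1 * s * hF

instance : Fact (Nat.Prime 3) := ⟨Nat.prime_three⟩

/-- a series fixed by `q ↦ q^2` is constant -/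
theorem fixed_const {A : Type*} [CommRing A] (w : A⟦X⟧) (h : expand 2 two_ne_zero w = w) :
    w = C (constantCoeff w) := by
  have key : ∀ n, n ≠ 0 → coeff n w = 0 := by
    intro n
    induction n using Nat.strong_induction_on with
    | _ n ih =>
      intro hn
      rw [← h, coeff_expand]
      split_ifs with h2
      · exact ih (n / 2) (by omega) (by omega)
      · rfl
  ext n
  rw [coeff_C]
  split_ifs with h0
  · rw [h0, coeff_zero_eq_constantCoeff_apply]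
  · exact key n h0

section three

variable (r : (ZMod 3)⟦X⟧) (hr : constantCoeff r = 1)

theorem three0 : (3 : (ZMod 3)⟦X⟧) = 0 := by
  have h : (3 : (ZMod 3)⟦X⟧) = C (3 : ZMod 3) := by rw [map_ofNat]
  have h' : (3 : ZMod 3) = 0 := by decide
  rw [h, h', map_zero]

include hr in
theorem theta_v (v V : (ZMod 3)⟦X⟧) (hv : v = X * r) (hV : V = expand 2 two_ne_zero v)
    (h : V - v ^ 2 = v * V ^ 2 * (V + v ^ 2)) :
    Th (ZMod 3) v * (1 + v ^ 10) = v * (1 + v ^ 5 - v ^ 10) := by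
  have h3 := three0
  set a := Th (ZMod 3) v with ha
  set a2 := expand 2 two_ne_zero a with ha2
  have hTV : Th (ZMod 3) V = 2 * a2 := by rw [hV, Th_expand]
  have e := congrArg (Th (ZMod 3)) h
  simp only [map_sub, map_add, Derivation.leibniz, Derivation.leibniz_pow, smul_eq_mul, hTV, ← ha,
    nsmul_eq_mul, Nat.add_one_sub_one, pow_one] at e
  norm_num at e
  have e1 : a * (2 * v + V ^ 3) = 2 * a2 * (1 + v ^ 3 * V) := by
    linear_combination -e + (-a * v ^ 2 * V ^ 2 - 2 * a2 * v * V ^ 2 - 2 * a2 * v ^ 3 * V) * h3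
  have hv0 : constantCoeff v = 0 := by rw [hv, map_mul, constantCoeff_X, zero_mul]
  have hV0 : constantCoeff V = 0 := by rw [hV, constantCoeff_expand, hv0]
  set U : (ZMod 3)⟦X⟧ := 1 + v ^ 10 with hU
  have hUc : constantCoeff U = 1 := by simp [hU, hv0]
  set u := invOfUnit U 1 with hu
  have hUu : U * u = 1 := by
    rw [hu, mul_invOfUnit]; rw [hUc]; rfl
  have huc : constantCoeff u = 1 := by
    have := congrArg (constantCoeff (R := ZMod 3)) hUu
    rwa [map_mul, hUc, one_mul, map_one] at this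
  set u2 := expand 2 two_ne_zero u with hu2
  have hUu2 : (1 + V ^ 10) * u2 = 1 := by
    have := congrArg (expand 2 two_ne_zero) hUu
    rwa [map_mul, hU, map_add, map_one, map_pow, ← hV] at this
  set g := v * (1 + v ^ 5 - v ^ 10) * u with hg
  set g2 := expand 2 two_ne_zero g with hg2
  have hg2' : g2 = V * (1 + V ^ 5 - V ^ 10) * u2 := by
    rw [hg2, hg, map_mul, map_mul, map_sub, map_add, map_one, map_pow, map_pow, ← hV]
  have e2 : g * (2 * v + V ^ 3) = 2 * g2 * (1 + v ^ 3 * V) := by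
    rw [hg, hg2']
    have e3 : v * (1 + v ^ 5 - v ^ 10) * (1 + V ^ 10) * (2 * v + V ^ 3) -
      2 * V * (1 + V ^ 5 - V ^ 10) * (1 + v ^ 10) * (1 + v ^ 3 * V) = 0 := by
      linear_combination ((-V^10 + V^5 + 1) + v * (V^7 - V^2) + v^2 * (-V^9) + v^3 * (V) + v^5 * (-V^10 + 1) + v^7 * (V^9) + v^8 * (V) + v^9 * (V^8 + V^3) + v^10 * (V^10 - V^5 - 1)) * h +
        ((V^11 - V^6 - V) + v * (V^3) + v^2 * (V^10 + 1) + v^3 * (-V^2) + v^6 * (V^3) + v^7 * (1) + v^10 * (V^11) + v^12 * (-1) + v^13 * (V^12 - V^7 - V^2)) * h3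
    rw [hU] at hUu
    linear_combination u * u2 * e3 - v * (1 + v ^ 5 - v ^ 10) * (2 * v + V ^ 3) * u * hUu2 +
      2 * V * (1 + V ^ 5 - V ^ 10) * (1 + v ^ 3 * V) * u2 * hUu
  -- factor out `X`
  obtain ⟨a', ha'⟩ : ∃ a', a = X * a' := by
    apply X_dvd_iff.2
    rw [← coeff_zero_eq_constantCoeff_apply, ha, coeff_Th]
    simp
  have hac : constantCoeff a' = 1 := by
    have h1 : coeff 1 a = coeff 1 v := by rw [ha, coeff_Th]; simp
    rw [ha', hv] at h1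
    rw [show (1 : ℕ) = 0 + 1 by rfl, coeff_succ_X_mul, coeff_succ_X_mul,
      coeff_zero_eq_constantCoeff_apply, coeff_zero_eq_constantCoeff_apply, hr] at h1
    exact h1
  set g' := r * (1 + v ^ 5 - v ^ 10) * u with hg'
  have hgg : g = X * g' := by rw [hg, hg']; nth_rw 1 [hv]; ring
  have hgc : constantCoeff g' = 1 := by
    rw [hg', map_mul, map_mul, hr, huc]
    simp [hv0]
  have ea2 : a2 = X ^ 2 * expand 2 two_ne_zero a' := by rw [ha2, ha', map_mul, expand_X]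
  have eg2 : g2 = X ^ 2 * expand 2 two_ne_zero g' := by rw [hg2, hgg, map_mul, expand_X]
  have hne : (2 * v + V ^ 3) ≠ 0 := by
    intro h0
    have h1 : coeff 1 (2 * v + V ^ 3) = 2 := by
      have hV3 : V ^ 3 = X ^ 6 * (expand 2 two_ne_zero r) ^ 3 := by
        rw [hV, hv, map_mul, expand_X]; ring
      rw [map_add, hV3, coeff_X_pow_mul', if_neg (by norm_num), add_zero, hv]
      have : (2 : (ZMod 3)⟦X⟧) * (X * r) = X * (r + r) := by ring
      have h5 : coeff 1 (X * (r + r)) = coeff 0 (r + r) := coeff_succ_X_mul 0 _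
      rw [this, h5, coeff_zero_eq_constantCoeff_apply, map_add, hr]
      norm_num
    rw [h0] at h1
    rw [map_zero] at h1
    exact absurd h1 (by decide)
  have cross : a' * expand 2 two_ne_zero g' = expand 2 two_ne_zero a' * g' := by
    have h1 : (2 * v + V ^ 3) * X ^ 3 ≠ 0 := mul_ne_zero hne (pow_ne_zero _ X_ne_zero)
    apply mul_left_cancel₀ h1
    rw [ha', ea2] at e1
    rw [hgg, eg2] at e2
    linear_combination X ^ 2 * expand 2 two_ne_zero g' * e1 - X ^ 2 * expand 2 two_ne_zero a' * e2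
  set gi := invOfUnit g' 1 with hgi
  have hgi1 : g' * gi = 1 := by
    rw [hgi, mul_invOfUnit]; rw [hgc]; rfl
  have hgi2 : expand 2 two_ne_zero g' * expand 2 two_ne_zero gi = 1 := by
    rw [← map_mul, hgi1, map_one]
  have hfix : expand 2 two_ne_zero (a' * gi) = a' * gi := by
    rw [map_mul]
    linear_combination a' * gi * hgi2 - expand 2 two_ne_zero a' * expand 2 two_ne_zero gi * hgi1 -
      gi * expand 2 two_ne_zero gi * cross
  have hconst := fixed_const _ hfix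
  have hgic : constantCoeff gi = 1 := by
    have := congrArg (constantCoeff (R := ZMod 3)) hgi1
    rwa [map_mul, hgc, one_mul, map_one] at this
  rw [map_mul, hac, hgic, mul_one, map_one] at hconst
  have hfin : a' = g' := by
    linear_combination g' * hconst - a' * hgi1
  rw [ha', hfin, hg']
  rw [hU] at hUu
  linear_combination X * r * (1 + v ^ 5 - v ^ 10) * hUu - (1 + v ^ 5 - v ^ 10) * hv

theorem theta_theta_v (v : (ZMod 3)⟦X⟧)
    (h : Th (ZMod 3) v * (1 + v ^ 10) = v * (1 + v ^ 5 - v ^ 10)) :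
    Th (ZMod 3) (Th (ZMod 3) v) * (1 + v ^ 10) ^ 3 =
      v * (1 + v ^ 5 - v ^ 10) * (1 + v ^ 10 - v ^ 15 - v ^ 20) := by
  have h3 := three0
  have e := congrArg (Th (ZMod 3)) h
  simp only [map_sub, map_add, Derivation.leibniz, Derivation.leibniz_pow, smul_eq_mul,
    nsmul_eq_mul, Derivation.map_one_eq_zero, zero_add, add_zero] at e
  norm_num at e
  set s := Th (ZMod 3) v
  set s2 := Th (ZMod 3) s
  linear_combination (1 + v ^ 10) ^ 2 * e + (1 + v ^ 10) * ((1 + v ^ 5 - v ^ 10) + v * (5 * v ^ 4 - 10 * v ^ 9)) * h - 10 * v ^ 9 * (s * (1 + v ^ 10) + v * (1 + v ^ 5 - v ^ 10)) * h + (v^26 + 6*v^21 - 10*v^16 - 5*v^11 + 2*v^6) * h3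

theorem coeff_of_cube (F F1 : (ZMod 3)⟦X⟧) (h : F - Th (ZMod 3) (Th (ZMod 3) F) = F1 ^ 3) (n : ℕ) :
    coeff n F1 = coeff (3 * n) F := by
  have h1 := congrArg (coeff (3 * n)) h
  rw [pow_eq_expand 3, coeff_expand_mul, map_sub, coeff_Th, coeff_Th] at h1
  rw [← h1]
  have : ((3 * n : ℕ) : ZMod 3) = 0 := by
    push_cast
    have h' : (3 : ZMod 3) = 0 := by decide
    rw [h', zero_mul]
  rw [this]; ring

theorem abs_a {A : Type*} [CommRing A] (F D N N1 N2 D1 D2 s s2 U w z u P ttF : A)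
    (hF : F * D = N)
    (hd : D ^ 3 * ttF = D ^ 2 * (N2 * s ^ 2 + N1 * s2) - 2 * D1 * s ^ 2 * (D * N1 - N * D1) -
      D * N * (D2 * s ^ 2 + D1 * s2))
    (hs : s * U = w) (hs2 : s2 * U ^ 3 = z) (hU : U * u = 1)
    (hI : D ^ 2 * U ^ 3 * N - (D ^ 2 * (N2 * U * w ^ 2 + N1 * z) -
      2 * D1 * U * w ^ 2 * (D * N1 - N * D1) - D * N * (D2 * U * w ^ 2 + D1 * z)) -
      D ^ 3 * P ^ 3 = 0) :
    D ^ 3 * U ^ 3 * (F - ttF - (P * u) ^ 3) = 0 := by
  linear_combination hI + D ^ 2 * U ^ 3 * hF - U ^ 3 * hd -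
    (D ^ 2 * N2 - 2 * D1 * (D * N1 - N * D1) - D * N * D2) * U * (s * U + w) * hs -
    (D ^ 2 * N1 - D * N * D1) * hs2 - D ^ 3 * P ^ 3 * ((U * u) ^ 2 + U * u + 1) * hU

theorem abs_c {A : Type*} [CommRing A] (D N N1 N2 D1 D2 s s2 w z ttF tF : A)
    (hd : D ^ 3 * ttF = D ^ 2 * (N2 * s ^ 2 + N1 * s2) - 2 * D1 * s ^ 2 * (D * N1 - N * D1) -
      D * N * (D2 * s ^ 2 + D1 * s2)) (hd1 : D ^ 2 * tF = (D * N1 - N * D1) * s)
    (hs : s * D = w) (hs2 : s2 * D ^ 3 = z)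
    (hI : (D ^ 2 * (N2 * D * w ^ 2 + N1 * z) -
      2 * D1 * D * w ^ 2 * (D * N1 - N * D1) - D * N * (D2 * D * w ^ 2 + D1 * z)) -
      (D * N1 - N * D1) * w * D ^ 3 = 0) :
    D ^ 6 * (ttF - tF) = 0 := by
  linear_combination hI + D ^ 3 * hd - D ^ 4 * hd1 +
    (D ^ 2 * N2 - 2 * D1 * (D * N1 - N * D1) - D * N * D2) * D * (s * D + w) * hs +
    (D ^ 2 * N1 - D * N * D1) * hs2 - D ^ 3 * (D * N1 - N * D1) * hs

theorem three_gen (v F : (ZMod 3)⟦X⟧) (hv : constantCoeff v = 0)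
    (h : Th (ZMod 3) v * (1 + v ^ 10) = v * (1 + v ^ 5 - v ^ 10))
    (A A1 A2 B B1 B2 P P1 P2 Q Q1 Q2 : (ZMod 3)⟦X⟧)
    (hA : Th (ZMod 3) A = A1 * Th (ZMod 3) v) (hA1 : Th (ZMod 3) A1 = A2 * Th (ZMod 3) v)
    (hB : Th (ZMod 3) B = B1 * Th (ZMod 3) v) (hB1 : Th (ZMod 3) B1 = B2 * Th (ZMod 3) v)
    (hP : Th (ZMod 3) P = P1 * Th (ZMod 3) v) (hP1 : Th (ZMod 3) P1 = P2 * Th (ZMod 3) v)
    (hQ : Th (ZMod 3) Q = Q1 * Th (ZMod 3) v) (hQ1 : Th (ZMod 3) Q1 = Q2 * Th (ZMod 3) v)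
    (hF : F * B = A) (hBc : constantCoeff B = 1)
    (I1 : B ^ 2 * (1 + v ^ 10) ^ 3 * A -
      (B ^ 2 * (A2 * (1 + v ^ 10) * (v * (1 + v ^ 5 - v ^ 10)) ^ 2 +
        A1 * (v * (1 + v ^ 5 - v ^ 10) * (1 + v ^ 10 - v ^ 15 - v ^ 20))) -
      2 * B1 * (1 + v ^ 10) * (v * (1 + v ^ 5 - v ^ 10)) ^ 2 * (B * A1 - A * B1) -
      B * A * (B2 * (1 + v ^ 10) * (v * (1 + v ^ 5 - v ^ 10)) ^ 2 +
        B1 * (v * (1 + v ^ 5 - v ^ 10) * (1 + v ^ 10 - v ^ 15 - v ^ 20)))) -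
      B ^ 3 * P ^ 3 = 0)
    (I2 : (1 + v ^ 10) ^ 2 * (1 + v ^ 10) ^ 3 * P -
      ((1 + v ^ 10) ^ 2 * (P2 * (1 + v ^ 10) * (v * (1 + v ^ 5 - v ^ 10)) ^ 2 +
        P1 * (v * (1 + v ^ 5 - v ^ 10) * (1 + v ^ 10 - v ^ 15 - v ^ 20))) -
      2 * (10 * v ^ 9) * (1 + v ^ 10) * (v * (1 + v ^ 5 - v ^ 10)) ^ 2 *
        ((1 + v ^ 10) * P1 - P * (10 * v ^ 9)) -
      (1 + v ^ 10) * P * ((90 * v ^ 8) * (1 + v ^ 10) * (v * (1 + v ^ 5 - v ^ 10)) ^ 2 +
        (10 * v ^ 9) * (v * (1 + v ^ 5 - v ^ 10) * (1 + v ^ 10 - v ^ 15 - v ^ 20)))) -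
      (1 + v ^ 10) ^ 3 * Q ^ 3 = 0)
    (I3 : ((1 + v ^ 10) ^ 2 * (Q2 * (1 + v ^ 10) * (v * (1 + v ^ 5 - v ^ 10)) ^ 2 +
        Q1 * (v * (1 + v ^ 5 - v ^ 10) * (1 + v ^ 10 - v ^ 15 - v ^ 20))) -
      2 * (10 * v ^ 9) * (1 + v ^ 10) * (v * (1 + v ^ 5 - v ^ 10)) ^ 2 *
        ((1 + v ^ 10) * Q1 - Q * (10 * v ^ 9)) -
      (1 + v ^ 10) * Q * ((90 * v ^ 8) * (1 + v ^ 10) * (v * (1 + v ^ 5 - v ^ 10)) ^ 2 +
        (10 * v ^ 9) * (v * (1 + v ^ 5 - v ^ 10) * (1 + v ^ 10 - v ^ 15 - v ^ 20)))) -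
      ((1 + v ^ 10) * Q1 - Q * (10 * v ^ 9)) * (v * (1 + v ^ 5 - v ^ 10)) * (1 + v ^ 10) ^ 3 = 0)
    (n : ℕ) : coeff (27 * n + 18) F = 0 := by
  have hs2 := theta_theta_v v h
  set T := Th (ZMod 3) with hT
  have hUc : constantCoeff (1 + v ^ 10) = 1 := by simp [hv]
  set U : (ZMod 3)⟦X⟧ := 1 + v ^ 10 with hU
  have hTU : T U = (10 * v ^ 9) * T v := by
    rw [hU, map_add, Derivation.map_one_eq_zero, Derivation.leibniz_pow, zero_add, smul_eq_mul,
      nsmul_eq_mul]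
    push_cast
    ring
  have hTU1 : T (10 * v ^ 9) = (90 * v ^ 8) * T v := by
    rw [Derivation.leibniz, der_ofNat, Derivation.leibniz_pow, smul_eq_mul, smul_eq_mul,
      nsmul_eq_mul, smul_eq_mul]
    push_cast
    ring
  have hUne : U ≠ 0 := by intro h0; rw [h0] at hUc; simp at hUc
  have hBne : B ≠ 0 := by intro h0; rw [h0] at hBc; simp at hBc
  set u := invOfUnit U 1 with hu
  have hUu : U * u = 1 := by
    rw [hu, mul_invOfUnit]; rw [hUc]; rfl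
  have r1 : F - T (T F) - (P * u) ^ 3 = 0 := by
    have := abs_a F B A A1 A2 B1 B2 (T v) (T (T v)) U _ _ u P (T (T F)) hF
      (der2 T F B A (T v) (T (T v)) A1 B1 A2 B2 hF hA hB hA1 hB1 rfl) h hs2 hUu I1
    exact (mul_eq_zero.1 this).resolve_left (mul_ne_zero (pow_ne_zero _ hBne) (pow_ne_zero _ hUne))
  have hF1 : (P * u) * U = P := by rw [mul_assoc, mul_comm u, hUu, mul_one]
  have hF2 : (Q * u) * U = Q := by rw [mul_assoc, mul_comm u, hUu, mul_one]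
  have r2 : (P * u) - T (T (P * u)) - (Q * u) ^ 3 = 0 := by
    have := abs_a (P * u) U P P1 P2 (10 * v ^ 9) (90 * v ^ 8) (T v) (T (T v)) U _ _ u Q
      (T (T (P * u))) hF1
      (der2 T (P * u) U P (T v) (T (T v)) P1 _ P2 _ hF1 hP hTU hP1 hTU1 rfl) h hs2 hUu I2
    exact (mul_eq_zero.1 this).resolve_left (mul_ne_zero (pow_ne_zero _ hUne) (pow_ne_zero _ hUne))
  have r3 : T (T (Q * u)) - T (Q * u) = 0 := by
    have := abs_c U Q Q1 Q2 (10 * v ^ 9) (90 * v ^ 8) (T v) (T (T v)) _ _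
      (T (T (Q * u))) (T (Q * u))
      (der2 T (Q * u) U Q (T v) (T (T v)) Q1 _ Q2 _ hF2 hQ hTU hQ1 hTU1 rfl)
      (der1 T (Q * u) U Q (T v) Q1 _ hF2 hQ hTU) h hs2 I3
    exact (mul_eq_zero.1 this).resolve_left (pow_ne_zero _ hUne)
  have c1 := coeff_of_cube F (P * u) (sub_eq_zero.1 r1)
  have c2 := coeff_of_cube (P * u) (Q * u) (sub_eq_zero.1 r2)
  have c3 := congrArg (coeff (3 * n + 2)) r3
  rw [map_sub, hT, coeff_Th, coeff_Th, map_zero] at c3
  have e1 : 27 * n + 18 = 3 * (3 * (3 * n + 2)) := by ring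
  rw [e1, ← c1, ← c2]
  have e2 : ((3 * n + 2 : ℕ) : ZMod 3) = 2 := by
    push_cast
    have h' : (3 : ZMod 3) = 0 := by decide
    rw [h', zero_mul, zero_add]
  rw [e2] at c3
  have e3 : ∀ x : ZMod 3, 2 * (2 * x) - 2 * x = 0 → x = 0 := by decide
  exact e3 _ c3

end three


/-- vanishing modulo 3, case C -/
theorem three_C (v F : (ZMod 3)⟦X⟧) (hv : constantCoeff v = 0)
    (h : Th (ZMod 3) v * (1 + v ^ 10) = v * (1 + v ^ 5 - v ^ 10))
    (hF : F * (v^4 + 2*v^3 + 4*v^2 + 3*v + 1) = v^4 - 3*v^3 + 4*v^2 - 2*v + 1) (n : ℕ) :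
    coeff (27 * n + 18) F = 0 := by
  have h3 := three0
  refine three_gen v F hv h (v^4 - 3*v^3 + 4*v^2 - 2*v + 1) (4*v^3 - 9*v^2 + 8*v - 2) (12*v^2 - 18*v + 8)
    (v^4 + 2*v^3 + 4*v^2 + 3*v + 1) (4*v^3 + 6*v^2 + 8*v + 3) (12*v^2 + 12*v + 8)
    (v^10 + v^9 + v^8 - v^7 - v^4 + v^2 + 1) (10*v^9 + 9*v^8 + 8*v^7 - 7*v^6 - 4*v^3 + 2*v) (90*v^8 + 72*v^7 + 56*v^6 - 42*v^5 - 12*v^2 + 2)
    (v^10 - v^9 - v^6 - v^3 + 1) (10*v^9 - 9*v^8 - 6*v^5 - 3*v^2) (90*v^8 - 72*v^7 - 30*v^4 - 6*v)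
    ?_ ?_ ?_ ?_ ?_ ?_ ?_ ?_ hF (by simp [hv]) ?_ ?_ ?_ n
  · simp only [map_add, map_sub, map_neg, Derivation.leibniz, Derivation.leibniz_pow, smul_eq_mul,
      nsmul_eq_mul, der_ofNat, Derivation.map_one_eq_zero, Nat.cast_ofNat, Nat.cast_one, map_zero,
      mul_zero, add_zero, zero_add, neg_zero, sub_zero, zero_sub, Nat.add_one_sub_one, pow_one,
      Nat.reduceSub]
    try ring
  · simp only [map_add, map_sub, map_neg, Derivation.leibniz, Derivation.leibniz_pow, smul_eq_mul,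
      nsmul_eq_mul, der_ofNat, Derivation.map_one_eq_zero, Nat.cast_ofNat, Nat.cast_one, map_zero,
      mul_zero, add_zero, zero_add, neg_zero, sub_zero, zero_sub, Nat.add_one_sub_one, pow_one,
      Nat.reduceSub]
    try ring
  · simp only [map_add, map_sub, map_neg, Derivation.leibniz, Derivation.leibniz_pow, smul_eq_mul,
      nsmul_eq_mul, der_ofNat, Derivation.map_one_eq_zero, Nat.cast_ofNat, Nat.cast_one, map_zero,
      mul_zero, add_zero, zero_add, neg_zero, sub_zero, zero_sub, Nat.add_one_sub_one, pow_one,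
      Nat.reduceSub]
    try ring
  · simp only [map_add, map_sub, map_neg, Derivation.leibniz, Derivation.leibniz_pow, smul_eq_mul,
      nsmul_eq_mul, der_ofNat, Derivation.map_one_eq_zero, Nat.cast_ofNat, Nat.cast_one, map_zero,
      mul_zero, add_zero, zero_add, neg_zero, sub_zero, zero_sub, Nat.add_one_sub_one, pow_one,
      Nat.reduceSub]
    try ring
  · simp only [map_add, map_sub, map_neg, Derivation.leibniz, Derivation.leibniz_pow, smul_eq_mul,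
      nsmul_eq_mul, der_ofNat, Derivation.map_one_eq_zero, Nat.cast_ofNat, Nat.cast_one, map_zero,
      mul_zero, add_zero, zero_add, neg_zero, sub_zero, zero_sub, Nat.add_one_sub_one, pow_one,
      Nat.reduceSub]
    try ring
  · simp only [map_add, map_sub, map_neg, Derivation.leibniz, Derivation.leibniz_pow, smul_eq_mul,
      nsmul_eq_mul, der_ofNat, Derivation.map_one_eq_zero, Nat.cast_ofNat, Nat.cast_one, map_zero,
      mul_zero, add_zero, zero_add, neg_zero, sub_zero, zero_sub, Nat.add_one_sub_one, pow_one,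
      Nat.reduceSub]
    try ring
  · simp only [map_add, map_sub, map_neg, Derivation.leibniz, Derivation.leibniz_pow, smul_eq_mul,
      nsmul_eq_mul, der_ofNat, Derivation.map_one_eq_zero, Nat.cast_ofNat, Nat.cast_one, map_zero,
      mul_zero, add_zero, zero_add, neg_zero, sub_zero, zero_sub, Nat.add_one_sub_one, pow_one,
      Nat.reduceSub]
    try ring
  · simp only [map_add, map_sub, map_neg, Derivation.leibniz, Derivation.leibniz_pow, smul_eq_mul,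
      nsmul_eq_mul, der_ofNat, Derivation.map_one_eq_zero, Nat.cast_ofNat, Nat.cast_one, map_zero,
      mul_zero, add_zero, zero_add, neg_zero, sub_zero, zero_sub, Nat.add_one_sub_one, pow_one,
      Nat.reduceSub]
    try ring
  · linear_combination (-v^41 - 18*v^40 - 84*v^39 - 206*v^38 - 375*v^37 - 624*v^36 - 878*v^35 - 936*v^34 - 622*v^33 - 25*v^32 + 640*v^31 + 1046*v^30 + 895*v^29 + 44*v^28 - 1265*v^27 - 2344*v^26 - 2621*v^25 - 1952*v^24 - 626*v^23 + 758*v^22 + 1560*v^21 + 1456*v^20 + 564*v^19 - 618*v^18 - 1523*v^17 - 1775*v^16 - 1403*v^15 - 715*v^14 - 58*v^13 + 397*v^12 + 504*v^11 + 292*v^10 - 75*v^9 - 338*v^8 - 343*v^7 - 250*v^6 - 160*v^5 - 104*v^4 - 64*v^3 - 16*v^2) * h3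
  · linear_combination (v^59 - 2*v^58 + 3*v^57 + v^56 - 2*v^55 + 14*v^54 + 5*v^53 - 32*v^52 + 2*v^51 + 15*v^49 + 42*v^48 + 3*v^47 + 4*v^46 - 6*v^45 - 126*v^44 - 87*v^43 + 124*v^42 + 6*v^41 + 84*v^39 - 11*v^38 - 74*v^37 + 6*v^36 - 6*v^35 + 54*v^34 + 44*v^33 - 40*v^32 + 6*v^31 + 29*v^29 + 13*v^28 - 51*v^27 + 4*v^26 - 2*v^25 + 87*v^24 + 100*v^23 - 121*v^22 + 2*v^21 - 59*v^19 + 47*v^18 + 37*v^17 + v^16 - 102*v^14 - 35*v^13 + 74*v^12 - 18*v^9 - 21*v^8 + 14*v^7 + 5*v^4 + v^3 - v^2) * h3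
  · linear_combination (-4*v^56 + v^54 - 14*v^53 + 12*v^51 + 36*v^49 + 35*v^48 + 46*v^46 - 82*v^44 + 44*v^43 - 102*v^41 - 25*v^39 - 98*v^38 - 14*v^36 + 55*v^34 - 9*v^33 + 10*v^31 + 8*v^29 - 35*v^28 - 2*v^26 + 90*v^24 - 18*v^23 + 104*v^21 + 45*v^19 + 94*v^18 + 52*v^16 - 48*v^14 + 47*v^13 - 20*v^11 - 24*v^9 - 4*v^8 - 10*v^6 - 2*v^3) * h3

/-- vanishing modulo 3, case D -/
theorem three_D (v F : (ZMod 3)⟦X⟧) (hv : constantCoeff v = 0)
    (h : Th (ZMod 3) v * (1 + v ^ 10) = v * (1 + v ^ 5 - v ^ 10))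
    (hF : F * (v^4 - 3*v^3 + 4*v^2 - 2*v + 1) = v^4 + 2*v^3 + 4*v^2 + 3*v + 1) (n : ℕ) :
    coeff (27 * n + 18) F = 0 := by
  have h3 := three0
  refine three_gen v F hv h (v^4 + 2*v^3 + 4*v^2 + 3*v + 1) (4*v^3 + 6*v^2 + 8*v + 3) (12*v^2 + 12*v + 8)
    (v^4 - 3*v^3 + 4*v^2 - 2*v + 1) (4*v^3 - 9*v^2 + 8*v - 2) (12*v^2 - 18*v + 8)
    (v^10 + v^8 - v^6 + v^3 + v^2 - v + 1) (10*v^9 + 8*v^7 - 6*v^5 + 3*v^2 + 2*v - 1) (90*v^8 + 56*v^6 - 30*v^4 + 6*v + 2)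
    (v^10 + v^7 - v^4 + v + 1) (10*v^9 + 7*v^6 - 4*v^3 + 1) (90*v^8 + 42*v^5 - 12*v^2)
    ?_ ?_ ?_ ?_ ?_ ?_ ?_ ?_ hF (by simp [hv]) ?_ ?_ ?_ n
  · simp only [map_add, map_sub, map_neg, Derivation.leibniz, Derivation.leibniz_pow, smul_eq_mul,
      nsmul_eq_mul, der_ofNat, Derivation.map_one_eq_zero, Nat.cast_ofNat, Nat.cast_one, map_zero,
      mul_zero, add_zero, zero_add, neg_zero, sub_zero, zero_sub, Nat.add_one_sub_one, pow_one,
      Nat.reduceSub]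
    try ring
  · simp only [map_add, map_sub, map_neg, Derivation.leibniz, Derivation.leibniz_pow, smul_eq_mul,
      nsmul_eq_mul, der_ofNat, Derivation.map_one_eq_zero, Nat.cast_ofNat, Nat.cast_one, map_zero,
      mul_zero, add_zero, zero_add, neg_zero, sub_zero, zero_sub, Nat.add_one_sub_one, pow_one,
      Nat.reduceSub]
    try ring
  · simp only [map_add, map_sub, map_neg, Derivation.leibniz, Derivation.leibniz_pow, smul_eq_mul,
      nsmul_eq_mul, der_ofNat, Derivation.map_one_eq_zero, Nat.cast_ofNat, Nat.cast_one, map_zero,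
      mul_zero, add_zero, zero_add, neg_zero, sub_zero, zero_sub, Nat.add_one_sub_one, pow_one,
      Nat.reduceSub]
    try ring
  · simp only [map_add, map_sub, map_neg, Derivation.leibniz, Derivation.leibniz_pow, smul_eq_mul,
      nsmul_eq_mul, der_ofNat, Derivation.map_one_eq_zero, Nat.cast_ofNat, Nat.cast_one, map_zero,
      mul_zero, add_zero, zero_add, neg_zero, sub_zero, zero_sub, Nat.add_one_sub_one, pow_one,
      Nat.reduceSub]
    try ring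
  · simp only [map_add, map_sub, map_neg, Derivation.leibniz, Derivation.leibniz_pow, smul_eq_mul,
      nsmul_eq_mul, der_ofNat, Derivation.map_one_eq_zero, Nat.cast_ofNat, Nat.cast_one, map_zero,
      mul_zero, add_zero, zero_add, neg_zero, sub_zero, zero_sub, Nat.add_one_sub_one, pow_one,
      Nat.reduceSub]
    try ring
  · simp only [map_add, map_sub, map_neg, Derivation.leibniz, Derivation.leibniz_pow, smul_eq_mul,
      nsmul_eq_mul, der_ofNat, Derivation.map_one_eq_zero, Nat.cast_ofNat, Nat.cast_one, map_zero,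
      mul_zero, add_zero, zero_add, neg_zero, sub_zero, zero_sub, Nat.add_one_sub_one, pow_one,
      Nat.reduceSub]
    try ring
  · simp only [map_add, map_sub, map_neg, Derivation.leibniz, Derivation.leibniz_pow, smul_eq_mul,
      nsmul_eq_mul, der_ofNat, Derivation.map_one_eq_zero, Nat.cast_ofNat, Nat.cast_one, map_zero,
      mul_zero, add_zero, zero_add, neg_zero, sub_zero, zero_sub, Nat.add_one_sub_one, pow_one,
      Nat.reduceSub]
    try ring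
  · simp only [map_add, map_sub, map_neg, Derivation.leibniz, Derivation.leibniz_pow, smul_eq_mul,
      nsmul_eq_mul, der_ofNat, Derivation.map_one_eq_zero, Nat.cast_ofNat, Nat.cast_one, map_zero,
      mul_zero, add_zero, zero_add, neg_zero, sub_zero, zero_sub, Nat.add_one_sub_one, pow_one,
      Nat.reduceSub]
    try ring
  · linear_combination (-16*v^40 + 64*v^39 - 104*v^38 + 160*v^37 - 245*v^36 + 328*v^35 - 323*v^34 + 70*v^33 + 312*v^32 - 554*v^31 + 442*v^30 + 38*v^29 - 725*v^28 + 1393*v^27 - 1735*v^26 + 1493*v^25 - 613*v^24 - 549*v^23 + 1446*v^22 - 1560*v^21 + 773*v^20 + 611*v^19 - 1947*v^18 + 2601*v^17 - 2304*v^16 + 1250*v^15 + 34*v^14 - 875*v^13 + 1016*v^12 - 590*v^11 - 55*v^10 + 627*v^9 - 921*v^8 + 868*v^7 - 619*v^6 + 375*v^5 - 206*v^4 + 84*v^3 - 18*v^2 + v) * h3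
  · linear_combination (-v^58 - v^57 + 5*v^56 - 12*v^53 - 21*v^52 + 14*v^51 + 79*v^48 + 43*v^47 - 107*v^46 + v^44 - 50*v^43 + 39*v^42 + 70*v^41 - 2*v^39 - 113*v^38 - 94*v^37 + 81*v^36 + 2*v^35 + 4*v^34 + 30*v^33 - v^32 - 2*v^31 - 6*v^29 - 36*v^28 - 54*v^27 + 56*v^26 + 6*v^25 + 6*v^24 + 79*v^23 - 15*v^22 - 79*v^21 - 6*v^19 + 128*v^18 + 81*v^17 - 124*v^16 + 6*v^15 + 4*v^14 + 8*v^13 + 44*v^12 - 22*v^11 - 2*v^9 - 29*v^8 - 3*v^7 + 13*v^6 + 2*v^5 + v^4 - 3*v^3 - 2*v^2 - v) * h3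
  · linear_combination (2*v^57 - 10*v^54 - 7*v^52 + 24*v^51 + 26*v^49 - 44*v^47 - 57*v^46 + 46*v^44 + 98*v^42 - 36*v^41 - 102*v^39 + 17*v^37 + 82*v^36 - 10*v^34 - 25*v^32 + 9*v^31 - 20*v^29 - 2*v^27 + 65*v^26 - 12*v^24 - 102*v^22 + 32*v^21 + 100*v^19 - 51*v^17 - 74*v^16 + 50*v^14 + 28*v^12 - 37*v^11 - 8*v^9 + 14*v^7 - 4*v^4) * h3


end Pool.Agent.N915.RR
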