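import Pool.Agent.N915.RR.Mod2
import Pool.Agent.N915.RR.Three

/-!
The congruences for the coefficients of `R(q)^5 / R(q^5)` and of its reciprocal.
-/

set_option autoImplicit false

namespace Pool.Agent.N915.RR

open Finset PowerSeries Pool.Agent.Helper308.QS

/-- `R(q)^5 / R(q^5)` -/
noncomputable def Cser : ℤ⟦X⟧ := R ^ 5 * invOfUnit R5 1
/-- `R(q^5) / R(q)^5` -/
noncomputable def Dser : ℤ⟦X⟧ := R5 * invOfUnit (R ^ 5) 1

theorem R5_ne : R5 ≠ 0 := by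
  intro h
  have := R5_const
  rw [h] at this
  simp at this

theorem Rp_ne : R ^ 5 ≠ 0 := by
  intro h
  have := congrArg (constantCoeff (R := ℤ)) h
  rw [map_pow, R_const] at this
  simp at this

theorem C_mul : Cser * DD vv = NN vv := by
  have h1 : R5 * invOfUnit R5 1 = 1 := by
    rw [mul_invOfUnit]; rw [R5_const]; rfl
  apply mul_left_cancel₀ R5_ne
  rw [← ramanujan, Cser]
  linear_combination (R ^ 5 * DD vv) * h1

theorem D_mul : Dser * NN vv = DD vv := by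
  have h1 : R ^ 5 * invOfUnit (R ^ 5) 1 = 1 := by
    rw [mul_invOfUnit]; rw [map_pow, R_const]; norm_num
  apply mul_left_cancel₀ Rp_ne
  rw [ramanujan, Dser]
  linear_combination (R5 * NN vv) * h1

theorem lift_rel (m : ℕ) :
    red m VV ^ 5 * (1 + 2 * red m YY) ^ 2 * (1 + red m YY) = red m YY ∧
    red m de ^ 2 = red m VV * (1 + 3 * red m YY + red m YY ^ 2) ∧
    red m vv = red m de - red m VV ^ 3 * (1 + 2 * red m YY) * (1 + red m YY) ∧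
    (1 + 2 * red m YY) ^ 2 * red m yy = red m YY + red m VV ^ 2 * (1 + 2 * red m YY) *
      (1 + red m YY) * red m vv ∧
    red m vv ^ 5 * (1 + 2 * red m yy) ^ 2 * (1 + red m yy) = red m yy := by
  have a1 := congrArg (red m) Y_rel
  have a2 := congrArg (red m) de_sq
  have a3 := congrArg (red m) vv_de
  have a4 := congrArg (red m) y3
  have a5 := congrArg (red m) y_rel
  simp only [map_mul, map_add, map_sub, map_pow, map_one, map_ofNat] at a1 a2 a3 a4 a5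
  exact ⟨a1, a2, a3, a4, a5⟩

theorem map_NN {A B F : Type*} [CommRing A] [CommRing B] [FunLike F A B] [RingHomClass F A B]
    (f : F) (v : A) : f (NN v) = NN (f v) := by
  simp only [NN, map_add, map_sub, map_mul, map_pow, map_one, map_ofNat]

theorem map_DD {A B F : Type*} [CommRing A] [CommRing B] [FunLike F A B] [RingHomClass F A B]
    (f : F) (v : A) : f (DD v) = DD (f v) := by
  simp only [DD, map_add, map_sub, map_mul, map_pow, map_one, map_ofNat]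

theorem cancel_unit {A : Type*} [CommRing A] (u f g : A⟦X⟧) (hu : constantCoeff u = 1)
    (h : u * f = u * g) : f = g := by
  have h1 : u * invOfUnit u 1 = 1 := by
    rw [mul_invOfUnit]; rw [hu]; rfl
  linear_combination invOfUnit u 1 * h - (f - g) * h1

theorem red_V (m : ℕ) : red m VV = e2 (red m vv) := by rw [VV, red_expand]
theorem red_Y (m : ℕ) : red m YY = e2 (red m yy) := by rw [YY, red_expand]

theorem red_vv_const (m : ℕ) : constantCoeff (red m vv) = 0 := by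
  rw [← coeff_zero_eq_constantCoeff_apply, coeff_red, coeff_zero_eq_constantCoeff_apply, vv_const]
  simp

theorem red_yy_const (m : ℕ) : constantCoeff (red m yy) = 0 := by
  rw [← coeff_zero_eq_constantCoeff_apply, coeff_red, coeff_zero_eq_constantCoeff_apply, yy_const]
  simp

theorem modC {A : Type*} [CommRing A] {v y : A} (h0 : (2 : A) = 0)
    (hr : v ^ 5 * (1 + 2 * y) ^ 2 * (1 + y) = y) :
    v * (1 + 3 * y + y ^ 2) * DeC v y ^ 2 = v ^ 8 * (v * (1 + y) ^ 2 * (1 + y + y ^ 2)) := by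
  unfold DeC
  linear_combination (0) * hr + (8*v^9*y^10 + 32*v^9*y^9 + 50*v^9*y^8 + 74*v^9*y^7 + 76*v^9*y^6 + 88*v^9*y^5 + 64*v^9*y^4 + 49*v^9*y^3 + 24*v^9*y^2 + 15*v^9*y + 4*v^9 + 16*v^8*y^9 + 56*v^8*y^8 + 72*v^8*y^7 + 116*v^8*y^6 + 96*v^8*y^5 + 100*v^8*y^4 + 52*v^8*y^3 + 40*v^8*y^2 + 12*v^8*y + 16*v^7*y^9 + 80*v^7*y^8 + 128*v^7*y^7 + 104*v^7*y^6 + 92*v^7*y^5 + 46*v^7*y^4 + 26*v^7*y^3 - 20*v^7*y^2 - 26*v^7*y - 6*v^7 + 16*v^6*y^10 + 48*v^6*y^9 + 60*v^6*y^8 + 144*v^6*y^7 + 126*v^6*y^6 + 156*v^6*y^5 + 82*v^6*y^4 + 50*v^6*y^3 + 26*v^6*y + 12*v^6 + 32*v^5*y^9 + 104*v^5*y^8 + 136*v^5*y^7 + 244*v^5*y^6 + 112*v^5*y^5 + 118*v^5*y^4 + 46*v^5*y^3 + 88*v^5*y^2 + 38*v^5*y + 2*v^5 + 16*v^4*y^9 + 72*v^4*y^8 + 88*v^4*y^7 + 60*v^4*y^6 + 112*v^4*y^5 + 76*v^4*y^4 + 84*v^4*y^3 + 8*v^4*y^2 - 28*v^4*y - 8*v^4 + 8*v^3*y^10 + 16*v^3*y^9 + 18*v^3*y^8 + 94*v^3*y^7 + 70*v^3*y^6 + 100*v^3*y^5 + 22*v^3*y^4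 + 6*v^3*y^3 - 30*v^3*y^2 + 8*v^3*y + 8*v^3 + 16*v^2*y^9 + 40*v^2*y^8 + 24*v^2*y^7 + 72*v^2*y^6 + 16*v^2*y^5 + 72*v^2*y^4 + 24*v^2*y^3 + 40*v^2*y^2 + 16*v^2*y + 8*v*y^8 + 24*v*y^7 + 24*v*y^6 + 48*v*y^5 + 24*v*y^4 + 24*v*y^3 + 8*v*y^2) * h0

theorem modD {A : Type*} [CommRing A] {v y : A} (h0 : (2 : A) = 0) :
    v * (1 + 3 * y + y ^ 2) * DeD v y ^ 2 = (v * (1 + y) ^ 2 * (1 + y + y ^ 2)) := by
  unfold DeD
  linear_combination (8*v^9*y^8 + 24*v^9*y^7 + 24*v^9*y^6 + 48*v^9*y^5 + 24*v^9*y^4 + 24*v^9*y^3 + 8*v^9*y^2 + 16*v^8*y^9 + 40*v^8*y^8 + 24*v^8*y^7 + 88*v^8*y^6 + 48*v^8*y^5 + 56*v^8*y^4 + 40*v^8*y^3 + 8*v^8*y^2 + 8*v^7*y^10 + 16*v^7*y^9 + 18*v^7*y^8 + 110*v^7*y^7 + 94*v^7*y^6 + 68*v^7*y^5 + 54*v^7*y^4 - 10*v^7*y^3 - 30*v^7*y^2 - 8*v^7*y + 16*v^6*y^9 + 72*v^6*y^8 + 88*v^6*y^7 + 76*v^6*y^6 + 160*v^6*y^5 + 68*v^6*y^4 + 12*v^6*y^3 - 8*v^6*y^2 - 4*v^6*y + 32*v^5*y^9 + 88*v^5*y^8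 + 88*v^5*y^7 + 236*v^5*y^6 + 112*v^5*y^5 + 78*v^5*y^4 + 70*v^5*y^3 + 40*v^5*y^2 + 14*v^5*y + 2*v^5 + 16*v^4*y^10 + 32*v^4*y^9 + 20*v^4*y^8 + 160*v^4*y^7 + 130*v^4*y^6 + 100*v^4*y^5 + 98*v^4*y^4 + 26*v^4*y^3 - 16*v^4*y^2 - 6*v^4*y + 16*v^3*y^9 + 64*v^3*y^8 + 64*v^3*y^7 + 56*v^3*y^6 + 132*v^3*y^5 + 74*v^3*y^4 - 2*v^3*y^3 - 28*v^3*y^2 - 14*v^3*y - 2*v^3 + 16*v^2*y^9 + 40*v^2*y^8 + 24*v^2*y^7 + 92*v^2*y^6 + 64*v^2*y^5 + 76*v^2*y^4 + 60*v^2*y^3 + 24*v^2*y^2 + 4*v^2*y + 8*v*y^10 + 16*v*y^9 + 2*v*y^8 + 50*v*y^7 + 36*v*y^6 + 32*v*y^5 + 44*v*y^4 + 37*v*y^3 + 16*v*y^2 + 3*v*y) * h0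

theorem eighth (f : (ZMod 2)⟦X⟧) : f ^ 8 = expand 8 (by norm_num) f := by
  have : f ^ 8 = ((f ^ 2) ^ 2) ^ 2 := by ring
  rw [this, sq_eq, sq_eq, sq_eq, ← expand_mul, ← expand_mul]

theorem red_vv_ne : red 2 vv ≠ 0 := by
  intro h0
  have h1 := congrArg (coeff 1) h0
  have h2 : coeff 1 vv = 1 := by
    have h5 : coeff 1 (X * R5) = coeff 0 R5 := coeff_succ_X_mul 0 _
    rw [vv, h5, coeff_zero_eq_constantCoeff_apply, R5_const]
  rw [coeff_red, h2, map_zero] at h1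
  exact absurd h1 (by decide)

theorem u2C : U 2 0 (red 8 Cser) = X1C (red 8 vv) (red 8 yy) := by
  obtain ⟨hr, hd, hv, hy, hr'⟩ := lift_rel 8
  have h0 : (8 : (ZMod 8)⟦X⟧) = 0 := by exact_mod_cast red_self 8
  have hF := congrArg (red 8) C_mul
  rw [map_mul, map_NN, map_DD] at hF
  have hn := normC h0 hr hd hv hy
  have hm := numC h0 hr hd hv hy
  have hq := quoC h0 hr'
  rw [← hF] at hm
  have h1 : red 8 Cser * NmC (red 8 VV) (red 8 YY) =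
      nevC (red 8 VV) (red 8 YY) + red 8 de * nodC (red 8 VV) (red 8 YY) := by
    rw [← hm, ← hn]; ring
  rw [red_V, red_Y, ← map_NmC, ← map_nevC, ← map_nodC] at h1
  have h2 := congrArg (U 2 0) h1
  have d8 : U 2 0 (red 8 de) = 0 := by rw [← red_U, de_odd, map_zero]
  rw [mul_comm (red 8 Cser), U_mul 2 0 two_ne_zero two_pos, U_add, U_expand, mul_comm (red 8 de),
    U_mul 2 0 two_ne_zero two_pos, d8, mul_zero, add_zero, hq] at h2
  refine cancel_unit _ _ _ ?_ h2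
  unfold NmC
  simp [red_vv_const, red_yy_const]

theorem twoC (n : ℕ) : 4 ∣ coeff (16 * n + 12) Cser ∧ 8 ∣ coeff (32 * n + 28) Cser := by
  have h08 : (8 : (ZMod 8)⟦X⟧) = 0 := by exact_mod_cast red_self 8
  have h016 : (16 : (ZMod 16)⟦X⟧) = 0 := by exact_mod_cast red_self 16
  have h02 : (2 : (ZMod 2)⟦X⟧) = 0 := by exact_mod_cast red_self 2
  obtain ⟨hr8, hd8, hv8, hy8, -⟩ := lift_rel 8
  obtain ⟨hr16, hd16, hv16, hy16, hr16'⟩ := lift_rel 16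
  obtain ⟨hr2, hd2, hv2, hy2, hr2'⟩ := lift_rel 2
  obtain ⟨w, hw, hL⟩ := L_mod
  have a2 := s2C h08 hr8 hd8 hv8 hy8
  have a3 := s3C h08 hr8 hd8 hv8 hy8
  have a5 := s5C h016 hr16 hd16 hv16 hy16
  have a6 := s6C h02 hr2 hd2 hv2 hy2
  have as := sqC h016 hr16'
  refine two_gen Cser (DeC vv yy) (zeC vv yy) (X1C (red 8 vv) (red 8 yy)) (X2C (red 8 vv) (red 8 yy))
    (ecC (red 8 vv) (red 8 yy)) (oaC (red 8 vv) (red 8 yy)) (odC (red 16 vv) (red 16 yy))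
    (oeC (red 2 vv) (red 2 yy)) (red 2 vv * w) u2C ?_ ?_ ?_ ?_ ?_ ?_ n
  · rw [a2, map_X2C, map_oaC, ← red_V, ← red_Y]
  · rw [a3, map_ecC, map_DeC, map_DeC, ← red_V, ← red_Y]
  · rw [map_zeC, map_zeC, map_odC, ← red_V, ← red_Y, ← a5, ← as]
    simp only [map_mul, map_add, map_pow, map_one, map_ofNat, map_DeC]
  · rw [map_zeC, a6, map_oeC, ← red_V, ← red_Y]
  · have e1 : red 2 (vv * (1 + 3 * yy + yy ^ 2) * DeC vv yy ^ 2) =
        red 2 vv ^ 8 * red 2 (vv * (1 + yy) ^ 2 * (1 + yy + yy ^ 2)) := by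
      simp only [map_mul, map_add, map_pow, map_one, map_ofNat, map_DeC]
      set v := red 2 vv
      set y := red 2 yy
      exact modC h02 hr2'
    rw [e1, hL, eighth, map_mul]; ring
  · exact mul_ne_zero red_vv_ne hw

theorem threeC' (n : ℕ) : 3 ∣ coeff (27 * n + 18) Cser := by
  have hF := congrArg (red 3) C_mul
  rw [map_mul, map_NN, map_DD] at hF
  have hc := red_vv_const 3
  have hX3 : red 3 X = X := by rw [red, map_X]
  have hi := congrArg (red 3) vi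
  simp only [map_mul, map_add, map_sub, map_pow] at hi
  have hR : constantCoeff (red 3 R5) = 1 := by
    rw [← coeff_zero_eq_constantCoeff_apply, coeff_red, coeff_zero_eq_constantCoeff_apply, R5_const]
    simp
  have ht := theta_v (red 3 R5) hR (red 3 vv) (red 3 VV) (by rw [vv, map_mul, hX3]) (red_V 3) hi
  have h := three_C (red 3 vv) (red 3 Cser) hc ht (by
    have e1 := hF
    unfold NN DD at e1
    linear_combination e1) n
  rw [coeff_red, ZMod.intCast_zmod_eq_zero_iff_dvd] at h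
  exact_mod_cast h

theorem u2D : U 2 0 (red 8 Dser) = X1D (red 8 vv) (red 8 yy) := by
  obtain ⟨hr, hd, hv, hy, hr'⟩ := lift_rel 8
  have h0 : (8 : (ZMod 8)⟦X⟧) = 0 := by exact_mod_cast red_self 8
  have hF := congrArg (red 8) D_mul
  rw [map_mul, map_NN, map_DD] at hF
  have hn := normD h0 hr hd hv hy
  have hm := numD h0 hr hd hv hy
  have hq := quoD h0 hr'
  rw [← hF] at hm
  have h1 : red 8 Dser * NmD (red 8 VV) (red 8 YY) =
      nevD (red 8 VV) (red 8 YY) + red 8 de * nodD (red 8 VV) (red 8 YY) := by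
    rw [← hm, ← hn]; ring
  rw [red_V, red_Y, ← map_NmD, ← map_nevD, ← map_nodD] at h1
  have h2 := congrArg (U 2 0) h1
  have d8 : U 2 0 (red 8 de) = 0 := by rw [← red_U, de_odd, map_zero]
  rw [mul_comm (red 8 Dser), U_mul 2 0 two_ne_zero two_pos, U_add, U_expand, mul_comm (red 8 de),
    U_mul 2 0 two_ne_zero two_pos, d8, mul_zero, add_zero, hq] at h2
  refine cancel_unit _ _ _ ?_ h2
  unfold NmD
  simp [red_vv_const, red_yy_const]

theorem twoD (n : ℕ) : 4 ∣ coeff (16 * n + 12) Dser ∧ 8 ∣ coeff (32 * n + 28) Dser := by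
  have h08 : (8 : (ZMod 8)⟦X⟧) = 0 := by exact_mod_cast red_self 8
  have h016 : (16 : (ZMod 16)⟦X⟧) = 0 := by exact_mod_cast red_self 16
  have h02 : (2 : (ZMod 2)⟦X⟧) = 0 := by exact_mod_cast red_self 2
  obtain ⟨hr8, hd8, hv8, hy8, -⟩ := lift_rel 8
  obtain ⟨hr16, hd16, hv16, hy16, hr16'⟩ := lift_rel 16
  obtain ⟨hr2, hd2, hv2, hy2, hr2'⟩ := lift_rel 2
  obtain ⟨w, hw, hL⟩ := L_mod
  have a2 := s2D h08 hr8 hd8 hv8 hy8
  have a3 := s3D h08 hr8 hd8 hv8 hy8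
  have a5 := s5D h016 hr16 hd16 hv16 hy16
  have a6 := s6D h02 hr2 hd2 hv2 hy2
  have as := sqD h016 hr16'
  refine two_gen Dser (DeD vv yy) (zeD vv yy) (X1D (red 8 vv) (red 8 yy)) (X2D (red 8 vv) (red 8 yy))
    (ecD (red 8 vv) (red 8 yy)) (oaD (red 8 vv) (red 8 yy)) (odD (red 16 vv) (red 16 yy))
    (oeD (red 2 vv) (red 2 yy)) w u2D ?_ ?_ ?_ ?_ ?_ ?_ n
  · rw [a2, map_X2D, map_oaD, ← red_V, ← red_Y]
  · rw [a3, map_ecD, map_DeD, map_DeD, ← red_V, ← red_Y]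
  · rw [map_zeD, map_zeD, map_odD, ← red_V, ← red_Y, ← a5, ← as]
    simp only [map_mul, map_add, map_pow, map_one, map_ofNat, map_DeD]
  · rw [map_zeD, a6, map_oeD, ← red_V, ← red_Y]
  · have e1 : red 2 (vv * (1 + 3 * yy + yy ^ 2) * DeD vv yy ^ 2) =
        red 2 (vv * (1 + yy) ^ 2 * (1 + yy + yy ^ 2)) := by
      simp only [map_mul, map_add, map_pow, map_one, map_ofNat, map_DeD]
      set v := red 2 vv
      set y := red 2 yy
      exact modD h02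
    rw [e1, hL]
  · exact hw

theorem threeD' (n : ℕ) : 3 ∣ coeff (27 * n + 18) Dser := by
  have hF := congrArg (red 3) D_mul
  rw [map_mul, map_NN, map_DD] at hF
  have hc := red_vv_const 3
  have hX3 : red 3 X = X := by rw [red, map_X]
  have hi := congrArg (red 3) vi
  simp only [map_mul, map_add, map_sub, map_pow] at hi
  have hR : constantCoeff (red 3 R5) = 1 := by
    rw [← coeff_zero_eq_constantCoeff_apply, coeff_red, coeff_zero_eq_constantCoeff_apply, R5_const]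
    simp
  have ht := theta_v (red 3 R5) hR (red 3 vv) (red 3 VV) (by rw [vv, map_mul, hX3]) (red_V 3) hi
  have h := three_D (red 3 vv) (red 3 Dser) hc ht (by
    have e1 := hF
    unfold NN DD at e1
    linear_combination e1) n
  rw [coeff_red, ZMod.intCast_zmod_eq_zero_iff_dvd] at h
  exact_mod_cast h

end Pool.Agent.N915.RR
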