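import Pool.Agent.N915.RR.TwoGen

/-!
The series `v (1+y)^2 (1+y+y^2)` modulo 2 has exponents `1` modulo `8` only.
-/

set_option autoImplicit false

namespace Pool.Agent.N915.RR

open Finset PowerSeries Pool.Agent.Helper308.QS Pool.Agent.V11172.Ds

/-- `(1 - k)⁻¹` -/
noncomputable def kki : ℤ⟦X⟧ := invOfUnit (1 - kk) 1

theorem kk_const : constantCoeff kk = 0 := by
  rw [kk, map_mul, map_mul, constantCoeff_X, zero_mul, zero_mul]

theorem kki_mul : (1 - kk) * kki = 1 := by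
  rw [kki, mul_invOfUnit]
  simp [kk_const]

theorem one_add_yy_eq : 1 + yy = expand 5 (by norm_num) kki := by
  have h1 := one_add_yy
  have h2 := congrArg (expand 5 (by norm_num)) kki_mul
  rw [map_mul, map_sub, map_one, ← ka_eq] at h2
  have hne : (1 - ka) ≠ 0 := by
    intro h0
    rw [h0, zero_mul] at h2
    exact zero_ne_one h2
  exact mul_left_cancel₀ hne (h1.trans h2.symm)

/-- the series `G` -/
noncomputable def GG : ℤ⟦X⟧ := R * kki ^ 2 * (kki ^ 2 - kki + 1)

theorem L_eq : vv * (1 + yy) ^ 2 * (1 + yy + yy ^ 2) = X * expand 5 (by norm_num) GG := by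
  have h : yy = expand 5 (by norm_num) kki - 1 := by rw [← one_add_yy_eq]; ring
  rw [GG, h, vv, R5]
  simp only [map_mul, map_pow, map_add, map_sub, map_one]
  ring

theorem jj5_mod : red 2 (jj 5) = 1 := by
  have h1 : jj 5 = expand 5 (by norm_num) Phi := by
    rw [Phi, expand_th 5 (by norm_num) sg gS eS_nonneg, jj]
    congr 1
    funext i
    unfold ej eS
    push_cast
    ring
  rw [h1, Phi_eq, map_add, map_one, map_mul, map_ofNat]
  have : (1 : ℤ⟦X⟧) + 2 * expand 5 (by norm_num) S = 1 + (2 : ℕ) * expand 5 (by norm_num) S := by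
    push_cast; ring
  rw [(red_iff 2).2 ⟨_, this⟩, map_one]

theorem jj4_even : jj 4 = e2 (U 2 0 (jj 4)) := by
  have h : U 2 1 (jj 4) = 0 := by
    ext n
    rw [coeff_U, map_zero, jj, coeff_th (gj (by norm_num) (by norm_num)) (2 * n + 1)
      (B := (2 * n + 1 : ℕ) + 1) le_rfl]
    refine sum_eq_zero fun i _ => ?_
    rw [if_neg]
    intro h
    unfold ej at h
    have h2 : (5 * i * (i - 1) + 4 * i) % 2 = 0 := by
      have h3 : i * (i - 1) % 2 = 0 := by
        have := Int.even_mul_pred_self i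
        exact Int.even_iff.1 this
      have h4 : 5 * i * (i - 1) + 4 * i = 5 * (i * (i - 1)) + 4 * i := by ring
      rw [h4]
      omega
    rw [h] at h2
    push_cast at h2
    omega
  nth_rw 1 [dissect (jj 4)]
  rw [h, map_zero, mul_zero, add_zero]

theorem GG_mod : red 2 GG = expand 8 (by norm_num) (red 2 (U 2 0 (jj 4))) := by
  have t : (2 : (ZMod 2)⟦X⟧) = 0 := by
    have := red_self 2
    exact_mod_cast this
  have hX2 : red 2 X = X := by rw [red, map_X]
  have n1 : ∀ a : ℕ, 1 ≤ a → a ≤ 9 → red 2 (jj a) ≠ 0 := by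
    intro a h1 h2 h0
    have h3 := jj_const a h1 h2
    have h4 := congrArg (coeff 0) h0
    rw [coeff_red, coeff_zero_eq_constantCoeff_apply, h3, map_zero] at h4
    exact absurd h4 (by decide)
  have hn1 : red 2 (jj 1) ≠ 0 := n1 1 (by norm_num) (by norm_num)
  have hn2 : red 2 (jj 2) ≠ 0 := n1 2 (by norm_num) (by norm_num)
  have hn3 : red 2 (jj 3) ≠ 0 := n1 3 (by norm_num) (by norm_num)
  have hn4 : red 2 (jj 4) ≠ 0 := n1 4 (by norm_num) (by norm_num)
  have k2 := congrArg (red 2) K2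
  have k3 := congrArg (red 2) K3
  have k4 := congrArg (red 2) K4
  have kr := congrArg (red 2) R_jj
  have ki := congrArg (red 2) kki_mul
  simp only [map_mul, map_add, map_sub, map_pow, map_one, jj5_mod, mul_one] at k2 k3 k4 kr ki
  have hG : red 2 GG = red 2 R * red 2 kki ^ 2 * (red 2 kki ^ 2 - red 2 kki + 1) := by
    rw [GG]; simp only [map_mul, map_add, map_sub, map_pow, map_one]
  rw [hG]
  set a := red 2 (jj 1)
  set b := red 2 (jj 2)
  set c := red 2 (jj 3)
  set e := red 2 (jj 4) with he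
  set k := red 2 kk
  set I := red 2 kki
  set r := red 2 R
  set G := r * I ^ 2 * (I ^ 2 - I + 1) with hGd
  have g1 : G * (1 - k) ^ 4 = r * (1 + k - k ^ 2) := by
    rw [hGd]
    linear_combination (r * (((1 - k) * I) ^ 3 + ((1 - k) * I) ^ 2 + (1 - k) * I + 1 -
      (1 - k) * (((1 - k) * I) ^ 2 + (1 - k) * I + 1) + (1 - k) ^ 2 * ((1 - k) * I + 1))) * ki +
      r * (k ^ 2 - k) * t
  have g2 : G * a ^ 4 * e ^ 2 = b ^ 6 * c ^ 4 := by
    have hne : a * b * c ^ 4 * e ^ 2 ≠ 0 := mul_ne_zero (mul_ne_zero (mul_ne_zero hn1 hn2)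
      (pow_ne_zero _ hn3)) (pow_ne_zero _ hn4)
    apply mul_left_cancel₀ hne
    have h1 : G * (1 - k) ^ 4 * (b * c ^ 2) ^ 4 * (b * c * (a * c ^ 3)) =
      r * (1 + k - k ^ 2) * (b * c ^ 2) ^ 4 * (b * c * (a * c ^ 3)) := by rw [g1]
    have h2 : G * (1 - k) ^ 4 * (b * c ^ 2) ^ 4 * (b * c * (a * c ^ 3)) =
      G * (a * e) ^ 4 * (b * c * (a * c ^ 3)) := by
      rw [← k3]; ring
    have h3 : r * (1 + k - k ^ 2) * (b * c ^ 2) ^ 4 * (b * c * (a * c ^ 3)) =
      (b * c ^ 2) ^ 4 * (a * e) * (b ^ 3 * e) := by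
      rw [← k4, ← kr]; ring
    rw [h2, h3] at h1
    linear_combination h1
  have g3 : b ^ 3 * c ^ 2 = a ^ 2 * e ^ 3 := by
    linear_combination (a * e ^ 2) * k3 - (b * c ^ 2) * k2 + (k * a * e ^ 2 * b * c ^ 2) * t
  have g4 : G = e ^ 4 := by
    have hne : a ^ 4 * e ^ 2 ≠ 0 := mul_ne_zero (pow_ne_zero _ hn1) (pow_ne_zero _ hn4)
    apply mul_left_cancel₀ hne
    linear_combination g2 + (b ^ 3 * c ^ 2 + a ^ 2 * e ^ 3) * g3
  rw [g4]
  have g5 : e = e2 (red 2 (U 2 0 (jj 4))) := by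
    rw [he]
    nth_rw 1 [jj4_even]
    rw [red_expand]
  have g6 : e ^ 4 = e2 (e2 e) := by
    rw [← sq_eq, ← sq_eq]; ring
  rw [g6, g5, ← expand_mul, ← expand_mul]

theorem L_mod : ∃ w : (ZMod 2)⟦X⟧, w ≠ 0 ∧
    red 2 (vv * (1 + yy) ^ 2 * (1 + yy + yy ^ 2)) = X * expand 8 (by norm_num) w := by
  have hX2 : red 2 X = X := by rw [red, map_X]
  refine ⟨expand 5 (by norm_num) (red 2 (U 2 0 (jj 4))), ?_, ?_⟩
  · intro h0
    have h1 := congrArg (coeff 0) h0
    rw [coeff_zero_eq_constantCoeff_apply, constantCoeff_expand,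
      ← coeff_zero_eq_constantCoeff_apply, coeff_red, coeff_U, map_zero, mul_zero, add_zero,
      coeff_zero_eq_constantCoeff_apply] at h1
    have h2 := jj_const 4 (by norm_num) (by norm_num)
    norm_num at h2
    rw [h2] at h1
    exact absurd h1 (by decide)
  · rw [L_eq, map_mul, hX2, red_expand, GG_mod, ← expand_mul, ← expand_mul]

end Pool.Agent.N915.RR
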