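import Pool.Agent.N915.RR.Theta

/-!
The infinite products `∏_{i≥0} (1 - X^(k i + a))` and the Rogers–Ramanujan continued fraction.
-/

set_option autoImplicit false

namespace Pool.Agent.N915.RR

open Finset PowerSeries Pool.Agent.Helper308.QS Pool.Agent.V11172.Pd Pool.Agent.V11172.Ds

/-- The formal power series `∏_{i≥0} (1 - X^(k i + a))`: its coefficient of `X^n` is that of the
product of the factors `i = 0, …, n`. -/
noncomputable def qp (a k : ℕ) : ℤ⟦X⟧ :=
  PowerSeries.mk fun n => coeff n (∏ i ∈ range (n + 1), (1 - (X : ℤ⟦X⟧) ^ (k * i + a)))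

theorem dvd_prod_sub_one' (k a n N M : ℕ) (hk : 1 ≤ k) (ha : 1 ≤ a) (hN : n ≤ N) :
    (X ^ (n + 1) : ℤ⟦X⟧) ∣ ∏ i ∈ Ico N M, (1 - (X : ℤ⟦X⟧) ^ (k * i + a)) - 1 := by
  induction M with
  | zero => simp
  | succ M ih =>
    rcases Nat.lt_or_ge M N with h | h
    · rw [Ico_eq_empty (by omega)]; simp
    · rw [prod_Ico_succ_top h]
      have h2 : (X ^ (n + 1) : ℤ⟦X⟧) ∣ X ^ (k * M + a) := by
        refine pow_dvd_pow _ ?_
        nlinarith
      have e : (∏ i ∈ Ico N M, (1 - (X : ℤ⟦X⟧) ^ (k * i + a))) * (1 - X ^ (k * M + a)) - 1 =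
          (∏ i ∈ Ico N M, (1 - (X : ℤ⟦X⟧) ^ (k * i + a)) - 1) -
          X ^ (k * M + a) * ∏ i ∈ Ico N M, (1 - (X : ℤ⟦X⟧) ^ (k * i + a)) := by ring
      rw [e]
      exact dvd_sub ih (h2.mul_right _)

theorem coeff_pm (k a : ℕ) (hk : 1 ≤ k) (ha : 1 ≤ a) {m n N : ℕ} (h1 : m < n) (h2 : n ≤ N) :
    coeff m (pm k a n) = coeff m (pm k a N) := by
  have e : pm k a N = pm k a n * ∏ i ∈ Ico n N, (1 - (X : ℤ⟦X⟧) ^ (k * i + a)) := by
    rw [pm, pm, Finset.prod_range_mul_prod_Ico _ h2]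
  have h3 := dvd_prod_sub_one' k a m n N hk ha h1.le
  have h4 : (X ^ (m + 1) : ℤ⟦X⟧) ∣ pm k a N - pm k a n := by
    rw [e, show pm k a n * ∏ i ∈ Ico n N, (1 - (X : ℤ⟦X⟧) ^ (k * i + a)) - pm k a n =
      pm k a n * (∏ i ∈ Ico n N, (1 - (X : ℤ⟦X⟧) ^ (k * i + a)) - 1) by ring]
    exact h3.mul_left _
  have h5 := (X_pow_dvd_iff.1 h4) m (by omega)
  rw [map_sub, sub_eq_zero] at h5
  exact h5.symm

theorem coeff_qp (a k : ℕ) (hk : 1 ≤ k) (ha : 1 ≤ a) {m N : ℕ} (h1 : m < N) :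
    coeff m (qp a k) = coeff m (pm k a N) := by
  rw [qp, coeff_mk]
  exact coeff_pm k a hk ha (Nat.lt_succ_self m) h1

theorem pr_qp (a k : ℕ) (hk : 1 ≤ k) (ha : 1 ≤ a) {N n : ℕ} (h : N < n) :
    pr N (qp a k) = pr N (pm k a n) := by
  rw [pr_eq']
  intro m hm
  exact coeff_qp a k hk ha (by omega)

theorem qp_block (a k c : ℕ) (hk : 1 ≤ k) (ha : 1 ≤ a) (hc : 1 ≤ c) :
    qp a k = ∏ r ∈ range c, qp (k * r + a) (k * c) := by
  refine ext_pr fun N => ?_
  rw [map_prod, pr_qp a k hk ha (n := c * (N + 1)) (by nlinarith), pm_block, map_prod]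
  refine prod_congr rfl fun r _ => ?_
  rw [pr_qp (k * r + a) (k * c) (Nat.one_le_iff_ne_zero.2 (by positivity)) (by omega)
    (n := N + 1) (by omega)]

theorem qp_two (a k : ℕ) (hk : 1 ≤ k) (ha : 1 ≤ a) :
    qp a k = qp a (2 * k) * qp (k + a) (2 * k) := by
  have := qp_block a k 2 hk ha (by norm_num)
  rw [this, prod_range_succ, prod_range_one]
  simp [mul_comm]

theorem qp_expand (a k m : ℕ) (hk : 1 ≤ k) (ha : 1 ≤ a) (hm : m ≠ 0) :
    expand m hm (qp a k) = qp (m * a) (m * k) := by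
  refine ext_pr fun N => ?_
  have hm' : 1 ≤ m := Nat.one_le_iff_ne_zero.2 hm
  rw [pr_expand m hm (pr_qp a k hk ha (n := N + 1) (by omega)),
    pr_qp (m * a) (m * k) (by nlinarith) (by nlinarith) (n := N + 1) (by omega)]
  congr 1
  rw [pm, pm, map_prod]
  refine prod_congr rfl fun i _ => ?_
  rw [map_sub, map_one, map_pow, expand_X, ← pow_mul]
  congr 2
  ring

theorem qp_const (a k : ℕ) (ha : 1 ≤ a) : constantCoeff (qp a k) = 1 := by
  rw [← coeff_zero_eq_constantCoeff_apply, qp, coeff_mk]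
  simp
  omega

theorem jj_eq (a : ℕ) (h1 : 1 ≤ a) (h2 : a ≤ 9) : jj a = qp a 10 * qp (10 - a) 10 * qp 10 10 := by
  refine ext_pr fun N => ?_
  have h := jtp_series_s 10 a (by norm_num) (by omega) (ej a)
    (fun j => by unfold ej; push_cast; ring) (ej_nonneg (by omega) (by omega))
    (gj (by omega) (by omega)) (N := N) (n := N + 1) (by omega)
  rw [jj, h, map_mul, map_mul, map_mul, map_mul, pr_qp a 10 (by norm_num) h1 (n := N + 1) (by omega),
    pr_qp (10 - a) 10 (by norm_num) (by omega) (n := N + 1) (by omega),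
    pr_qp 10 10 (by norm_num) (by norm_num) (n := 2 * (N + 1)) (by omega)]
  ring

/-- The Rogers–Ramanujan continued fraction without its factor `q^(1/5)`. -/
noncomputable def R : ℤ⟦X⟧ :=
  qp 1 5 * qp 4 5 * invOfUnit (qp 2 5 * qp 3 5) 1

theorem R_mul : R * (qp 2 5 * qp 3 5) = qp 1 5 * qp 4 5 := by
  rw [R, mul_assoc, mul_comm (invOfUnit _ _), mul_invOfUnit, mul_one]
  rw [map_mul, qp_const _ _ (by norm_num), qp_const _ _ (by norm_num)]
  simp

theorem R_const : constantCoeff R = 1 := by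
  have h := congrArg (constantCoeff (R := ℤ)) R_mul
  simpa [qp_const] using h

theorem qp_ne (a k : ℕ) (ha : 1 ≤ a) : qp a k ≠ 0 := by
  intro h
  have := qp_const a k ha
  rw [h] at this
  simp at this

theorem R_jj : R * (jj 2 * jj 3) = jj 1 * jj 4 := by
  have h := R_mul
  rw [qp_two 1 5 (by norm_num) (by norm_num), qp_two 2 5 (by norm_num) (by norm_num),
    qp_two 3 5 (by norm_num) (by norm_num), qp_two 4 5 (by norm_num) (by norm_num)] at h
  norm_num at h
  have e1 := jj_eq 1 (by norm_num) (by norm_num)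
  have e2 := jj_eq 2 (by norm_num) (by norm_num)
  have e3 := jj_eq 3 (by norm_num) (by norm_num)
  have e4 := jj_eq 4 (by norm_num) (by norm_num)
  norm_num at e1 e2 e3 e4
  rw [e1, e2, e3, e4]
  linear_combination (qp 10 10) ^ 2 * h

theorem R2_jj : expand 2 two_ne_zero R * jj 4 = jj 2 := by
  have h := congrArg (expand 2 two_ne_zero) R_mul
  rw [map_mul, map_mul, map_mul, qp_expand _ _ _ (by norm_num) (by norm_num),
    qp_expand _ _ _ (by norm_num) (by norm_num), qp_expand _ _ _ (by norm_num) (by norm_num),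
    qp_expand _ _ _ (by norm_num) (by norm_num)] at h
  norm_num at h
  have e2 := jj_eq 2 (by norm_num) (by norm_num)
  have e4 := jj_eq 4 (by norm_num) (by norm_num)
  norm_num at e2 e4
  rw [e2, e4]
  linear_combination (qp 10 10) * h

end Pool.Agent.N915.RR
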