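import Pool.Agent.N915.RR.Prod

/-!
The modular equation between `R(q)` and `R(q^2)`, the parametrisation by `k`, and Ramanujan's
relation between `R(q)` and `R(q^5)`.
-/

set_option autoImplicit false

namespace Pool.Agent.N915.RR

open Finset PowerSeries Pool.Agent.Helper308.QS Pool.Agent.V11172.Pd Pool.Agent.V11172.Ds

theorem jj_const (a : ℕ) (h1 : 1 ≤ a) (h2 : a ≤ 9) : constantCoeff (jj a) = 1 := by
  rw [jj_eq a h1 h2, map_mul, map_mul, qp_const _ _ h1, qp_const _ _ (by omega),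
    qp_const _ _ (by norm_num)]
  norm_num

theorem jj_ne (a : ℕ) (h1 : 1 ≤ a) (h2 : a ≤ 9) : jj a ≠ 0 := by
  intro h
  have := jj_const a h1 h2
  rw [h] at this
  simp at this

theorem j1n : jj 1 ≠ 0 := jj_ne 1 (by norm_num) (by norm_num)
theorem j2n : jj 2 ≠ 0 := jj_ne 2 (by norm_num) (by norm_num)
theorem j3n : jj 3 ≠ 0 := jj_ne 3 (by norm_num) (by norm_num)
theorem j4n : jj 4 ≠ 0 := jj_ne 4 (by norm_num) (by norm_num)
theorem j5n : jj 5 ≠ 0 := jj_ne 5 (by norm_num) (by norm_num)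

/-- `R(q^2)` -/
noncomputable def R2 : ℤ⟦X⟧ := expand 2 two_ne_zero R

/-- the parameter `k = q R(q) R(q^2)^2` -/
noncomputable def kk : ℤ⟦X⟧ := X * R * R2 ^ 2

theorem K1 : kk * (jj 3 * jj 4) = X * jj 1 * jj 2 := by
  have h1 := R_jj
  have h2 : R2 * jj 4 = jj 2 := R2_jj
  have h3 : jj 2 * jj 4 ≠ 0 := mul_ne_zero j2n j4n
  apply mul_left_cancel₀ h3
  unfold kk
  linear_combination X * R2 ^ 2 * jj 4 ^ 2 * h1 + X * (jj 1 * jj 4) * (R2 * jj 4 + jj 2) * h2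

theorem K2 : (1 + kk) * (jj 1 * jj 4 ^ 2) = jj 2 ^ 2 * jj 5 := by
  apply mul_left_cancel₀ j3n
  linear_combination W1 + (jj 1 * jj 4) * K1

theorem K3 : (1 - kk) * (jj 2 * jj 3 ^ 2) = jj 1 * jj 4 * jj 5 := by
  apply mul_left_cancel₀ j4n
  linear_combination W2 - (jj 2 * jj 3) * K1

theorem K23 : (1 - kk ^ 2) * (jj 4 * jj 3 ^ 2) = jj 2 * jj 5 ^ 2 := by
  apply mul_left_cancel₀ (mul_ne_zero (mul_ne_zero j1n j2n) j4n)
  linear_combination (1 - kk) * (jj 2 * jj 3 ^ 2) * K2 + jj 2 ^ 2 * jj 5 * K3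

theorem K4 : (1 + kk - kk ^ 2) * (jj 1 * jj 3 ^ 3) = jj 2 ^ 3 * jj 4 := by
  apply mul_left_cancel₀ j4n
  linear_combination (jj 1 * jj 3) * K23 + jj 1 * jj 3 ^ 2 * K1 - jj 2 * W5

/-- the modular equation of degree two -/
theorem Rk : R2 * (1 - kk) = R ^ 2 * (1 + kk) := by
  have h1 := R_jj
  have h2 : R2 * jj 4 = jj 2 := R2_jj
  have e1 : R2 * (1 - kk) * jj 3 ^ 2 = jj 1 * jj 5 := by
    apply mul_left_cancel₀ (mul_ne_zero j2n j4n)
    linear_combination (1 - kk) * jj 2 * jj 3 ^ 2 * h2 + jj 2 * K3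
  have e2 : R ^ 2 * (1 + kk) * jj 3 ^ 2 = jj 1 * jj 5 := by
    apply mul_left_cancel₀ (mul_ne_zero (mul_ne_zero (pow_ne_zero 2 j2n) j1n) (pow_ne_zero 2 j4n))
    linear_combination (1 + kk) * (jj 1 * jj 4 ^ 2) * (R * (jj 2 * jj 3) + jj 1 * jj 4) * h1 +
      jj 1 ^ 2 * jj 4 ^ 2 * K2
  exact mul_right_cancel₀ (pow_ne_zero 2 j3n) (e1.trans e2.symm)

theorem Ri : R2 - R ^ 2 = X * R * R2 ^ 2 * (R2 + R ^ 2) := by
  have := Rk
  unfold kk at this
  linear_combination this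

/-- `q R^5` and its square-expansion in terms of `k` -/
theorem T1 : X * R ^ 5 * (1 + kk) ^ 2 = kk * (1 - kk) ^ 2 := by
  have h : X * R * (R ^ 2 * (1 + kk)) ^ 2 = X * R * (R2 * (1 - kk)) ^ 2 := by rw [Rk]
  have e : kk * (1 - kk) ^ 2 = X * R * (R2 * (1 - kk)) ^ 2 := by
    nth_rw 1 [kk]; ring
  rw [e, ← h]; ring

theorem T2 : X ^ 2 * R2 ^ 5 * (1 - kk) = kk ^ 2 * (1 + kk) := by
  have e : kk ^ 2 * (1 + kk) = X ^ 2 * R2 ^ 4 * (R ^ 2 * (1 + kk)) := by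
    nth_rw 1 [kk]; ring
  rw [e, ← Rk]; ring

/-- the modular equation between `q R(q)^5` and `q^2 R(q^2)^5` -/
noncomputable def MM (t T : ℤ⟦X⟧) : ℤ⟦X⟧ :=
  t ^ 2 - T + 10 * t * T - 10 * t ^ 2 * T + 10 * t * T ^ 2 + 10 * t ^ 2 * T ^ 2 + t ^ 3 * T ^ 2 +
    t * T ^ 3

theorem MM_t : MM (X * R ^ 5) (X ^ 2 * R2 ^ 5) = 0 := by
  have h1 := T1
  have h2 := T2
  set t := X * R ^ 5
  set T := X ^ 2 * R2 ^ 5
  set k := kk
  have h4 : (4 : ℤ⟦X⟧) ≠ 0 := by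
    intro h
    have := congrArg (constantCoeff (R := ℤ)) h
    rw [map_ofNat, map_zero] at this
    norm_num at this
  apply mul_left_cancel₀ h4
  unfold MM
  linear_combination (t^2*T^2 + t^2*T*k^2 + 2*t^2*T*k - t^2*T + t^2*k^2 + 10*t*T^2 + 10*t*T*k^2 + 16*t*T*k - 16*t*T - 12*t*k^2 - 8*t*k + 4*t + T^3 + T^2*k^2 + 2*T^2*k + 9*T^2 + 7*T*k^2 + 12*T*k + 12*T + 4*k^2 + 4*k) * h1 + (t^3*T*k + 3*t^3*T + t^3*k + t^3 - t^2*T*k^2 + 11*t^2*T*k + 30*t^2*T - t^2*k^2 - 9*t^2*k - 24*t^2 + t*T^2*k + 3*t*T^2 - 10*t*T*k^2 + 21*t*T*k + 31*t*T + 12*t*k^2 - 24*t*k + 28*t - T^2*k^2 + T^2*k - 7*T*k^2 + 9*T*k - 4*k^2 + 8*k - 4) * h2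

/-- uniqueness of the solution of the modular equation -/
theorem MM_unique (f g : ℤ⟦X⟧) (hf : MM f (expand 2 two_ne_zero f) = 0)
    (hg : MM g (expand 2 two_ne_zero g) = 0) (f1 g1 : ℤ⟦X⟧) (ef : f = X * f1) (eg : g = X * g1)
    (cf : constantCoeff f1 = 1) (cg : constantCoeff g1 = 1) : f = g := by
  set F := expand 2 two_ne_zero f with hF
  set G := expand 2 two_ne_zero g with hG
  have eF : F = X ^ 2 * expand 2 two_ne_zero f1 := by
    rw [hF, ef, map_mul, expand_X]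
  have eG : G = X ^ 2 * expand 2 two_ne_zero g1 := by
    rw [hG, eg, map_mul, expand_X]
  have key : (f - g) * ((f + g) + 10 * F - 10 * (f + g) * F + 10 * F ^ 2 + 10 * (f + g) * F ^ 2 +
      (f ^ 2 + f * g + g ^ 2) * F ^ 2 + F ^ 3) =
      - (expand 2 two_ne_zero (f - g)) * (-1 + 10 * g - 10 * g ^ 2 + 10 * g * (F + G) +
        10 * g ^ 2 * (F + G) + g ^ 3 * (F + G) + g * (F ^ 2 + F * G + G ^ 2)) := by
    rw [map_sub, ← hF, ← hG]
    unfold MM at hf hg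
    linear_combination hf - hg
  clear_value F G
  have hdvd : ∀ n : ℕ, (X : ℤ⟦X⟧) ^ (n + 1) ∣ f1 - g1 := by
    intro n
    induction n with
    | zero =>
      rw [zero_add, pow_one, X_dvd_iff, map_sub, cf, cg, sub_self]
    | succ n ih =>
      obtain ⟨e, he⟩ := ih
      have hd : f - g = X ^ (n + 2) * e := by
        rw [ef, eg, ← mul_sub, he]; ring
      rw [hd, map_mul, map_pow, expand_X] at key
      have key2 : X ^ (n + 3) * (e * (f1 + g1 + X * (10 * expand 2 two_ne_zero f1 -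
          10 * (f + g) * expand 2 two_ne_zero f1 + 10 * expand 2 two_ne_zero f1 * F +
          10 * (f + g) * expand 2 two_ne_zero f1 * F +
          (f ^ 2 + f * g + g ^ 2) * expand 2 two_ne_zero f1 * F +
          expand 2 two_ne_zero f1 * F ^ 2))) =
          X ^ (n + 3) * (X * (- X ^ n * expand 2 two_ne_zero e * (-1 + 10 * g - 10 * g ^ 2 +
            10 * g * (F + G) +
            10 * g ^ 2 * (F + G) + g ^ 3 * (F + G) + g * (F ^ 2 + F * G + G ^ 2)))) := by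
        have e3 : (X : ℤ⟦X⟧) ^ (n + 3) * (e * (f1 + g1 + X * (10 * expand 2 two_ne_zero f1 -
          10 * (f + g) * expand 2 two_ne_zero f1 + 10 * expand 2 two_ne_zero f1 * F +
          10 * (f + g) * expand 2 two_ne_zero f1 * F +
          (f ^ 2 + f * g + g ^ 2) * expand 2 two_ne_zero f1 * F +
          expand 2 two_ne_zero f1 * F ^ 2))) = X ^ (n + 2) * e * ((f + g) + 10 * F -
            10 * (f + g) * F + 10 * F ^ 2 + 10 * (f + g) * F ^ 2 +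
            (f ^ 2 + f * g + g ^ 2) * F ^ 2 + F ^ 3) := by
          rw [ef, eg]
          linear_combination (X ^ (n + 2) * e * (-10 + 10 * (X * f1 + X * g1) - 10 * F - 10 * (X * f1 + X * g1) * F -
            ((X * f1) ^ 2 + X * f1 * (X * g1) + (X * g1) ^ 2) * F - F ^ 2)) * eF
        rw [e3, key]
        ring
      have hX : (X : ℤ⟦X⟧) ^ (n + 3) ≠ 0 := pow_ne_zero _ X_ne_zero
      have key3 := congrArg (constantCoeff (R := ℤ)) (mul_left_cancel₀ hX key2)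
      simp only [map_mul, map_add, constantCoeff_X, zero_mul, add_zero, cf, cg] at key3
      have e0 : constantCoeff e = 0 := by linarith
      obtain ⟨e', he'⟩ := X_dvd_iff.2 e0
      refine ⟨e', ?_⟩
      rw [he, he']; ring
  have : f1 = g1 := by
    ext m
    have h := (X_pow_dvd_iff.1 (hdvd m)) m (by omega)
    rwa [map_sub, sub_eq_zero] at h
  rw [ef, eg, this]

/-- numerator -/
noncomputable def NN {A : Type*} [CommRing A] (x : A) : A := 1 - 2 * x + 4 * x ^ 2 - 3 * x ^ 3 + x ^ 4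
/-- denominator -/
noncomputable def DD {A : Type*} [CommRing A] (x : A) : A := 1 + 3 * x + 4 * x ^ 2 + 2 * x ^ 3 + x ^ 4

/-- `R(q^5)` -/
noncomputable def R5 : ℤ⟦X⟧ := expand 5 (by norm_num) R

/-- `v = q R(q^5)` -/
noncomputable def vv : ℤ⟦X⟧ := X * R5

/-- `V = v(q^2)` -/
noncomputable def VV : ℤ⟦X⟧ := expand 2 two_ne_zero vv

theorem R52_comm : expand 5 (by norm_num) R2 = expand 2 two_ne_zero R5 := by
  rw [R2, R5, ← expand_mul, ← expand_mul]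

theorem VV_eq : VV = X ^ 2 * expand 2 two_ne_zero R5 := by
  rw [VV, vv, map_mul, expand_X]

theorem vi : VV - vv ^ 2 = vv * VV ^ 2 * (VV + vv ^ 2) := by
  have h := congrArg (expand 5 (by norm_num)) Ri
  rw [map_sub, map_pow, map_mul, map_mul, map_mul, map_add, map_pow, expand_X, map_pow,
    R52_comm, ← R5] at h
  rw [VV_eq, vv]
  linear_combination X ^ 2 * h

theorem R5_const : constantCoeff R5 = 1 := by
  rw [R5, constantCoeff_expand, R_const]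

theorem vv_const : constantCoeff vv = 0 := by
  rw [vv, map_mul, constantCoeff_X, zero_mul]

theorem VV_const : constantCoeff VV = 0 := by
  rw [VV, constantCoeff_expand, vv_const]

theorem DD_const {x : ℤ⟦X⟧} (h : constantCoeff x = 0) : constantCoeff (DD x) = 1 := by
  unfold DD
  simp [h]

theorem NN_const {x : ℤ⟦X⟧} (h : constantCoeff x = 0) : constantCoeff (NN x) = 1 := by
  unfold NN
  simp [h]

theorem DD_ne {x : ℤ⟦X⟧} (h : constantCoeff x = 0) : DD x ≠ 0 := by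
  intro h'
  have := DD_const h
  rw [h'] at this
  simp at this

theorem expand_DD (x : ℤ⟦X⟧) : expand 2 two_ne_zero (DD x) = DD (expand 2 two_ne_zero x) := by
  unfold DD
  simp only [map_add, map_mul, map_pow, map_one, map_ofNat]

theorem expand_NN (x : ℤ⟦X⟧) : expand 2 two_ne_zero (NN x) = NN (expand 2 two_ne_zero x) := by
  unfold NN
  simp only [map_add, map_sub, map_mul, map_pow, map_one, map_ofNat]

set_option maxHeartbeats 4000000 in
theorem HH {A : Type*} [CommRing A] (v V : A) (h : V - v ^ 2 = v * V ^ 2 * (V + v ^ 2)) :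
    (v * NN v) ^ 2 * DD v * DD V ^ 3 - (V * NN V) * DD v ^ 3 * DD V ^ 2 +
    10 * (v * NN v) * (V * NN V) * DD v ^ 2 * DD V ^ 2 -
    10 * (v * NN v) ^ 2 * (V * NN V) * DD v * DD V ^ 2 +
    10 * (v * NN v) * (V * NN V) ^ 2 * DD v ^ 2 * DD V +
    10 * (v * NN v) ^ 2 * (V * NN V) ^ 2 * DD v * DD V +
    (v * NN v) ^ 3 * (V * NN V) ^ 2 * DD V + (v * NN v) * (V * NN V) ^ 3 * DD v ^ 2 = 0 := by
  unfold NN DD
  linear_combination ((-V^12 - V^11 - 4*V^10 - 5*V^8 - 6*V^7 - 21*V^6 - 29*V^5 - 25*V^4 - 15*V^3 - 9*V^2 - 4*V - 1) + v * (-4*V^12 - 14*V^11 + 44*V^10 - 20*V^9 - 35*V^8 - 29*V^7 + 71*V^6 - V^5 + 40*V^4 + 45*V^3 - V^2 + 14*V + 1) + v^2 * (-9*V^12 + V^11 - 36*V^10 + 185*V^9 - 275*V^8 + 261*V^7 + 301*V^6 + 24*V^5 + 105*V^4 + 225*V^3 - 36*V^2 + 44*V - 4) + v^3 * (-15*V^12 - 45*V^11 + 225*V^10 - 75*V^9 + 275*V^8 - 440*V^7 + 455*V^6 - 325*V^5 - 225*V^4 + 75*V^3 - 185*V^2 + 20*V) + v^4 * (-25*V^12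 - 40*V^11 + 105*V^10 + 225*V^9 - 825*V^8 + 125*V^7 + 35*V^6 - 1020*V^5 - 825*V^4 + 275*V^3 - 275*V^2 - 35*V - 5) + v^5 * (-29*V^12 + V^11 + 24*V^10 + 325*V^9 - 1020*V^8 - 174*V^7 + 196*V^6 + 174*V^5 - 125*V^4 + 440*V^3 - 261*V^2 + 29*V + 6) + v^6 * (-21*V^12 - 71*V^11 + 301*V^10 - 455*V^9 + 35*V^8 - 196*V^7 + 2369*V^6 + 196*V^5 + 35*V^4 + 455*V^3 + 301*V^2 + 71*V - 21) + v^7 * (-6*V^12 + 29*V^11 + 261*V^10 + 440*V^9 + 125*V^8 + 174*V^7 - 196*V^6 - 174*V^5 + 1020*V^4 + 325*V^3 - 24*V^2 + V + 29) + v^8 * (-5*V^12 + 35*V^11 - 275*V^10 - 275*V^9 - 825*V^8 + 1020*V^7 + 35*V^6 - 125*V^5 - 825*V^4 - 225*V^3 + 105*V^2 + 40*V - 25) + v^9 * (20*V^11 + 185*V^10 + 75*V^9 + 225*V^8 - 325*V^7 - 455*V^6 - 440*V^5 - 275*V^4 - 75*V^3 - 225*V^2 - 45*V + 15) + v^10 * (-4*V^12 - 44*V^11 - 36*V^10 - 225*V^9 + 105*V^8 - 24*V^7 + 301*V^6 - 261*V^5 - 275*V^4 - 185*V^3 - 36*V^2 - V - 9) + v^11 * (-V^12 + 14*V^11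 + V^10 + 45*V^9 - 40*V^8 - V^7 - 71*V^6 - 29*V^5 + 35*V^4 - 20*V^3 - 44*V^2 - 14*V + 4) + v^12 * (-V^12 + 4*V^11 - 9*V^10 + 15*V^9 - 25*V^8 + 29*V^7 - 21*V^6 + 6*V^5 - 5*V^4 - 4*V^2 + V - 1)) * h

/-- Ramanujan's relation: `R(q)^5 D(v) = R(q^5) N(v)` -/
theorem ramanujan : R ^ 5 * DD vv = R5 * NN vv := by
  set I := invOfUnit (DD vv) 1 with hI
  have hI1 : DD vv * I = 1 := by
    rw [hI, mul_invOfUnit]
    rw [DD_const vv_const]; rfl
  have hI2 : DD VV * expand 2 two_ne_zero I = 1 := by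
    have := congrArg (expand 2 two_ne_zero) hI1
    rw [map_mul, expand_DD, map_one] at this
    exact this
  have hIc : constantCoeff I = 1 := by
    have := congrArg (constantCoeff (R := ℤ)) hI1
    rw [map_mul, DD_const vv_const, one_mul, map_one] at this
    exact this
  set J := expand 2 two_ne_zero I with hJ
  have hg : MM (vv * NN vv * I) (expand 2 two_ne_zero (vv * NN vv * I)) = 0 := by
    rw [map_mul, map_mul, expand_NN, ← VV, ← hJ]
    have h := HH vv VV vi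
    have h3 : DD vv ^ 3 * DD VV ^ 3 ≠ 0 :=
      mul_ne_zero (pow_ne_zero _ (DD_ne vv_const)) (pow_ne_zero _ (DD_ne VV_const))
    apply mul_left_cancel₀ h3
    rw [mul_zero, ← h]
    have e1 : ∀ a D I : ℤ⟦X⟧, D * I = 1 → ∃ t, t = a * I ∧ t * D = a := fun a D I h =>
      ⟨a * I, rfl, by rw [mul_assoc, mul_comm I, h, mul_one]⟩
    obtain ⟨t, ht, ht'⟩ := e1 (vv * NN vv) _ _ hI1
    obtain ⟨T, hT, hT'⟩ := e1 (VV * NN VV) _ _ hI2
    rw [← ht, ← hT, ← ht', ← hT']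
    unfold MM
    ring
  have hf : MM (X * R ^ 5) (expand 2 two_ne_zero (X * R ^ 5)) = 0 := by
    rw [map_mul, expand_X, map_pow, ← R2]
    exact MM_t
  have h := MM_unique (X * R ^ 5) (vv * NN vv * I) hf hg (R ^ 5) (R5 * NN vv * I) rfl
    (by rw [vv]; ring) (by rw [map_pow, R_const, one_pow])
    (by rw [map_mul, map_mul, R5_const, NN_const vv_const, hIc]; norm_num)
  have h2 : X * R ^ 5 * DD vv = X * (R5 * NN vv) := by
    rw [h]
    have : vv * NN vv * I * DD vv = vv * NN vv * (DD vv * I) := by ring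
    rw [this, hI1, mul_one]
    nth_rw 1 [vv]
    ring
  rw [mul_assoc] at h2
  exact mul_left_cancel₀ X_ne_zero h2

end Pool.Agent.N915.RR
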