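import Pool.Agent.N915.RR.JTP

/-!
The theta functions `j_a = ∑ (-1)^n q^(5n(n-1)+an)` and their products.
-/

set_option autoImplicit false

namespace Pool.Agent.N915.RR

open Finset PowerSeries Pool.Agent.Helper308.QS Pool.Agent.V11172.Pd Pool.Agent.V11172.Ds

/-- exponents of `j_a` -/
def ej (a : ℤ) (n : ℤ) : ℤ := 5 * n * (n - 1) + a * n
/-- exponents of `A_c` -/
def eC (c : ℤ) (t : ℤ) : ℤ := 10 * t ^ 2 + c * t

theorem ej_nonneg {a : ℤ} (h1 : 0 ≤ a) (h2 : a ≤ 10) (n : ℤ) : 0 ≤ ej a n := by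
  unfold ej
  rcases le_or_gt n 0 with h | h
  · rcases eq_or_lt_of_le h with rfl | h'
    · norm_num
    · have : n ≤ -1 := by omega
      nlinarith
  · nlinarith

theorem gj {a : ℤ} (h1 : 0 ≤ a) (h2 : a ≤ 9) : Gr (ej a) := by
  intro n
  unfold ej
  rw [abs_le]
  rcases le_or_gt n 0 with h | h
  · rcases eq_or_lt_of_le h with rfl | h'
    · norm_num
    · have : n ≤ -1 := by omega
      constructor <;> nlinarith
  · have : 1 ≤ n := by omega
    rcases eq_or_lt_of_le this with h' | h'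
    · subst h'; constructor <;> nlinarith
    · have : 2 ≤ n := by omega
      constructor <;> nlinarith

theorem eC_nonneg {a : ℤ} (h1 : 0 ≤ a) (h2 : a ≤ 10) (n : ℤ) : 0 ≤ eC a n := by
  unfold eC
  rcases le_or_gt n 0 with h | h
  · rcases eq_or_lt_of_le h with rfl | h'
    · norm_num
    · have : n ≤ -1 := by omega
      nlinarith
  · nlinarith

theorem gC {a : ℤ} (h1 : 0 ≤ a) (h2 : a ≤ 9) : Gr (eC a) := by
  intro n
  unfold eC
  rw [abs_le]
  rcases le_or_gt n 0 with h | h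
  · rcases eq_or_lt_of_le h with rfl | h'
    · norm_num
    · have : n ≤ -1 := by omega
      constructor <;> nlinarith
  · have : 1 ≤ n := by omega
    constructor <;> nlinarith

/-- `j_a` -/
noncomputable def jj (a : ℤ) : ℤ⟦X⟧ := th sg (ej a)
/-- `A_c` -/
noncomputable def AC (c : ℤ) : ℤ⟦X⟧ := th (fun _ => 1) (eC c)

theorem neg_th (c : ℤ → ℤ) (e : ℤ → ℤ) : - th c e = th (fun i => - c i) e := by
  ext n
  rw [map_neg, th, th, coeff_mk, coeff_mk, ← sum_neg_distrib]
  refine sum_congr rfl fun i _ => ?_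
  split_ifs <;> simp

theorem gr_add {e : ℤ → ℤ} (h : Gr e) (s : ℕ) : Gr (fun i => e i + s) := fun i => by
  have := h i
  have h2 : (0 : ℤ) ≤ s := by positivity
  simp only
  linarith

theorem jj_mul (a b : ℕ) (hb : 0 < b) (hab : b ≤ a) (h9 : a + b ≤ 9) :
    jj a * jj b = AC (10 - (a + b)) * AC (a - b) - X ^ b * (AC (a + b) * AC (10 - (a - b))) := by
  have ha : 0 < a := lt_of_lt_of_le hb hab
  have ha' : (1 : ℤ) ≤ a := by exact_mod_cast ha
  have hb' : (1 : ℤ) ≤ b := by exact_mod_cast hb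
  have hab' : (b : ℤ) ≤ a := by exact_mod_cast hab
  have h9' : (a : ℤ) + b ≤ 9 := by exact_mod_cast h9
  have n1 := ej_nonneg (a := a) (by omega) (by omega)
  have n2 := ej_nonneg (a := b) (by omega) (by omega)
  have g1 := gj (a := a) (by omega) (by omega)
  have g2 := gj (a := b) (by omega) (by omega)
  have n3 := eC_nonneg (a := 10 - (a + b)) (by omega) (by omega)
  have g3 := gC (a := 10 - (a + b)) (by omega) (by omega)
  have n4 := eC_nonneg (a := a - b) (by omega) (by omega)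
  have g4 := gC (a := a - b) (by omega) (by omega)
  have n5 := eC_nonneg (a := a + b) (by omega) (by omega)
  have g5 := gC (a := a + b) (by omega) (by omega)
  have n6 := eC_nonneg (a := 10 - (a - b)) (by omega) (by omega)
  have g6 : Gr (eC (10 - (a - b))) := by
    intro n
    unfold eC
    rw [abs_le]
    rcases le_or_gt n 0 with h | h
    · rcases eq_or_lt_of_le h with rfl | h'
      · norm_num
      · have : n ≤ -1 := by omega
        constructor <;> nlinarith
    · have : 1 ≤ n := by omega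
      constructor <;> nlinarith
  have g5' := gr_add g5 b
  have n5' : ∀ i, 0 ≤ (fun i => eC (a + b) i + (b : ℤ)) i := fun i => by
    have := n5 i
    simp only
    omega
  rw [sub_eq_add_neg, ← mul_assoc, ← neg_mul, AC, AC, AC, AC, jj, jj, X_mul_th b _ g5 n5, neg_th,
    th_mul _ _ g1 g2 n1 n2, th_mul _ _ g3 g4 n3 n4, th_mul _ _ g5' g6 n5' n6]
  have hsplit : th2 (fun p => sg p.1 * sg p.2) (fun p => ej a p.1 + ej b p.2) =
      th2 (fun p => if (p.1 + p.2) % 2 = 0 then sg p.1 * sg p.2 else 0)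
        (fun p => ej a p.1 + ej b p.2) +
      th2 (fun p => if (p.1 + p.2) % 2 = 1 then sg p.1 * sg p.2 else 0)
        (fun p => ej a p.1 + ej b p.2) := by
    rw [← th2_add]
    congr 1
    funext p
    rcases (by omega : (p.1 + p.2) % 2 = 0 ∨ (p.1 + p.2) % 2 = 1) with h | h <;> simp [h]
  have G := gr2_add g1 g2 n1 n2
  rw [hsplit]
  congr 1
  · refine (th2_bij G (gr2_add g3 g4 n3 n4) (fun p => (p.2 - p.1, - p.1 - p.2))
      (fun q => (-((q.1 + q.2) / 2), (q.1 - q.2) / 2)) ?_ ?_ ?_ ?_).symm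
    · rintro ⟨s, t⟩
      simp only [Prod.mk.injEq]
      constructor <;> omega
    · rintro ⟨n, m⟩ hq
      have : (n + m) % 2 = 0 := by by_contra hh; simp only at hq; rw [if_neg hh] at hq; exact hq rfl
      simp only [Prod.mk.injEq]
      constructor <;> omega
    · rintro ⟨s, t⟩
      simp only [eC, ej]
      ring
    · rintro ⟨s, t⟩
      simp only
      rw [if_pos (by omega), ← sg_add]
      have : t - s + (-s - t) = 2 * (-s) := by ring
      rw [this]
      unfold sg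
      rw [if_pos (even_two_mul _), one_mul]
  · refine (th2_bij G (gr2_add g5' g6 n5' n6) (fun p => (p.1 - p.2, p.1 + p.2 + 1))
      (fun q => ((q.1 + q.2 - 1) / 2, (q.2 - q.1 - 1) / 2)) ?_ ?_ ?_ ?_).symm
    · rintro ⟨s, t⟩
      simp only [Prod.mk.injEq]
      constructor <;> omega
    · rintro ⟨n, m⟩ hq
      have : (n + m) % 2 = 1 := by by_contra hh; simp only at hq; rw [if_neg hh] at hq; exact hq rfl
      simp only [Prod.mk.injEq]
      constructor <;> omega
    · rintro ⟨s, t⟩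
      simp only [eC, ej]
      ring
    · rintro ⟨s, t⟩
      simp only
      rw [if_pos (by omega), ← sg_add]
      have : s - t + (s + t + 1) = 2 * s + 1 := by ring
      rw [this]
      unfold sg
      rw [if_neg (by rw [Int.not_even_iff_odd]; exact ⟨s, rfl⟩)]
      ring

theorem j21 : jj 2 * jj 1 = AC 7 * AC 1 - X * (AC 3 * AC 9) := by
  have := jj_mul 2 1 (by norm_num) (by norm_num) (by norm_num)
  norm_num at this; exact this
theorem j32 : jj 3 * jj 2 = AC 5 * AC 1 - X ^ 2 * (AC 5 * AC 9) := by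
  have := jj_mul 3 2 (by norm_num) (by norm_num) (by norm_num)
  norm_num at this; exact this
theorem j41 : jj 4 * jj 1 = AC 5 * AC 3 - X * (AC 5 * AC 7) := by
  have := jj_mul 4 1 (by norm_num) (by norm_num) (by norm_num)
  norm_num at this; exact this
theorem j43 : jj 4 * jj 3 = AC 3 * AC 1 - X ^ 3 * (AC 7 * AC 9) := by
  have := jj_mul 4 3 (by norm_num) (by norm_num) (by norm_num)
  norm_num at this; exact this
theorem j52 : jj 5 * jj 2 = AC 3 * AC 3 - X ^ 2 * (AC 7 * AC 7) := by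
  have := jj_mul 5 2 (by norm_num) (by norm_num) (by norm_num)
  norm_num at this; exact this
theorem j54 : jj 5 * jj 4 = AC 1 * AC 1 - X ^ 4 * (AC 9 * AC 9) := by
  have := jj_mul 5 4 (by norm_num) (by norm_num) (by norm_num)
  norm_num at this; exact this
theorem j31 : jj 3 * jj 1 = AC 6 * AC 2 - X * (AC 4 * AC 8) := by
  have := jj_mul 3 1 (by norm_num) (by norm_num) (by norm_num)
  norm_num at this; exact this
theorem j42 : jj 4 * jj 2 = AC 4 * AC 2 - X ^ 2 * (AC 6 * AC 8) := by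
  have := jj_mul 4 2 (by norm_num) (by norm_num) (by norm_num)
  norm_num at this; exact this
theorem j53 : jj 5 * jj 3 = AC 2 * AC 2 - X ^ 3 * (AC 8 * AC 8) := by
  have := jj_mul 5 3 (by norm_num) (by norm_num) (by norm_num)
  norm_num at this; exact this
theorem j51 : jj 5 * jj 1 = AC 4 * AC 4 - X * (AC 6 * AC 6) := by
  have := jj_mul 5 1 (by norm_num) (by norm_num) (by norm_num)
  norm_num at this; exact this

/-- `j1 j4 (j3 j4 + q j1 j2) = j2^2 j3 j5` -/
theorem W1 : jj 1 * jj 4 * (jj 3 * jj 4 + X * jj 1 * jj 2) = jj 2 ^ 2 * jj 3 * jj 5 := by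
  have e1 : jj 1 * jj 4 * (jj 3 * jj 4 + X * jj 1 * jj 2) =
      (jj 4 * jj 1) * (jj 4 * jj 3 + X * (jj 2 * jj 1)) := by ring
  have e2 : jj 2 ^ 2 * jj 3 * jj 5 = (jj 3 * jj 2) * (jj 5 * jj 2) := by ring
  rw [e1, e2, j41, j43, j21, j32, j52]
  ring

/-- `j2 j3 (j3 j4 - q j1 j2) = j1 j4^2 j5` -/
theorem W2 : jj 2 * jj 3 * (jj 3 * jj 4 - X * jj 1 * jj 2) = jj 1 * jj 4 ^ 2 * jj 5 := by
  have e1 : jj 2 * jj 3 * (jj 3 * jj 4 - X * jj 1 * jj 2) =
      (jj 3 * jj 2) * (jj 4 * jj 3 - X * (jj 2 * jj 1)) := by ring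
  have e2 : jj 1 * jj 4 ^ 2 * jj 5 = (jj 4 * jj 1) * (jj 5 * jj 4) := by ring
  rw [e1, e2, j41, j43, j21, j32, j54]
  ring

/-- `j2^2 j4^2 = j1 j3 j5^2 + q j1^2 j3^2` -/
theorem W5 : jj 2 ^ 2 * jj 4 ^ 2 = jj 1 * jj 3 * jj 5 ^ 2 + X * jj 1 ^ 2 * jj 3 ^ 2 := by
  have e1 : jj 2 ^ 2 * jj 4 ^ 2 = (jj 4 * jj 2) * (jj 4 * jj 2) := by ring
  have e2 : jj 1 * jj 3 * jj 5 ^ 2 + X * jj 1 ^ 2 * jj 3 ^ 2 =
      (jj 5 * jj 1) * (jj 5 * jj 3) + X * ((jj 3 * jj 1) * (jj 3 * jj 1)) := by ring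
  rw [e1, e2, j42, j51, j53, j31]
  ring

end Pool.Agent.N915.RR
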