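import Pool.Agent.N915.RR.Rel

/-!
The level two structure: dissection operators, and the relations between `v`, `y` and `v(q^2)`,
`y(q^2)`.
-/

set_option autoImplicit false

namespace Pool.Agent.N915.RR

open Finset PowerSeries Pool.Agent.Helper308.QS

section U

variable {A : Type*} [CommRing A]

/-- extraction of the coefficients in a residue class -/
noncomputable def U (k r : ℕ) (f : A⟦X⟧) : A⟦X⟧ := PowerSeries.mk fun n => coeff (k * n + r) f

theorem coeff_U (k r : ℕ) (f : A⟦X⟧) (n : ℕ) : coeff n (U k r f) = coeff (k * n + r) f := by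
  rw [U, coeff_mk]

theorem U_add (k r : ℕ) (f g : A⟦X⟧) : U k r (f + g) = U k r f + U k r g := by
  ext n; simp [coeff_U]

theorem U_mul (k r : ℕ) (hk : k ≠ 0) (hr : r < k) (g f : A⟦X⟧) :
    U k r (expand k hk g * f) = g * U k r f := by
  ext n
  rw [coeff_U, coeff_mul, coeff_mul]
  symm
  refine sum_bij_ne_zero (fun p _ _ => (k * p.1, k * p.2 + r)) ?_ ?_ ?_ ?_
  · intro p hp _
    rw [HasAntidiagonal.mem_antidiagonal] at hp ⊢
    rw [← hp]; ring
  · intro p _ _ q _ _ h
    simp only [Prod.mk.injEq] at h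
    have h1 := Nat.eq_of_mul_eq_mul_left (Nat.pos_of_ne_zero hk) h.1
    have h2 := Nat.eq_of_mul_eq_mul_left (Nat.pos_of_ne_zero hk) (Nat.add_right_cancel h.2)
    exact Prod.ext h1 h2
  · intro q hq hne
    rw [HasAntidiagonal.mem_antidiagonal] at hq
    have hd : k ∣ q.1 := by
      by_contra hd
      rw [coeff_expand_of_not_dvd k hk _ hd, zero_mul] at hne
      exact hne rfl
    obtain ⟨a, ha⟩ := hd
    have h1 : a ≤ n := by
      by_contra hlt
      have : n + 1 ≤ a := by omega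
      have h2 : k * (n + 1) ≤ k * a := Nat.mul_le_mul_left _ this
      have : k * (n + 1) = k * n + k := by ring
      omega
    obtain ⟨b, hb⟩ := Nat.exists_eq_add_of_le h1
    have h3 : q.2 = k * b + r := by
      have : k * n = k * a + k * b := by rw [hb]; ring
      omega
    refine ⟨(a, b), ?_, ?_, ?_⟩
    · rw [HasAntidiagonal.mem_antidiagonal, hb]
    · rw [ha, coeff_expand_mul, h3] at hne
      simp only
      rw [coeff_U]
      exact hne
    · ext <;> simp [ha, h3]
  · intro p _ _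
    simp only
    rw [coeff_U, coeff_expand_mul]

theorem U_expand (k : ℕ) (hk : k ≠ 0) (g : A⟦X⟧) : U k 0 (expand k hk g) = g := by
  ext n
  rw [coeff_U, add_zero, coeff_expand_mul]

theorem U_expand_ne (k r : ℕ) (hk : k ≠ 0) (h0 : 0 < r) (hr : r < k) (g : A⟦X⟧) :
    U k r (expand k hk g) = 0 := by
  ext n
  rw [coeff_U, coeff_expand_of_not_dvd, map_zero]
  intro hd
  have := (Nat.dvd_add_right (Dvd.intro n rfl)).1 hd
  exact absurd (Nat.le_of_dvd h0 this) (by omega)

/-- equality from the two dissections -/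
theorem ext_U {f g : A⟦X⟧} (h0 : U 2 0 f = U 2 0 g) (h1 : U 2 1 f = U 2 1 g) : f = g := by
  ext n
  rcases Nat.even_or_odd' n with ⟨m, h | h⟩
  · have := congrArg (coeff m) h0
    rw [coeff_U, coeff_U] at this
    rw [h]; exact this
  · have := congrArg (coeff m) h1
    rw [coeff_U, coeff_U] at this
    rw [h]; exact this

theorem U0_X (g : A⟦X⟧) : U 2 0 (X * g) = X * U 2 1 g := by
  ext n
  rw [coeff_U, add_zero]
  cases n with
  | zero => simp
  | succ n =>
    rw [coeff_succ_X_mul, coeff_U, show 2 * (n + 1) = (2 * n + 1) + 1 by ring, coeff_succ_X_mul]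

theorem U1_X (g : A⟦X⟧) : U 2 1 (X * g) = U 2 0 g := by
  ext n
  rw [coeff_U, coeff_U, coeff_succ_X_mul, add_zero]

theorem U_map {B : Type*} [CommRing B] (ρ : A →+* B) (k r : ℕ) (f : A⟦X⟧) :
    U k r (PowerSeries.map ρ f) = PowerSeries.map ρ (U k r f) := by
  ext n
  rw [coeff_U, coeff_map, coeff_map, coeff_U]

theorem dissect (f : A⟦X⟧) :
    f = expand 2 two_ne_zero (U 2 0 f) + X * expand 2 two_ne_zero (U 2 1 f) := by
  apply ext_U
  · rw [U_add, U_expand, U0_X, U_expand_ne 2 1 two_ne_zero one_pos one_lt_two, mul_zero, add_zero]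
  · rw [U_add, U1_X, U_expand, U_expand_ne 2 1 two_ne_zero one_pos one_lt_two, zero_add]

end U

/-- `κ = v V^2` -/
noncomputable def ka : ℤ⟦X⟧ := vv * VV ^ 2

theorem ka_const : constantCoeff ka = 0 := by
  rw [ka, map_mul, vv_const, zero_mul]

theorem ka_eq : ka = expand 5 (by norm_num) kk := by
  rw [ka, VV_eq, vv, kk, map_mul, map_mul, map_pow, expand_X, R52_comm, ← R5]
  ring

theorem ka_rel : VV * (1 - ka) = vv ^ 2 * (1 + ka) := by
  have := vi
  unfold ka
  linear_combination this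

/-- `(1 - κ)⁻¹` -/
noncomputable def ki : ℤ⟦X⟧ := invOfUnit (1 - ka) 1

theorem ki_mul : (1 - ka) * ki = 1 := by
  rw [ki, mul_invOfUnit]
  simp [ka_const]

/-- `y = κ / (1 - κ)` -/
noncomputable def yy : ℤ⟦X⟧ := ka * ki

theorem yy_const : constantCoeff yy = 0 := by
  rw [yy, map_mul, ka_const, zero_mul]

theorem one_add_yy : (1 - ka) * (1 + yy) = 1 := by
  rw [yy]
  linear_combination ka * ki_mul

theorem VV_yy : VV = vv ^ 2 * (1 + 2 * yy) := by
  have h1 := ka_rel
  have h2 := one_add_yy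
  have h3 : ka * (1 + yy) = yy := by linear_combination (-1 : ℤ⟦X⟧) * h2
  linear_combination (1 + yy) * h1 - VV * h2 + vv ^ 2 * h3

theorem y_rel : vv ^ 5 * (1 + 2 * yy) ^ 2 * (1 + yy) = yy := by
  have h2 := one_add_yy
  have h3 : ka * (1 + yy) = yy := by linear_combination (-1 : ℤ⟦X⟧) * h2
  have h4 : ka = vv ^ 5 * (1 + 2 * yy) ^ 2 := by
    rw [ka, VV_yy]; ring
  rw [← h4]; exact h3

/-- `Y = y(q^2)` -/
noncomputable def YY : ℤ⟦X⟧ := expand 2 two_ne_zero yy

theorem Y_rel : VV ^ 5 * (1 + 2 * YY) ^ 2 * (1 + YY) = YY := by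
  have h := congrArg (expand 2 two_ne_zero) y_rel
  simp only [map_mul, map_pow, map_add, map_one, map_ofNat] at h
  exact h

theorem YY_const : constantCoeff YY = 0 := by
  rw [YY, constantCoeff_expand, yy_const]

theorem quad : vv ^ 2 + 2 * VV ^ 3 * (1 + 2 * YY) * (1 + YY) * vv - VV * (1 + 2 * YY) = 0 := by
  have h1 := vi
  have h2 := Y_rel
  have h3 : VV ^ 2 * (1 + 2 * YY) * vv + 1 ≠ 0 := by
    intro h0
    have := congrArg (constantCoeff (R := ℤ)) h0
    simp [vv_const] at this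
  apply mul_left_cancel₀ h3
  rw [mul_zero]
  linear_combination (-(1 + 2 * YY)) * h1 + (2 * vv ^ 2) * h2

theorem y3 : (1 + 2 * YY) ^ 2 * yy = YY + VV ^ 2 * (1 + 2 * YY) * (1 + YY) * vv := by
  have h1 := one_add_yy
  have h2 := Y_rel
  have h3 := quad
  have hne : (1 - ka) ≠ 0 := by
    intro h0
    have := congrArg (constantCoeff (R := ℤ)) h0
    simp [ka_const] at this
  apply mul_left_cancel₀ hne
  have e : (1 - ka) * ((1 + 2 * YY) ^ 2 * yy) = (1 + 2 * YY) ^ 2 * (vv * VV ^ 2) := by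
    rw [← ka]
    linear_combination (1 + 2 * YY) ^ 2 * h1
  rw [e, ka]
  linear_combination (1 - 2 * vv * VV ^ 2 * (1 + YY)) * h2 + VV ^ 4 * (1 + 2 * YY) * (1 + YY) * h3

/-- the odd part of `v` -/
noncomputable def de : ℤ⟦X⟧ := vv + VV ^ 3 * (1 + 2 * YY) * (1 + YY)

theorem de_sq : de ^ 2 = VV * (1 + 3 * YY + YY ^ 2) := by
  have h2 := Y_rel
  have h3 := quad
  unfold de
  linear_combination h3 + VV * (1 + YY) * h2

theorem vv_de : vv = de - VV ^ 3 * (1 + 2 * YY) * (1 + YY) := by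
  unfold de; ring

/-- `x ↦ f(-x)` in terms of the dissection: `δ` has only odd exponents -/
theorem de_odd : U 2 0 de = 0 := by
  have h1 := dissect de
  set a := U 2 0 de with ha
  set b := U 2 1 de with hb
  have h2 : de ^ 2 = expand 2 two_ne_zero (vv * (1 + 3 * yy + yy ^ 2)) := by
    rw [de_sq]
    simp only [map_mul, map_pow, map_add, map_one, map_ofNat]
    rfl
  have h3 : U 2 1 (de ^ 2) = 0 := by
    rw [h2, U_expand_ne 2 1 two_ne_zero one_pos one_lt_two]
  have h4 : de ^ 2 = expand 2 two_ne_zero (a ^ 2 + X * b ^ 2) +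
      expand 2 two_ne_zero (2 * a * b) * X := by
    nth_rw 1 [h1]
    simp only [map_mul, map_pow, map_add, map_ofNat, expand_X]
    ring
  rw [h4, U_add, U_expand_ne 2 1 two_ne_zero one_pos one_lt_two, zero_add,
    U_mul 2 1 two_ne_zero one_lt_two] at h3
  have h5 : U 2 1 (X : ℤ⟦X⟧) = 1 := by
    have : (X : ℤ⟦X⟧) = X * 1 := by ring
    rw [this, U1_X]
    have : (1 : ℤ⟦X⟧) = expand 2 two_ne_zero 1 := by rw [map_one]
    rw [this, U_expand, map_one]
  rw [h5, mul_one] at h3
  have h6 : b ≠ 0 := by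
    intro h0
    have h7 : coeff 1 de = coeff 0 b := by rw [hb, coeff_U]
    rw [h0, map_zero] at h7
    have h8 : coeff 1 de = 1 := by
      rw [de, VV_eq, vv, map_add]
      have e1 : (X ^ 2 * expand 2 two_ne_zero R5) ^ 3 * (1 + 2 * YY) * (1 + YY) =
        X ^ 6 * ((expand 2 two_ne_zero R5) ^ 3 * (1 + 2 * YY) * (1 + YY)) := by ring
      have h5 : coeff 1 (X * R5) = coeff 0 R5 := coeff_succ_X_mul 0 _
      rw [e1, coeff_X_pow_mul', if_neg (by norm_num), add_zero, h5,
        coeff_zero_eq_constantCoeff_apply, R5_const]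
    rw [h8] at h7
    exact one_ne_zero h7
  have h9 : (2 : ℤ⟦X⟧) ≠ 0 := by
    intro h
    have := congrArg (constantCoeff (R := ℤ)) h
    rw [map_ofNat, map_zero] at this
    norm_num at this
  rcases mul_eq_zero.1 h3 with h | h
  · rcases mul_eq_zero.1 h with h | h
    · exact absurd h h9
    · exact h
  · exact absurd h h6

end Pool.Agent.N915.RR
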