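import Pool.Agent.N915.RR.Eight

/-!
The congruences modulo 4 and 8 from the dissections.
-/

set_option autoImplicit false

namespace Pool.Agent.N915.RR

open Finset PowerSeries Pool.Agent.Helper308.QS Pool.Agent.V11172.Ds

/-- `q ↦ q^2` -/
noncomputable abbrev e2 {A : Type*} [CommRing A] : A⟦X⟧ →ₐ[A] A⟦X⟧ := expand 2 two_ne_zero

theorem red_iff (m : ℕ) {f g : ℤ⟦X⟧} : red m f = red m g ↔ ∃ h, f = g + (m : ℤ⟦X⟧) * h := by
  constructor
  · intro h
    have h1 : ∀ n, ∃ c : ℤ, coeff n f = coeff n g + m * c := by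
      intro n
      have h2 := congrArg (coeff n) h
      rw [coeff_red, coeff_red, ZMod.intCast_eq_intCast_iff_dvd_sub] at h2
      obtain ⟨c, hc⟩ := h2
      exact ⟨-c, by linarith⟩
    choose c hc using h1
    refine ⟨PowerSeries.mk c, ?_⟩
    ext n
    rw [map_add, hc]
    have : ((m : ℕ) : ℤ⟦X⟧) = C (m : ℤ) := by simp
    rw [this, coeff_C_mul, coeff_mk]
  · rintro ⟨h, rfl⟩
    rw [map_add, map_mul, map_natCast]
    have : ((m : ℕ) : (ZMod m)⟦X⟧) = 0 := by
      have h1 : ((m : ℕ) : (ZMod m)⟦X⟧) = C (m : ZMod m) := (map_natCast C m).symm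
      rw [h1, ZMod.natCast_self, map_zero]
    rw [this, zero_mul, add_zero]

theorem red_self (m : ℕ) : ((m : ℕ) : (ZMod m)⟦X⟧) = 0 := by
  have h1 : ((m : ℕ) : (ZMod m)⟦X⟧) = C (m : ZMod m) := (map_natCast C m).symm
  rw [h1, ZMod.natCast_self, map_zero]

theorem red_expand (m k : ℕ) (hk : k ≠ 0) (f : ℤ⟦X⟧) :
    red m (expand k hk f) = expand k hk (red m f) := by
  rw [red, map_expand]

theorem red_U (m k r : ℕ) (f : ℤ⟦X⟧) : red m (U k r f) = U k r (red m f) := by
  rw [red, U_map]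

theorem red_sq {f g : ℤ⟦X⟧} (h : red 8 f = red 8 g) : red 16 (f ^ 2) = red 16 (g ^ 2) := by
  obtain ⟨k, hk⟩ := (red_iff 8).1 h
  rw [red_iff]
  refine ⟨g * k + 4 * k ^ 2, ?_⟩
  rw [hk]
  push_cast
  ring

instance fact2 : Fact (Nat.Prime 2) := ⟨Nat.prime_two⟩

theorem sq_eq (f : (ZMod 2)⟦X⟧) : f ^ 2 = e2 f := pow_eq_expand 2 f

theorem e2_inj {A : Type*} [CommRing A] {f g : A⟦X⟧} (h : e2 f = e2 g) : f = g := by
  rw [← U_expand 2 two_ne_zero f, ← U_expand 2 two_ne_zero g]
  exact congrArg _ h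

theorem even_of_red {f : ℤ⟦X⟧} (h : red 2 f = 0) : ∃ g, f = 2 * g := by
  have : red 2 f = red 2 0 := by rw [h, map_zero]
  obtain ⟨g, hg⟩ := (red_iff 2).1 this
  exact ⟨g, by rw [hg]; push_cast; ring⟩

/-- the deduction of the congruences -/
theorem two_gen (F DeZ zeZ : ℤ⟦X⟧) (X1 X2 E3 O2 : (ZMod 8)⟦X⟧) (O5 : (ZMod 16)⟦X⟧)
    (O6 w : (ZMod 2)⟦X⟧)
    (h1 : U 2 0 (red 8 F) = X1) (h2 : X1 = e2 X2 + red 8 de * e2 O2)
    (h3 : X2 = e2 E3 + red 8 de * e2 (red 8 DeZ))
    (h5 : red 16 (vv * (1 + 3 * yy + yy ^ 2) * DeZ ^ 2) =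
      8 * e2 (red 16 zeZ) + red 16 de * e2 O5)
    (h6 : red 2 zeZ = red 2 de * e2 O6)
    (hL : red 2 (vv * (1 + 3 * yy + yy ^ 2) * DeZ ^ 2) = X * expand 8 (by norm_num) w)
    (hw : w ≠ 0) (n : ℕ) :
    4 ∣ coeff (16 * n + 12) F ∧ 8 ∣ coeff (32 * n + 28) F := by
  have d8 : U 2 0 (red 8 de) = 0 := by rw [← red_U, de_odd, map_zero]
  have d16 : U 2 0 (red 16 de) = 0 := by rw [← red_U, de_odd, map_zero]
  have d2 : U 2 0 (red 2 de) = 0 := by rw [← red_U, de_odd, map_zero]
  set B : ℤ⟦X⟧ := U 8 4 F with hB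
  -- the second dissection
  have u2 : U 2 0 X1 = X2 := by
    rw [h2, U_add, U_expand, mul_comm, U_mul 2 0 two_ne_zero two_pos, d8, mul_zero, add_zero]
  have key1 : X * e2 (red 8 B) = red 8 de * e2 (red 8 DeZ) := by
    apply ext_U
    · rw [U0_X, U_expand_ne 2 1 two_ne_zero one_pos one_lt_two, mul_zero, mul_comm (red 8 de),
        U_mul 2 0 two_ne_zero two_pos, d8, mul_zero]
    · rw [U1_X, U_expand]
      have e : red 8 de * e2 (red 8 DeZ) = X2 - e2 E3 := by rw [h3]; ring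
      have e' : U 2 1 (X2 - e2 E3) = U 2 1 X2 := by
        have : X2 = (X2 - e2 E3) + e2 E3 := by ring
        nth_rw 2 [this]
        rw [U_add, U_expand_ne 2 1 two_ne_zero one_pos one_lt_two, add_zero]
      rw [e, e', ← u2, ← h1]
      ext m
      rw [coeff_U, coeff_U, coeff_U, hB, red_U, coeff_U]
      congr 2
      ring
  have key2 : red 16 (X * B ^ 2) = red 16 (vv * (1 + 3 * yy + yy ^ 2) * DeZ ^ 2) := by
    have h7 : red 8 (X * e2 B) = red 8 (de * e2 DeZ) := by
      have hX : red 8 X = X := by rw [red, map_X]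
      rw [map_mul, map_mul, red_expand, red_expand, hX]
      exact key1
    have h8 := red_sq h7
    have e1 : (X * e2 B) ^ 2 = e2 (X * B ^ 2) := by
      rw [map_mul, map_pow, expand_X]; ring
    have e3 : (de * e2 DeZ) ^ 2 = e2 (vv * (1 + 3 * yy + yy ^ 2) * DeZ ^ 2) := by
      rw [mul_pow, de_sq]
      simp only [map_mul, map_pow, map_add, map_one, map_ofNat]
      rfl
    rw [e1, e3, red_expand, red_expand] at h8
    exact e2_inj h8
  set E := U 2 0 B with hE
  set O := U 2 1 B with hO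
  have key3 : U 2 0 (X * B ^ 2) = 2 * (X * (E * O)) := by
    have e1 : X * B ^ 2 = e2 (2 * (X * (E * O))) + X * e2 (E ^ 2 + X * O ^ 2) := by
      nth_rw 1 [dissect B]
      rw [← hE, ← hO]
      simp only [map_mul, map_pow, map_add, map_ofNat, expand_X]
      ring
    rw [e1, U_add, U_expand, U0_X, U_expand_ne 2 1 two_ne_zero one_pos one_lt_two, mul_zero,
      add_zero]
  have key4 : red 16 (2 * (X * (E * O))) = red 16 (8 * zeZ) := by
    rw [← key3, red_U, key2, h5, U_add, mul_comm (red 16 de), U_mul 2 0 two_ne_zero two_pos, d16,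
      mul_zero, add_zero]
    have : (8 : (ZMod 16)⟦X⟧) * e2 (red 16 zeZ) = e2 (8 * red 16 zeZ) := by
      rw [map_mul, map_ofNat]
    rw [this, U_expand, map_mul, map_ofNat]
  obtain ⟨h, hh⟩ := (red_iff 16).1 key4
  have two_ne : (2 : ℤ⟦X⟧) ≠ 0 := by
    intro h
    have := congrArg (constantCoeff (R := ℤ)) h
    rw [map_ofNat, map_zero] at this
    norm_num at this
  have key5 : X * (E * O) = 4 * zeZ + 8 * h := by
    apply mul_left_cancel₀ two_ne
    rw [hh]; push_cast; ring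
  -- modulo 2
  have key6 : red 2 (X * B ^ 2) = X * expand 8 (by norm_num) w := by
    rw [← hL]
    obtain ⟨k, hk⟩ := (red_iff 16).1 key2
    rw [red_iff]
    exact ⟨8 * k, by rw [hk]; push_cast; ring⟩
  have hX2 : red 2 X = X := by rw [red, map_X]
  have key7 : e2 (red 2 B) = e2 (expand 4 (by norm_num) w) := by
    rw [map_mul, map_pow, hX2] at key6
    have h9 := mul_left_cancel₀ (X_ne_zero (R := ZMod 2)) key6
    rw [sq_eq] at h9
    rw [h9, ← expand_mul]
  have key8 : red 2 B = expand 4 (by norm_num) w := e2_inj key7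
  have key9 : red 2 E = e2 w := by
    rw [hE, red_U, key8]
    have : expand 4 (by norm_num) w = e2 (e2 w) := by rw [← expand_mul]
    rw [this, U_expand]
  have hEne : red 2 E ≠ 0 := by
    rw [key9]
    intro h0
    apply hw
    apply e2_inj
    rw [h0, map_zero]
  have four0 : red 2 4 = 0 := by
    have : (4 : ℤ⟦X⟧) = 0 + (2 : ℕ) * 2 := by norm_num
    have := (red_iff 2).2 ⟨2, this⟩
    rw [this, map_zero]
  have eight0 : red 2 8 = 0 := by
    have : (8 : ℤ⟦X⟧) = 0 + (2 : ℕ) * 4 := by norm_num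
    have := (red_iff 2).2 ⟨4, this⟩
    rw [this, map_zero]
  have two0 : red 2 2 = 0 := by
    have : (2 : ℤ⟦X⟧) = 0 + (2 : ℕ) * 1 := by norm_num
    have := (red_iff 2).2 ⟨1, this⟩
    rw [this, map_zero]
  have hO0 : red 2 O = 0 := by
    have h9 := congrArg (red 2) key5
    rw [map_mul, map_mul, map_add, map_mul, map_mul, hX2, four0, eight0, zero_mul, zero_mul,
      add_zero] at h9
    rcases mul_eq_zero.1 h9 with h9 | h9
    · exact absurd h9 X_ne_zero
    · exact (mul_eq_zero.1 h9).resolve_left hEne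
  obtain ⟨O1, hO1⟩ := even_of_red hO0
  have key10 : X * (E * O1) = 2 * zeZ + 4 * h := by
    apply mul_left_cancel₀ two_ne
    rw [hO1] at key5
    linear_combination key5
  have hO10 : red 2 O1 = 0 := by
    have h9 := congrArg (red 2) key10
    rw [map_mul, map_mul, map_add, map_mul, map_mul, hX2, two0, four0, zero_mul, zero_mul,
      add_zero] at h9
    rcases mul_eq_zero.1 h9 with h9 | h9
    · exact absurd h9 X_ne_zero
    · exact (mul_eq_zero.1 h9).resolve_left hEne
  obtain ⟨β, hβ⟩ := even_of_red hO10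
  have key11 : X * (E * β) = zeZ + 2 * h := by
    apply mul_left_cancel₀ two_ne
    rw [hβ] at key10
    linear_combination key10
  have key12 : U 2 1 (red 2 β) = 0 := by
    have h9 := congrArg (red 2) key11
    rw [map_mul, map_mul, map_add, map_mul, hX2, two0, zero_mul, add_zero, key9, h6] at h9
    have h10 := congrArg (U 2 0) h9
    have e1 : X * (e2 w * red 2 β) = e2 w * (X * red 2 β) := by ring
    rw [e1, U_mul 2 0 two_ne_zero two_pos, U0_X, mul_comm (red 2 de),
      U_mul 2 0 two_ne_zero two_pos, d2, mul_zero] at h10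
    have h11 := (mul_eq_zero.1 h10).resolve_left hw
    exact (mul_eq_zero.1 h11).resolve_left X_ne_zero
  have hOβ : O = 4 * β := by rw [hO1, hβ]; ring
  have cO : ∀ m, coeff m O = 4 * coeff m β := by
    intro m
    rw [hOβ]
    have : (4 : ℤ⟦X⟧) = C (4 : ℤ) := by rw [map_ofNat]
    rw [this, coeff_C_mul]
  constructor
  · have e1 : coeff (16 * n + 12) F = coeff n O := by
      rw [hO, coeff_U, hB, coeff_U]
      congr 2
      ring
    rw [e1, cO]
    exact dvd_mul_right _ _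
  · have e1 : coeff (32 * n + 28) F = coeff (2 * n + 1) O := by
      rw [hO, coeff_U, hB, coeff_U]
      congr 2
      ring
    rw [e1, cO]
    have h12 := congrArg (coeff n) key12
    rw [coeff_U, coeff_red, map_zero, ZMod.intCast_zmod_eq_zero_iff_dvd] at h12
    obtain ⟨c, hc⟩ := h12
    rw [hc]
    exact ⟨c, by push_cast; ring⟩

end Pool.Agent.N915.RR
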